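import Pool.Agent.Lib.MP_305fdd_al.F2.D.StmT

/-!
# MP_305fdd_al, F_2 project, section D: Bruhat-Tits tree, representations, main theorems [F2D ..]

Every `def S_xx : Prop` is one independent piece; its docstring contains the complete proof.
The other statements may be taken as hypotheses.

Conventions.  The tree `tree w` with vertices `Vert w`, `mkV w h y` (height `h`, position `y`), `up`, the
group `Gw w` of matrices whose determinant has value `1` and its action are in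
`Pool/Agent/Lib/MP_305fdd_al/PSL/Lattice.lean` (namespace `Pool.Agent.PSL2Z.BT`).  `w x ≤ 1` means integral,
`exp n = WithZero.exp n`.  `mkV w h 0` is the lattice `{v | w (v 0) ≤ exp a ∧ w (v 1) ≤ exp b}`, `a = (h + 1) / 2`,
`b = -(h / 2)`, so that `a - b = h`.
-/

set_option autoImplicit false

namespace Pool.Agent.F2D

open Pool.Agent.F2 Pool.Agent.F2Ch Pool.Agent.PSL2Z Pool.Agent.PSL2Z.BT
open scoped WithZero

/-! ## The Bruhat-Tits tree -/

/-- [F2D fx] (about 70 lines) The stabiliser of the vertex `mkV w h 0`.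
Proof. `M = mkV w h 0 = {v | w (v 0) ≤ exp a ∧ w (v 1) ≤ exp b}`, `a - b = h`; `B • M = {B v | v ∈ M}` (`mulVec_mem`, `mem_smul`).
`→`: apply `B` to `(x, 0)`, `(0, z) ∈ M` with `w x = exp a`, `w z = exp b` (compare `stab_le`): `w (B00 x) ≤ exp a`, `w (B10 x) ≤ exp b`,
`w (B01 z) ≤ exp a`, `w (B11 z) ≤ exp b`.
`←`: the bounds give `B v ∈ M` for `v ∈ M`; `B⁻¹ = (det B)⁻¹ * !![B11, -B01; -B10, B00]` satisfies the same bounds (`w (det B) = 1`), so
`B⁻¹ v ∈ M` too.  (`exp 0 = 1`.) -/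
def S_fx : Prop :=
  ∀ (E : Type) [Field E] (w : Valuation E ℤᵐ⁰), Function.Surjective w → ∀ (B : Gw w) (h : ℤ),
    B • mkV w h 0 = mkV w h 0 ↔ Bd w B h 0

/-- [F2D da] (about 80 lines) Every oriented edge is a translate of a standard one.
Proof. `adj_cases`.  If `N = up M`, `M = mkV w h y`: `k = !![1, y; 0, 1]` maps `mkV w h' 0` to `mkV w h' y` for all `h'` (`k v - y v 1`).
If `M = up N`, `N = mkV w h' y`: `J = !![0, 1; -1, 0]` maps `mkV w h 0` to `mkV w (-h) 0` (it exchanges the bounds `a` and `b`; check the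
floors: `(-h + 1) / 2 = -(h / 2)` and `-((-h) / 2) = (h + 1) / 2`).  With `k = !![1, y; 0, 1] * J` and `h = -h' - 1`: `k • mkV w h 0 = mkV w (h' + 1) y = M`
and `k • mkV w (h + 1) 0 = mkV w h' y = N`. -/
def S_da : Prop :=
  ∀ (E : Type) [Field E] (w : Valuation E ℤᵐ⁰), Function.Surjective w → ∀ M N : Vert w,
    (tree w).Adj M N → ∃ (k : Gw w) (h : ℤ), M = k • mkV w h 0 ∧ N = k • mkV w (h + 1) 0

/-- [F2D ct] (about 40 lines) The complement of the descendants of a vertex is a cut.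
Proof. `n = 0` shows that `mkV w h 0` is a descendant of itself; `mkV w (h + 1) 0` is not a descendant (`up` raises the height by one,
`iterate_up_mkV`).  Let `M` be a descendant (`up^[n] M = mkV w h 0`), `N` not and `M, N` adjacent.  `adj_cases`: `M = up N` would make `N` a descendant, so
`N = up M`; `n ≥ 1` would give `up^[n-1] N = mkV w h 0`, so `n = 0`, `M = mkV w h 0`, `N = up M = mkV w (h + 1) 0` (`up_mkV`). -/
def S_ct : Prop :=
  ∀ (E : Type) [Field E] (w : Valuation E ℤᵐ⁰), Function.Surjective w → ∀ h : ℤ,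
    Cut (tree w) {M : Vert w | ¬ ∃ n : ℕ, up^[n] M = mkV w h 0} (mkV w h 0) (mkV w (h + 1) 0)

/-- [F2D sd] (about 90 lines) A matrix whose first row dominates moves `mkV w h 0` out of its descendants.
Proof. Let `B • mkV w h 0 = mkV w h' y` with `up^[n]` of it `= mkV w (h' + n) y = mkV w h 0`: so `h' ≤ h` and `w y ≤ exp h` (`mkV_eq_iff`); the parities
of `h'` and `h` agree (`ht_smul`), so with `a, b` for `h` and `a', b'` for `h'` we have `a' + b' = a + b`, `a' ≤ a`.  `mkV w h' y = {v | w (v 0 - y v 1) ≤ exp a' ∧ ..}`.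
Let `w x = exp a`, `w z = exp b`.  `B (x, 0)` and `B (0, z)` are in it: `w ((B00 - y B10) x) ≤ exp a' ≤ exp a`, so `w (B00 - y B10) ≤ 1`, and
`w (y B10) < exp (h + N - h) = exp N`; so `w B00 = exp N` (`N ≥ 1`) is impossible.  `w ((B01 - y B11) z) ≤ exp a' ≤ exp a`, so `w (B01 - y B11) ≤ exp (a - b) = exp h`, and
`w (y B11) < exp (h + N)`; so `w B01 = exp (N + h)` is impossible. -/
def S_sd : Prop :=
  ∀ (E : Type) [Field E] (w : Valuation E ℤᵐ⁰), Function.Surjective w → ∀ (B : Gw w) (h N : ℤ),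
    1 ≤ N → (w (ent B 0 0) = WithZero.exp N ∨ w (ent B 0 1) = WithZero.exp (N + h)) →
    w (ent B 1 0) < WithZero.exp (N - h) → w (ent B 1 1) < WithZero.exp N →
    ¬ ∃ n : ℕ, up^[n] (B • mkV w h 0) = mkV w h 0

/-- [F2D ma] (about 120 lines) Uses fx. Conjugate by an element of the stabiliser so that the second row becomes small.
Proof. (i) If the second row is small take `r = 1`.  (ii) If the first row is small, `w B00 < exp N` and `w B01 < exp (N + h)`: let `w y = exp h`,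
`r = !![0, y; -y⁻¹, 0]`; `r⁻¹ B r = !![B11, -y^2 B10; -y^(-2) B01, B00]`.  (iii) Otherwise, `det B = 1`.  If `w B00 = exp N` let `c = B10 / B00`, if `w B00 < exp N` then
`w B01 = exp (N + h)` and `c = B11 / B01`; in both cases `w c ≤ exp (-h)`.  `r = !![1, 0; c, 1]`; `r⁻¹ B` has the rows `(B00, B01)` and `(s0, s1) = (B10 - c B00, B11 - c B01)`, which
is `(0, 1 / B00)` or `(-1 / B01, 0)`: small, since `exp (-N) < exp N`, `exp (-N-h) < exp (N-h)`.  `r⁻¹ B r = !![B00 + c B01, B01; s0 + c s1, s1]`: bounded, and the second row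
is small (`w (c s1) < exp (-h + N)`).  In all cases `r` fixes `mkV w h 0` by fx (`w y ≤ exp h`, `w y⁻¹ = exp (-h)`). -/
def S_ma : Prop :=
  ∀ (E : Type) [Field E] (w : Valuation E ℤᵐ⁰), Function.Surjective w → ∀ (B : Gw w) (h N : ℤ),
    1 ≤ N → B.val.val.det = 1 → Bd w B h N →
    ∃ r : Gw w, r • mkV w h 0 = mkV w h 0 ∧ Bd w (r⁻¹ * B * r) h N ∧
      w (ent (r⁻¹ * B * r) 1 0) < WithZero.exp (N - h) ∧
      w (ent (r⁻¹ * B * r) 1 1) < WithZero.exp N

/-- [F2D mi] (about 200 lines) Uses da, ct, sd, ma. A hyperbolic element crosses an edge of every invariant `R`-connected set.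
Proof. `C = {M | ReflTransGen R M0 M}`; `M ∈ C` implies `g • M ∈ C`; any two elements of `C` are joined by an `R`-chain in `C` (`R` symmetric).
Consider the triples `(k, h, N)` with `k • mkV w h 0 ∈ C` and `Bd w (k⁻¹ * g * k) h N`.  They exist (every vertex is `k • mkV w h 0` with
`k = !![1, y; 0, 1]`; `N` large).  `exp n = w (trace) = w (B00 + B11) ≤ exp N`, so `N ≥ n ≥ 1`; let `N` be minimal over all
triples.  By ma (replace `k` by `k * r`, same vertex) we may assume that `B = k⁻¹ * g * k` has `w B10 < exp (N - h)`, `w B11 < exp N`.  The first row is not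
small: otherwise `Bd w B h (N - 1)` (values `< exp m` are `≤ exp (m - 1)`).  So `w B00 = exp N` or `w B01 = exp (N + h)`, and by sd `B • mkV w h 0` is not a descendant of
`mkV w h 0`.  An `R`-chain in `C` from `k • mkV w h 0` to `g • k • mkV w h 0 = k • B • mkV w h 0`, translated by `k⁻¹`, is a chain of adjacent vertices from the outside to the
inside of the cut of ct, so one of its steps is the step from `mkV w h 0` to `mkV w (h+1) 0`: `R (k • mkV w h 0) (k • mkV w (h + 1) 0)` and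
`k • mkV w (h + 1) 0 ∈ C`.
If `n < N`: `w (B00 + B11) < exp N` and `w B11 < exp N`, so `w B00 ≤ exp (N-1)` and `w B01 = exp (N + h)`; `B01 B10 = B00 B11 - 1` has value `≤ exp (2N - 2)`, so
`w B10 ≤ exp (N - 2 - h)`; so `Bd w B (h + 1) (N - 1)`, against the minimality of `N`.  So `n = N`, and `w B00 = exp N` because `w (B00 + B11) = exp N`, `w B11 < exp N`:
this is `Cross w B h n`. -/
def S_mi : Prop :=
  ∀ (E : Type) [Field E] (w : Valuation E ℤᵐ⁰), Function.Surjective w → ∀ (g : Gw w) (n : ℤ),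
    g.val.val.det = 1 → 1 ≤ n → w g.val.val.trace = WithZero.exp n →
    ∀ R : Vert w → Vert w → Prop, (∀ M N, R M N → (tree w).Adj M N) → (∀ M N, R M N → R N M) →
    (∀ M N, R M N → R (g • M) (g • N)) → ∀ M0, Relation.ReflTransGen R M0 (g • M0) →
    ∃ (k : Gw w) (h : ℤ), R (k • mkV w h 0) (k • mkV w (h + 1) 0) ∧ Cross w (k⁻¹ * g * k) h n

/-- [F2D le] (about 150 lines) Uses fx. Leading coefficients (the basis of Lemma 2).
Proof. By fx for `h` and `h + 1`: `w Z00, w Z11 ≤ 1`, `w Z01 ≤ exp h`, `w Z10 ≤ exp (-h - 1)`; so `w (Z01 Z10) < 1`, `Z00 Z11 ≡ 1` (values `< 1`), `w Z00 = w Z11 = 1`,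
`Z11 ≡ Z00⁻¹`.  Call these matrices of type I; products and inverses of matrices of type I (with determinant `1`) are of type I
and `(Y Z)00 ≡ Y00 Z00`, `(Z⁻¹)00 = Z11 ≡ Z00⁻¹`; so `(Z ^ m)00 ≡ Z00 ^ m` for all `m : ℤ`.
`trace (B Z^m) = B00 (Z^m)00 + B01 (Z^m)10 + B10 (Z^m)01 + B11 (Z^m)11`; the last three terms have values `< exp n` by `Cross`, and
`Z00 ^ m * trace B = Z00 ^ m B00 + Z00 ^ m B11`, `w (Z00^m B11) < exp n`; `w (B00 ((Z^m)00 - Z00^m)) < exp n`. -/
def S_le : Prop :=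
  ∀ (E : Type) [Field E] (w : Valuation E ℤᵐ⁰), Function.Surjective w → ∀ (B Z : Gw w) (h n : ℤ),
    Cross w B h n → Z • mkV w h 0 = mkV w h 0 → Z • mkV w (h + 1) 0 = mkV w (h + 1) 0 →
    Z.val.val.det = 1 →
    w (ent Z 0 0) = 1 ∧ w B.val.val.trace = WithZero.exp n ∧
      w (ent Z 0 0 + (ent Z 0 0)⁻¹ - Z.val.val.trace) < 1 ∧
      ∀ m : ℤ, w ((B * Z ^ m).val.val.trace - ent Z 0 0 ^ m * B.val.val.trace) < WithZero.exp n

/-! ## Representations from pseudo-characters -/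

/-- [F2D ra] (about 180 lines) The algebra of a pseudo-character (every characteristic).
Proof. `T' : MonoidAlgebra E Λ →ₗ[E] E` the linear extension of `T`; `T' (a b) = T' (b a)` (bilinear, `PC.comm`).  `a ~ b` iff `T' (a c) = T' (b c)` for all `c`: a
ring congruence (`RingCon`: `T' (a c x) = T' (b c x)` and `T' (b c x) = T' (c x b) = T' (d x b) = T' (b d x)`), compatible with scalars; `𝒜` the quotient (or: `𝒜` is the image of
`MonoidAlgebra E Λ` in the endomorphisms of a suitable space, whatever is easiest), `t` induced by `T'` (take `c = 1`), `j` the class of `single g 1`.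
`nd` by definition, `span` since the `single g 1` span.  `pch`: both sides are bilinear, so it is enough to take `a = g`, `b = h` in `Λ` and to show, for all `c ∈ Λ`,
`T (g h c) + T (h g c) = T g T (h c) + T h T (g c) + (T (g h) - T g T h) T c`.
From `rel` and `comm`: (1) `T (x c) + T (x⁻¹ c) = T x T c` for all `x, c`.  So `T ((g h)⁻¹ c) = T (g h) T c - T (g h c)`, and also
`T (h⁻¹ g⁻¹ c) = T h T (g⁻¹ c) - T (h g⁻¹ c)`, `T (g⁻¹ c) = T g T c - T (g c)`, `T (h g⁻¹ c) = T (g⁻¹ (c h)) = T g T (c h) - T (g c h) = T g T (h c) - T (h g c)`. Combine. -/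
def S_ra : Prop :=
  ∀ (Λ E : Type) [Group Λ] [Field E] (T : Λ → E), PC T →
    ∃ (𝒜 : Type) (_ : Ring 𝒜) (_ : Algebra E 𝒜) (j : Λ →* 𝒜) (t : 𝒜 →ₗ[E] E), PAlg T j t

/-- [F2D rb] (about 120 lines) Matrix units.
Proof. Let `ε' = 1 - ε`: idempotent, `t ε' = 1`, `ε ε' = 0`.  (a) `ε a ε = t (ε a) • ε`: for `b = ε a ε`, `pch` for `b, ε` says `2 b = t b • ε + b + 0`, and `t b = t (ε a)` by `comm`.  In the
same way `ε' a ε' = t (ε' a) • ε'`.  (b) `u = ε u ε'`, `u' = ε' u' ε`; `u' u = t (u' u) • ε' = ε'`, `u u' = ε`.  (c) `ε a ε' = t (u' a) • u`: `v = ε a ε'`, `v = v ε' = (v u') u = t (ε v u') • ε u`,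
`t (ε v u') = t (v u') = t (ε a ε' u') = t (a u') `.  (d) `ε' a ε = t (u a) • u'`: `w = ε' a ε`, `w = ε' w = u' (u w) = t (u w) • u' ε`, `t (u w) = t (u a)`.
`R a = !![t (ε a), t (u' a); t (u a), t (ε' a)]` is linear; `R 1 = 1` (`t u = t (ε u) = t (u ε) = 0`); multiplicative: insert `1 = ε + ε'` between `a` and `b` and use (a)-(d), e.g.
`t (ε a b) = t (ε a ε * ε b ε) + t (ε a ε' * ε' b ε) = t (ε a) t (ε b) + t (u' a) t (u b) t (u u')`.  `trace (R a) = t (ε a) + t (ε' a) = t a`.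
Surjective: `R ε, R ε', R u, R u'` are the matrix units (`t (u' u) = 1`, `t (u u) = t (u ε ε' ..) = 0` because `u u = u ε u = 0`, etc.). -/
def S_rb : Prop :=
  ∀ (E 𝒜 : Type) [Field E] [Ring 𝒜] [Algebra E 𝒜] (t : 𝒜 →ₗ[E] E), t 1 = 2 →
    (∀ a b, t (a * b) = t (b * a)) →
    (∀ a b, a * b + b * a = t a • b + t b • a + (t (a * b) - t a * t b) • (1 : 𝒜)) →
    ∀ ε u u' : 𝒜, ε * ε = ε → t ε = 1 → ε * u = u → u * ε = 0 → u' * ε = u' → ε * u' = 0 →
    t (u * u') = 1 →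
    ∃ R : 𝒜 →ₐ[E] Matrix (Fin 2) (Fin 2) E, Function.Surjective R ∧ ∀ a, (R a).trace = t a

/-- [F2D rc] (about 150 lines) Uses ra, rb. The representation over a field containing the eigenvalue of one element.
Proof. `𝒜, j, t` from ra; `μ = λ⁻¹`; `g = j g0` satisfies `g ^ 2 = T g0 • g - 1`: by `rel` `t ((g + j g0⁻¹ - T g0 • 1) b) = 0` for `b = j c`, hence for all `b` (span), so by `nd`
`g + g⁻¹ = T g0`; multiply by `g`.  `ε = (λ - μ)⁻¹ • (g - μ • 1)`: `(g - μ)^2 = (λ - μ) (g - μ)`, so `ε ε = ε`; `t ε = (λ + μ - 2 μ) / (λ - μ) = 1` (`t 1 = T 1 = 2`).  `ε' = 1 - ε`.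
Claim: there are `g, h ∈ Λ` with `d := t (ε (j g) ε' (j h)) ≠ 0`.  Otherwise, with `χ x = t (ε (j x))`, `χ' x = t (ε' (j x)) = T x - χ x`:
`χ (x y) = t (ε x ε y) + t (ε x ε' y) = χ x χ y` (use `ε a ε = t (ε a) • ε`, proof as in rb (a)), and `χ' (x y) = χ' x χ' y + t (ε' x ε y)`, `t (ε' x ε y) = t (ε y ε' x) = 0`; so `χ, χ'`
are multiplicative with `χ 1 = χ' 1 = 1`, and `T (g h g⁻¹ h⁻¹) = χ + χ' = 2` for all `g, h`, against `Irr`.
`u = ε (j g) ε'`, `u' = d⁻¹ • ε' (j h) ε`; `t (u u') = 1`.  `R` from rb; `ρ l = R (j l)`, invertible with inverse `R (j l⁻¹)`.  Trace: `t (j l) = T l`.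
Determinant: `j l + j l⁻¹ = T l` (as above) gives `A^2 - T l A + 1 = 0` for `A = R (j l)`, and Cayley-Hamilton `A^2 - (trace A) A + det A = 0`, so `det A = 1`.
Last property: if `trace (A * ρ l) = 0` for all `l` then `trace (A * R a) = 0` for all `a` (span), so `trace (A * X) = 0` for all matrices `X`, so `A = 0`. -/
def S_rc : Prop :=
  ∀ (Λ E : Type) [Group Λ] [Field E] (T : Λ → E), PC T → Irr T → ∀ (g0 : Λ) (lam : E), lam ≠ 0 →
    lam ≠ lam⁻¹ → T g0 = lam + lam⁻¹ →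
    ∃ ρ : Λ →* GL (Fin 2) E, (∀ l, (ρ l).val.det = 1) ∧ (∀ l, (ρ l).val.trace = T l) ∧
      ∀ A : Matrix (Fin 2) (Fin 2) E, (∀ l, (A * (ρ l).val).trace = 0) → A = 0

/-- [F2D cp] (about 100 lines) Completion.
Proof. `letI := Valued.mk' w0`, `E = UniformSpace.Completion K` (a field, `Valued E ℤᵐ⁰`), `w = Valued.v`; `Valued.valuedCompletion_apply`.  Dense: `{z | w (x - z) < exp n}` is a neighbourhood of `x`
(`Valued.mem_nhds`), `UniformSpace.Completion.denseRange_coe`.  Complete: if `w (x (n+1) - x n) ≤ exp (-n)` then `w (x m - x n) ≤ exp (-n)` for `m ≥ n`, so `x` is a Cauchy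
sequence (`Valued` uniformity), it has a limit `y`; for `m` large `w (y - x m) ≤ exp (-n)`, so `w (y - x n) ≤ exp (-n)`. -/
def S_cp : Prop :=
  ∀ (K : Type) [Field K] (w0 : Valuation K ℤᵐ⁰), Function.Surjective w0 →
    ∃ (E : Type) (_ : Field E) (_ : Algebra K E) (w : Valuation E ℤᵐ⁰),
      (∀ a, w (algebraMap K E a) = w0 a) ∧
      (∀ (x : E) (n : ℤ), ∃ a : K, w (x - algebraMap K E a) < WithZero.exp n) ∧
      ∀ x : ℕ → E, (∀ n : ℕ, w (x (n + 1) - x n) ≤ WithZero.exp (-(n : ℤ))) →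
        ∃ y, ∀ n : ℕ, w (y - x n) ≤ WithZero.exp (-(n : ℤ))

/-- [F2D rt] (about 80 lines) The eigenvalue.
Proof. `c 0 = t0`, `c (n+1) = t0 - (c n)⁻¹`.  By induction `w (c n) = exp s` (`w (c n)⁻¹ = exp (-s) < exp s`).  `c (n+2) - c (n+1) = (c (n+1) - c n) / (c n * c (n+1))`, `c 1 - c 0 = -(c 0)⁻¹`; so
`w (c (n+1) - c n) ≤ exp (-s - 2 s n) ≤ exp (-n)`.  Let `y` be the limit.  `w (y - c 0) ≤ 1 < exp s`, so `w y = exp s`.
`y + y⁻¹ - t0 = (y - c (n+1)) + (c n - y) / (y * c n)` has value `≤ exp (-n)` for every `n`, so it is `0`. -/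
def S_rt : Prop :=
  ∀ (E : Type) [Field E] (w : Valuation E ℤᵐ⁰),
    (∀ x : ℕ → E, (∀ n : ℕ, w (x (n + 1) - x n) ≤ WithZero.exp (-(n : ℤ))) →
      ∃ y, ∀ n : ℕ, w (y - x n) ≤ WithZero.exp (-(n : ℤ))) →
    ∀ (t0 : E) (s : ℤ), 1 ≤ s → w t0 = WithZero.exp s →
    ∃ y : E, y ≠ 0 ∧ w y = WithZero.exp s ∧ y + y⁻¹ = t0

/-- [F2D no] (about 100 lines) Normalisation of a discrete valuation.
Proof. `Disc v`: `v f = N f • γ0` for `f ≠ 0` with a unique integer `N f` (`γ0 > 0`); `v f0 < 0` so `f0 ≠ 0` (`v 0 = 0`) and `N f0 < 0`.  `{N f | f ≠ 0}` is a subgroup of `ℤ`, generated by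
some `d > 0`; `γ = d • γ0`, `N f = d * n f`.  `w0 f = exp (-(n f))` for `f ≠ 0`, `w0 0 = 0`: a valuation (`IsV.mul`, `IsV.add`: `min (n f) (n g) ≤ n (f + g)` since `γ > 0`), surjective because
`n` is surjective onto `ℤ`. -/
def S_no : Prop :=
  ∀ (K Γ : Type) [Field K] [AddCommGroup Γ] [LinearOrder Γ] [IsOrderedAddMonoid Γ] (v : K → Γ),
    IsV v → Disc v → (∃ f0, v f0 < 0) →
    ∃ (γ : Γ) (w0 : Valuation K ℤᵐ⁰), 0 < γ ∧ Function.Surjective w0 ∧
      ∀ f, f ≠ 0 → v f = (-(WithZero.log (w0 f))) • γ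

/-- [F2D se] (about 100 lines) Uses rc, cp, rt, no. Existence of a model.
Proof. `γ, w0` from no; `E, w` from cp; `v (T g0) < 0` means `w (T g0) = w0 (T g0) = exp s` with `s ≥ 1`; `lam` from rt, `lam ≠ lam⁻¹` (values `exp s`, `exp (-s)`).  `algebraMap ∘ T` is a
pseudo-character `Λ → E` with `Irr`; `ρ` from rc; its determinants are `1`, so it has values in `Gw w`.  `w` is surjective as `w0` is. -/
def S_se : Prop :=
  ∀ (Λ K Γ : Type) [Group Λ] [Field K] [AddCommGroup Γ] [LinearOrder Γ] [IsOrderedAddMonoid Γ]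
    (T : Λ → K) (v : K → Γ), PC T → Irr T → IsV v → Disc v → (∃ g0, v (T g0) < 0) →
    ∃ (E : Type) (_ : Field E) (_ : Algebra K E) (w : Valuation E ℤᵐ⁰) (γ : Γ) (ρ : Λ →* Gw w),
      Model T v γ w ρ

/-- [F2D mo] (about 80 lines) First consequences of a model.
Proof. For `f ≠ 0`, `n = log (w f)`, `v f = (-n) • γ`, `γ > 0`: `0 ≤ v f ↔ n ≤ 0 ↔ w f ≤ 1`; for `f = 0` both sides are true (`IsV.zero`).  `Gt v (v g) f` means `f = 0` or `v g < v f`, that
is `w f < w g` (`w g ≠ 0`).  If `ρ l • M = M` then `w (trace) ≤ 1` (`trace_le`), and the trace is `T l`. -/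
def S_mo : Prop :=
  ∀ (Λ K Γ E : Type) [Group Λ] [Field K] [AddCommGroup Γ] [LinearOrder Γ] [IsOrderedAddMonoid Γ]
    [Field E] [Algebra K E] (T : Λ → K) (v : K → Γ) (γ : Γ) (w : Valuation E ℤᵐ⁰) (ρ : Λ →* Gw w),
    IsV v → Model T v γ w ρ →
    (∀ f : K, 0 ≤ v f ↔ w (algebraMap K E f) ≤ 1) ∧
    (∀ f g : K, g ≠ 0 → (Gt v (v g) f ↔ w (algebraMap K E f) < w (algebraMap K E g))) ∧
    (∀ f : K, f ≠ 0 → (v f = 0 ↔ w (algebraMap K E f) = 1)) ∧
    ∀ (l : Λ) (M : Vert w), ρ l • M = M → 0 ≤ v (T l)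

/-! ## The main theorems -/

/-- [F2D A0] (about 60 lines) Uses e1, se, mo. THEOREM D_zero.
Proof. Some `g0` has `v (T g0) < 0`: otherwise all classes are `1`, against `Rk2`.  Take a model; `Λ` acts on `Vert w` through `ρ` (`MulAction.compHom`) and on the tree
`tree w` (`isTree`, `adj_smul`); an element fixing a vertex has `0 ≤ v (T l)` (mo), so class `1`.  Now e1. -/
def S_A0 : Prop :=
  ∀ (Λ K Γ : Type) [Group Λ] [Field K] [AddCommGroup Γ] [LinearOrder Γ] [IsOrderedAddMonoid Γ]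
    (T : Λ → K) (v : K → Γ) (cl : Λ →* Multiplicative (ℤ × ℤ)), PC T → Irr T → IsV v → Disc v →
    Rk2 cl → (∀ l, 0 ≤ v (T l) → cl l = 1) → OntoF2 Λ

/-- [F2D A1] (about 60 lines) Uses he, se, mo. THEOREM D_heis.
Proof. Some `g0` has `v (T g0) < 0`: otherwise every class zero element dies under `π`; for `g, h` with independent classes the commutator has class `1`, so `π g`, `π h` commute:
contradiction.  Take a model and apply he to `Vert w`, `tree w` as in A0: an element fixing a vertex has `0 ≤ v (T l)`. -/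
def S_A1 : Prop :=
  ∀ (Λ K Γ M : Type) [Group Λ] [Field K] [AddCommGroup Γ] [LinearOrder Γ] [IsOrderedAddMonoid Γ]
    [Group M] (T : Λ → K) (v : K → Γ) (cl : Λ →* Multiplicative (ℤ × ℤ)) (π : Λ →* M),
    PC T → Irr T → IsV v → Disc v → Rk2 cl →
    (∀ g h, Commute (π g) (π h) → Dpd (cl g) (cl h)) →
    (∀ l, 0 ≤ v (T l) → cl l = 1 → π l = 1) → OntoF2 Λ

/-- [F2D A2] (about 180 lines) Uses e2, co, mi, le, se, mo. THEOREM D_edge.
Proof. Some `g0` has `v (T g0) < 0` (otherwise all classes are pairwise dependent).  Take a model, `Λ` acts on `X = tree w` through `ρ`.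
`Good M N` iff there are `k : Gw w`, `h n : ℤ`, `g : Λ`, `1 ≤ n`, `Cross w (k⁻¹ * ρ g * k) h n` and (`M = k • mkV w h 0`, `N = k • mkV w (h+1) 0`, or the same with `M, N` exchanged).
`D M N` iff `X.Adj M N` and not `Good M N`.  `D` is symmetric and invariant: `(k, h, n, g)` for `(M, N)` gives `(ρ l * k, h, n, l * g * l⁻¹)` for `(ρ l • M, ρ l • N)`.
Let `W, Z, q` be as in co.
(1) Let `l • a = a`, `a = q M0`.  Then `0 ≤ v (T l)`: otherwise `w (trace (ρ l)) = exp n`, `n ≥ 1`, and `ReflTransGen D M0 (ρ l • M0)`, so mi gives `k, h` with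
`D (k • mkV w h 0) (k • mkV w (h+1) 0)` and `Cross w (k⁻¹ * ρ l * k) h n`: the edge is good, contradiction.  So the classes of each vertex stabiliser of `Z` are pairwise dependent.
(2) If all elements of edge stabilisers of `Z` have class `1` then e2 gives `OntoF2 Λ`.
(3) Otherwise there are adjacent `a, b` in `Z` and `z` fixing them with `cl z ≠ 1`; by co there are `M, N` adjacent, not `D`, so `Good M N`, both fixed by `ρ z`; let
`k, h, n, g` be as in the definition of `Good` and `B = k⁻¹ * ρ g * k`, `Z' = k⁻¹ * ρ z * k`: `Z'` fixes `mkV w h 0` and `mkV w (h+1) 0`.  By le, `c = ent Z' 0 0`, `w c = 1`, `w (T g) = exp n` (trace of a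
conjugate), and `w (T (g * z ^ m) - c ^ m * T g) < exp n`.  Choose `ψ : K` with `w (c - ψ) < 1` (dense); `w ψ = 1`, `w (c ^ m - ψ ^ m) < 1` for all `m : ℤ`, so
`w (T (g z^m) - ψ ^ m T g) < exp n = w (T g)`.  Translate by mo. `0 ≤ v (T z)` because `z` fixes a vertex. -/
def S_A2 : Prop :=
  ∀ (Λ K Γ : Type) [Group Λ] [Field K] [AddCommGroup Γ] [LinearOrder Γ] [IsOrderedAddMonoid Γ]
    (T : Λ → K) (v : K → Γ) (cl : Λ →* Multiplicative (ℤ × ℤ)), PC T → Irr T → IsV v → Disc v →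
    Rk2 cl → (∀ l l', 0 ≤ v (T l) → 0 ≤ v (T l') → Dpd (cl l) (cl l')) →
    OntoF2 Λ ∨ ∃ (z g : Λ) (ψ : K), 0 ≤ v (T z) ∧ cl z ≠ 1 ∧ EdgeElt v T z g ψ

/-- [F2D l1] (about 40 lines) The residual eigenvalue is a root of `X ^ 2 - T z X + 1`.
Proof. `T (g z) + T (g z⁻¹) = T g T z` (`PC.rel`).  `T (g z) = ψ T g + r`, `T (g z⁻¹) = ψ⁻¹ T g + r'` with `r, r'` zero or of value `> v (T g)`; so `(T z - ψ - ψ⁻¹) T g = r + r'`. -/
def S_l1 : Prop :=
  ∀ (Λ K Γ : Type) [Group Λ] [Field K] [AddCommGroup Γ] [LinearOrder Γ] [IsOrderedAddMonoid Γ]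
    (T : Λ → K) (v : K → Γ) (z g : Λ) (ψ : K), PC T → IsV v → EdgeElt v T z g ψ →
    Gt v 0 (T z - (ψ + ψ⁻¹))

/-- [F2D l2] (about 60 lines) LEMMA 2 (pole type directions), first part: `V` is finer than `v`.
Proof. If `v g < v f` or `f = 0`, `g ≠ 0`, then `V (g + f) = V g`: `V (f / g) > 0` because `v (f / g) > 0`, so `V (1 + f / g) = 0`.  Apply it to `ψ ^ m * T g` (value `v (T g)`) and the
difference of `EdgeElt.lead`. -/
def S_l2 : Prop :=
  ∀ (Λ K Γ Γ' : Type) [Group Λ] [Field K] [AddCommGroup Γ] [LinearOrder Γ] [IsOrderedAddMonoid Γ]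
    [AddCommGroup Γ'] [LinearOrder Γ'] [IsOrderedAddMonoid Γ'] (T : Λ → K) (v : K → Γ)
    (V : K → Γ') (z g : Λ) (ψ : K), IsV v → IsV V → (∀ f, f ≠ 0 → 0 < v f → 0 < V f) →
    EdgeElt v T z g ψ → ∀ m : ℤ, T (g * z ^ m) ≠ 0 ∧ V (T (g * z ^ m)) = m • V ψ + V (T g)

/-- [F2D l3] (about 50 lines) Uses l2. LEMMA 2, second part, for a flag `V = (v, C)` with values in `ℝ ×ₗ ℝ`.
Proof. Let `V ψ = (0, c)` (the first component is `v ψ = 0`) and `V (T g) = (s, d)`; by l2 `V (T (g z^m)) = (s, m c + d)`, so `α s + β (m c + d) ≤ 0` for all `m : ℤ`, and `β > 0`, so `c = 0`. -/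
def S_l3 : Prop :=
  ∀ (Λ K : Type) [Group Λ] [Field K] (T : Λ → K) (V : K → ℝ ×ₗ ℝ) (z g : Λ) (ψ : K), IsV V →
    IsV (fun f => (ofLex (V f)).1) → EdgeElt (fun f => (ofLex (V f)).1) T z g ψ →
    (∃ α β : ℝ, 0 < β ∧ ∀ l, α * (ofLex (V (T l))).1 + β * (ofLex (V (T l))).2 ≤ 0) → V ψ = 0

/-! ## The blow-up of the tree by a second valuation -/

/-- [F2D va] (about 200 lines) Uses no, mo. The valuation of the residue field.
Proof. `κ` = residue field of the valuation ring of `w` (`w.valuationSubring` or `w.integer`), `red x` = residue class if `w x ≤ 1`, `0` otherwise: `IsRed`.  By density every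
`c ∈ κ` is `red f` with `f : K`, `w f ≤ 1`, and for `c ≠ 0`: `f ≠ 0`, `v f = 0`.  If `f, f'` are lifts of `c ≠ 0` then `f / f' = 1 + e` with `e = 0` or `v e > 0`, so `V e > 0` and `V f = V f'`.  Let
`Q c = V f` for a lift `f` of `c ≠ 0`, `Q 0 = 0`: `IsV Q` (products and sums of lifts are lifts), `Disc Q` from `Disc'`, and `Q` takes a negative value (take `f` or `f⁻¹` for an `f` with `v f = 0`, `V f ≠ 0`).
no for `Q` gives `δ` and `C`. -/
def S_va : Prop :=
  ∀ (Λ K Γ Γ' E : Type) [Group Λ] [Field K] [AddCommGroup Γ] [LinearOrder Γ]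
    [IsOrderedAddMonoid Γ] [AddCommGroup Γ'] [LinearOrder Γ'] [IsOrderedAddMonoid Γ'] [Field E]
    [Algebra K E] (T : Λ → K) (v : K → Γ) (V : K → Γ') (γ : Γ) (w : Valuation E ℤᵐ⁰)
    (ρ : Λ →* Gw w), IsV v → IsV V → Model T v γ w ρ → (∀ f, f ≠ 0 → 0 < v f → 0 < V f) →
    Disc' v V → (∃ f, f ≠ 0 ∧ v f = 0 ∧ V f ≠ 0) →
    ∃ (κ : Type) (_ : Field κ) (red : E → κ) (C : Valuation κ ℤᵐ⁰) (δ : Γ'), IsRed w red ∧
      Function.Surjective C ∧ 0 < δ ∧ ∀ f : K, f ≠ 0 → v f = 0 →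
        V f = (-(WithZero.log (C (red (algebraMap K E f))))) • δ

/-- [F2D vb] (about 200 lines) Uses fx, da. The residual representation of the stabiliser of a vertex.
Proof. For `k : Gw w`, `h : ℤ` with `M = k • mkV w h 0` let `w d1 = exp a`, `w d2 = exp b` and `P = k * !![d1, 0; 0, d2]`, so that `M = {P v | v integral}`, and `Q g = P⁻¹ * g * P`: it has
integral entries iff `g • M = M` (fx: the entries are `B00, B01 d2 / d1, B10 d1 / d2, B11`, `B = k⁻¹ g k`), and determinant `1` if `det g = 1`.  Reduce the entries: `r g ∈ SL₂(κ)` for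
`g • M = M`, `det g = 1` (`r g = 1` otherwise); multiplicative; `trace (r g) = red (trace g)`.
Let `N` be adjacent to `M`; da: `M = k' • mkV w h' 0`, `N = k' • mkV w (h'+1) 0`, with `P'`; `A = P⁻¹ * P'` and `A⁻¹` have integral entries (both map integral vectors to integral vectors); let
`ξ` be the reduction of the first column of `A`, `ξ ≠ 0` because `det A` has value `1` (the first column of `A` is not `≡ 0`).  For `g` fixing `M` and `N`: `Q' g = P'⁻¹ g P'` is integral and its entry `(1, 0)` has value `< 1` (fx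
for `h' + 1`); `Q g * A = A * Q' g`, so `r g ξ = red c • ξ`, `c = (Q' g) 0 0`.  `det = 1` gives `w c = 1` and `(Q' g) 1 1 ≡ c⁻¹`, so `w (c + c⁻¹ - trace g) < 1`. -/
def S_vb : Prop :=
  ∀ (E κ : Type) [Field E] [Field κ] (w : Valuation E ℤᵐ⁰) (red : E → κ) (C : Valuation κ ℤᵐ⁰),
    Function.Surjective w → IsRed w red → ∀ M : Vert w, ∃ r : Gw w → Gw C,
      (∀ g h : Gw w, g • M = M → h • M = M → g.val.val.det = 1 → h.val.val.det = 1 →
        r (g * h) = r g * r h) ∧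
      (∀ g : Gw w, g • M = M → g.val.val.det = 1 → (r g).val.val.trace = red g.val.val.trace) ∧
      ∀ N : Vert w, (tree w).Adj M N → ∃ ξ : Fin 2 → κ, ξ ≠ 0 ∧ ∀ g : Gw w, g • M = M →
        g • N = N → g.val.val.det = 1 → ∃ c : E, w c = 1 ∧ w (c + c⁻¹ - g.val.val.trace) < 1 ∧
          (r g).val.val.mulVec ξ = red c • ξ

/-- [F2D vc] (about 50 lines) Uses fx. An element with an eigenvector whose eigenvalue is a unit fixes a vertex.
Proof. `exists_mulVec`: `k ∈ Gw C` with `k (1, 0) = ξ`; `B = k⁻¹ A k` has `B (1, 0) = c (1, 0)`, so `B10 = 0`, `B00 = c`, and `C (B00 B11) = 1` gives `C B11 = 1`.  Choose `h` with `C B01 ≤ exp h`; by fx `B`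
fixes `mkV C h 0`, so `A` fixes `k • mkV C h 0`. -/
def S_vc : Prop :=
  ∀ (κ : Type) [Field κ] (C : Valuation κ ℤᵐ⁰), Function.Surjective C → ∀ (A : Gw C)
    (ξ : Fin 2 → κ) (c : κ), ξ ≠ 0 → C c = 1 → A.val.val.mulVec ξ = c • ξ →
    ∃ x : Vert C, A • x = x

/-- [F2D A3] (about 200 lines) Uses he, bu, cy, se, mo, va, vb, vc, A1. THEOREM D_blow (for Lemma S).
Proof. If `V f = 0` for all `f ≠ 0` with `v f = 0`, then `0 ≤ v f` implies `0 ≤ V f` (for `v f > 0` by the hypothesis), and A1 applies.  Otherwise some `g0` has `v (T g0) < 0` (else all classes are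
pairwise dependent); take a model and `κ, red, C, δ` from va.  Facts: for `f : K` with `w f ≤ 1`: `0 ≤ V f` iff `C (red f) ≤ 1` (if `w f < 1` both hold: `red f = 0`, and `f = 0` or `V f > 0`).
For every vertex `M` of `tree w` let `r M` be as in vb.  `Λ` acts on `tree w` through `ρ`, and `l ↦ r M (ρ l)` is a homomorphism on the stabiliser of `M`.
Fixed points: let `M, N` be adjacent, `L` the subgroup of `l` fixing both, `ξ` as in vb.  For `l ∈ L` with `c` as in vb choose `ψ : K`, `w (c - ψ) < 1`: `v ψ = 0`, `ψ + ψ⁻¹ - T l` is zero or has positive value, so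
`V ψ = 0` by hypothesis and `C (red c) = C (red ψ) = 1`; `red (T l) = red c + (red c)⁻¹` is integral, so `0 ≤ V (T l)`.  If `cl l = 1` then `T (l * h) = T h` for all `h`, so `trace ((ρ l - 1) ρ h) = 0` for
all `h` and `ρ l = 1` (`Model.span`).  The classes of `L` are pairwise dependent; by cy (for the image of `L` under `cl`) there is `z ∈ L` such that every `l ∈ L` has `cl l = cl z ^ n`, so `l * z ^ (-n) ∈ L` has class `1` and
`ρ l = ρ z ^ n`.  By vc `r M (ρ z)` fixes a vertex `x` of `tree C`; so all `r M (ρ l) = (r M (ρ z)) ^ n`, `l ∈ L`, fix `x`.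
bu with `Y = tree C`, `G = Gw C`: a tree `Z` with an action of `Λ` such that every `g` fixing a vertex of `Z` is conjugate to some `l` with `ρ l • M = M` and `r M (ρ l) • x = x`; so `C (red (T l)) = C (trace (r M (ρ l))) ≤ 1`
(`trace_le`), and `0 ≤ V (T l) = V (T g)` (conjugation invariance of `T`).  If `cl g = 1` then `π g = 1`.  Apply he to `Z`. -/
def S_A3 : Prop :=
  ∀ (Λ K Γ Γ' M : Type) [Group Λ] [Field K] [AddCommGroup Γ] [LinearOrder Γ]
    [IsOrderedAddMonoid Γ] [AddCommGroup Γ'] [LinearOrder Γ'] [IsOrderedAddMonoid Γ'] [Group M]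
    (T : Λ → K) (v : K → Γ) (V : K → Γ') (cl : Λ →* Multiplicative (ℤ × ℤ)) (π : Λ →* M),
    PC T → Irr T → IsV v → IsV V → Disc v → Rk2 cl → (∀ f, f ≠ 0 → 0 < v f → 0 < V f) →
    Disc' v V → (∀ g h, Commute (π g) (π h) → Dpd (cl g) (cl h)) →
    (∀ l l', 0 ≤ v (T l) → 0 ≤ v (T l') → Dpd (cl l) (cl l')) →
    (∀ l ψ, 0 ≤ v (T l) → ψ ≠ 0 → v ψ = 0 → Gt v 0 (ψ + ψ⁻¹ - T l) → V ψ = 0) →
    (∀ l, 0 ≤ V (T l) → 0 ≤ v (T l) → cl l = 1 → π l = 1 ∧ ∀ h, T (l * h) = T h) → OntoF2 Λ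

end Pool.Agent.F2D
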