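import Pool.Agent.Lib.MP_305fdd_al.F2.D.StmB

/-!
# MP_305fdd_al, F_2 project, section D: piece [F2D A1]
-/

set_option autoImplicit false

namespace Pool.Agent.F2D

open Pool.Agent.F2 Pool.Agent.F2Ch Pool.Agent.PSL2Z Pool.Agent.PSL2Z.BT
open scoped WithZero

theorem p_A1 (hhe : S_he) (hse : S_se) (hmo : S_mo) : S_A1 := by
  intro Λ K Γ M _ _ _ _ _ _ T v cl π hPC hIrr hv hd hrk hcomm hπ
  by_cases hneg : ∃ g0, v (T g0) < 0
  · obtain ⟨E, _, _, w, γ, ρ, hm⟩ := hse Λ K Γ T v hPC hIrr hv hd hneg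
    obtain ⟨_, _, _, h4⟩ := hmo Λ K Γ E T v γ w ρ hv hm
    let hact : MulAction Λ (Vert w) := MulAction.compHom (Vert w) ρ
    exact hhe Λ (Vert w) M (tree w) (isTree hm.surj)
      (fun g a b h => adj_smul hm.surj (ρ g) a b h) cl hrk π hcomm
      (fun a g hg h1 => hπ g (h4 g a hg) h1)
  · exfalso
    push Not at hneg
    obtain ⟨g, h, hgh⟩ := hrk
    apply hgh
    apply hcomm
    have h1 : cl (g * h * g⁻¹ * h⁻¹) = 1 := by
      rw [map_mul, map_mul, map_mul, map_inv, map_inv, mul_comm (cl g), mul_assoc (cl h),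
        mul_inv_cancel, mul_one, mul_inv_cancel]
    have h2 := hπ _ (hneg _) h1
    rw [map_mul, map_mul, map_mul, map_inv, map_inv] at h2
    rw [Commute, SemiconjBy]
    have h3 : π g * π h * (π g)⁻¹ = π h := mul_inv_eq_one.1 h2
    exact mul_inv_eq_iff_eq_mul.1 h3

end Pool.Agent.F2D
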