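import Pool.Agent.Lib.MP_305fdd_al.F2.D.StmB

set_option autoImplicit false

namespace Pool.Agent.F2D

open Pool.Agent.F2 Pool.Agent.F2Ch Pool.Agent.PSL2Z Pool.Agent.PSL2Z.BT
open scoped WithZero

theorem A2_pow {E : Type} [Field E] (w : Valuation E ℤᵐ⁰) (x y : E) (hx : w x = 1) (hy : w y = 1)
    (hxy : w (x - y) < 1) (m : ℤ) : w (x ^ m - y ^ m) < 1 := by
  have hnat : ∀ n : ℕ, w (x ^ n - y ^ n) < 1 := by
    intro n
    induction n with
    | zero => rw [pow_zero, pow_zero, sub_self, map_zero]; exact zero_lt_one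
    | succ n ih =>
      have e : x ^ (n + 1) - y ^ (n + 1) = x ^ n * (x - y) + (x ^ n - y ^ n) * y := by ring
      rw [e]
      refine Valuation.map_add_lt w ?_ ?_
      · rw [map_mul, map_pow, hx, one_pow, one_mul]; exact hxy
      · rw [map_mul, hy, mul_one]; exact ih
  rcases Int.eq_nat_or_neg m with ⟨n, rfl | rfl⟩
  · rw [zpow_natCast, zpow_natCast]; exact hnat n
  · have hx0 : x ≠ 0 := by
      rintro rfl
      rw [map_zero] at hx
      exact zero_ne_one hx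
    have hy0 : y ≠ 0 := by
      rintro rfl
      rw [map_zero] at hy
      exact zero_ne_one hy
    have e : x ^ (-(n : ℤ)) - y ^ (-(n : ℤ)) = (y ^ n - x ^ n) * (x ^ n)⁻¹ * (y ^ n)⁻¹ := by
      rw [zpow_neg, zpow_neg, zpow_natCast, zpow_natCast]
      field_simp
    rw [e, map_mul, map_mul, map_inv₀, map_inv₀, map_pow, map_pow, hx, hy, one_pow, inv_one,
      mul_one, mul_one, Valuation.map_sub_swap]
    exact hnat n

theorem A2_trace {E : Type} [Field E] {w : Valuation E ℤᵐ⁰} (k A : Gw w) :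
    (k⁻¹ * A * k).val.val.trace = A.val.val.trace := by
  have h4 : (k⁻¹ * A * k).val.val = (k⁻¹).val.val * A.val.val * k.val.val := by
    rw [Subgroup.coe_mul, Subgroup.coe_mul, Units.val_mul, Units.val_mul]
  have h5 : k.val.val * (k⁻¹).val.val = 1 := by
    rw [← Units.val_mul, ← Subgroup.coe_mul, mul_inv_cancel]; rfl
  rw [h4, Matrix.trace_mul_comm, ← mul_assoc, h5, one_mul]

theorem A2_det {E : Type} [Field E] {w : Valuation E ℤᵐ⁰} (k A : Gw w) (hA : A.val.val.det = 1) :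
    (k⁻¹ * A * k).val.val.det = 1 := by
  have h4 : (k⁻¹ * A * k).val.val = (k⁻¹).val.val * A.val.val * k.val.val := by
    rw [Subgroup.coe_mul, Subgroup.coe_mul, Units.val_mul, Units.val_mul]
  have h5 : (k⁻¹).val.val * k.val.val = 1 := by
    rw [← Units.val_mul, ← Subgroup.coe_mul, inv_mul_cancel]; rfl
  rw [h4, Matrix.det_mul, Matrix.det_mul, hA, mul_one, ← Matrix.det_mul, h5, Matrix.det_one]

theorem p_A2 (he2 : S_e2) (hco : S_co) (hmi : S_mi) (hle : S_le) (hse : S_se) (hmo : S_mo) :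
    S_A2 := by
  intro Λ K Γ _ _ _ _ _ T v cl hPC hIrr hv hdisc hrk hdep
  have hneg : ∃ g0, v (T g0) < 0 := by
    by_contra hcon
    push Not at hcon
    obtain ⟨g, h, hgh⟩ := hrk
    exact hgh (hdep g h (hcon g) (hcon h))
  obtain ⟨E, _, _, w, γ, ρ, hM⟩ := hse Λ K Γ T v hPC hIrr hv hdisc hneg
  have hw := hM.surj
  obtain ⟨ho1, ho2, ho3, ho4⟩ := hmo Λ K Γ E T v γ w ρ hv hM
  let _ : MulAction Λ (Vert w) := MulAction.compHom (Vert w) ρ
  have hsm : ∀ (l : Λ) (M : Vert w), l • M = ρ l • M := fun _ _ => rfl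
  have hacts : Acts Λ (tree w) := fun g u v' huv => adj_smul hw (ρ g) u v' huv
  obtain ⟨Good, hGood⟩ : ∃ Good : Vert w → Vert w → Prop, ∀ M N, Good M N ↔
      ∃ (k : Gw w) (h n : ℤ) (g : Λ), 1 ≤ n ∧ Cross w (k⁻¹ * ρ g * k) h n ∧
        ((M = k • mkV w h 0 ∧ N = k • mkV w (h + 1) 0) ∨
          (N = k • mkV w h 0 ∧ M = k • mkV w (h + 1) 0)) := ⟨_, fun _ _ => Iff.rfl⟩
  have hGs : ∀ M N, Good M N → Good N M := by
    intro M N h
    rw [hGood] at h ⊢
    obtain ⟨k, h', n, g, h1, h2, h3⟩ := h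
    exact ⟨k, h', n, g, h1, h2, h3.symm⟩
  have hGi : ∀ (l : Λ) (M N : Vert w), Good M N → Good (ρ l • M) (ρ l • N) := by
    intro l M N h
    rw [hGood] at h ⊢
    obtain ⟨k, h', n, g, h1, h2, h3⟩ := h
    refine ⟨ρ l * k, h', n, l * g * l⁻¹, h1, ?_, ?_⟩
    · have e : (ρ l * k)⁻¹ * ρ (l * g * l⁻¹) * (ρ l * k) = k⁻¹ * ρ g * k := by
        rw [map_mul, map_mul, map_inv]
        group
      rw [e]; exact h2
    · rcases h3 with ⟨h3, h4⟩ | ⟨h3, h4⟩
      · left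
        rw [mul_smul, mul_smul, ← h3, ← h4]
        exact ⟨rfl, rfl⟩
      · right
        rw [mul_smul, mul_smul, ← h3, ← h4]
        exact ⟨rfl, rfl⟩
  obtain ⟨D, hD⟩ : ∃ D : Vert w → Vert w → Prop, ∀ M N, D M N ↔ ((tree w).Adj M N ∧ ¬ Good M N) :=
    ⟨_, fun _ _ => Iff.rfl⟩
  have hD1 : ∀ M N, D M N → (tree w).Adj M N := fun M N h => ((hD M N).mp h).1
  have hD2 : ∀ M N, D M N → D N M := by
    intro M N h
    rw [hD] at h ⊢
    exact ⟨h.1.symm, fun h' => h.2 (hGs _ _ h')⟩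
  have hD3 : ∀ (l : Λ) (M N : Vert w), D M N → D (ρ l • M) (ρ l • N) := by
    intro l M N h
    rw [hD] at h ⊢
    refine ⟨adj_smul hw (ρ l) M N h.1, fun h' => h.2 ?_⟩
    have h4 := hGi l⁻¹ _ _ h'
    rwa [map_inv, inv_smul_smul, inv_smul_smul] at h4
  obtain ⟨W, _, Z, q, hZ, hZa, hqs, hqe, hqr, hZe⟩ :=
    hco Λ (Vert w) (tree w) (isTree hw) hacts D hD1 hD2 hD3
  -- vertex stabilisers of Z
  have hval : ∀ (a : W) (l : Λ), l • a = a → 0 ≤ v (T l) := by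
    intro a l hla
    by_contra hcon
    obtain ⟨M0, rfl⟩ := hqs a
    have h1 : ¬ w (algebraMap K E (T l)) ≤ 1 := fun h => hcon ((ho1 _).mpr h)
    have h1' := not_le.mp h1
    have hne : w (algebraMap K E (T l)) ≠ 0 := (zero_lt_one.trans h1').ne'
    obtain ⟨n, hn⟩ : ∃ n : ℤ, w (algebraMap K E (T l)) = WithZero.exp n :=
      ⟨_, (WithZero.exp_log hne).symm⟩
    have hn1 : 1 ≤ n := by
      rw [hn, ← WithZero.exp_zero, WithZero.exp_lt_exp] at h1'
      omega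
    have hRT : Relation.ReflTransGen D M0 (ρ l • M0) := by
      rw [← hqr]
      change q M0 = q (l • M0)
      rw [hqe, hla]
    obtain ⟨k, h, h2, h3⟩ := hmi E w hw (ρ l) n (hM.det l) hn1 (by rw [hM.tr l, hn]) D hD1 hD2
      (hD3 l) M0 hRT
    rw [hD] at h2
    exact h2.2 ((hGood _ _).mpr ⟨k, h, n, l, hn1, h3, Or.inl ⟨rfl, rfl⟩⟩)
  by_cases hE : ∀ a b, Z.Adj a b → ∀ g : Λ, g • a = a → g • b = b → cl g = 1
  · left
    exact he2 Λ W Z hZ hZa cl hrk hE (fun a g h hg hh => hdep g h (hval a g hg) (hval a h hh))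
  right
  push Not at hE
  obtain ⟨a, b, hab, z, hza, hzb, hclz⟩ := hE
  obtain ⟨u, u', huu, hnD, -, -, hfix⟩ := hZe a b hab
  obtain ⟨hzu, hzu'⟩ := hfix z hza hzb
  have hgood : Good u u' := by
    by_contra hcon
    exact hnD ((hD _ _).mpr ⟨huu, hcon⟩)
  rw [hGood] at hgood
  obtain ⟨k, h, n, g, hn1, hcross, hor⟩ := hgood
  have hfix2 : ρ z • k • mkV w h 0 = k • mkV w h 0 ∧
      ρ z • k • mkV w (h + 1) 0 = k • mkV w (h + 1) 0 := by
    rcases hor with ⟨h3, h4⟩ | ⟨h3, h4⟩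
    · rw [← h3, ← h4]; exact ⟨hzu, hzu'⟩
    · rw [← h3, ← h4]; exact ⟨hzu', hzu⟩
  obtain ⟨hl1, hl2, -, hl4⟩ := hle E w hw (k⁻¹ * ρ g * k) (k⁻¹ * ρ z * k) h n hcross
    (by rw [mul_smul, mul_smul, hfix2.1, inv_smul_smul])
    (by rw [mul_smul, mul_smul, hfix2.2, inv_smul_smul]) (A2_det k _ (hM.det z))
  obtain ⟨c, hc⟩ : ∃ c : E, c = ent (k⁻¹ * ρ z * k) 0 0 := ⟨_, rfl⟩
  rw [← hc] at hl1 hl4
  rw [A2_trace, hM.tr] at hl2 hl4
  have hl5 : ∀ m : ℤ, w (algebraMap K E (T (g * z ^ m)) - c ^ m * algebraMap K E (T g)) <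
      WithZero.exp n := by
    intro m
    have e : k⁻¹ * ρ g * k * (k⁻¹ * ρ z * k) ^ m = k⁻¹ * ρ (g * z ^ m) * k := by
      have e2 : (k⁻¹ * ρ z * k) ^ m = k⁻¹ * ρ z ^ m * k := by
        have := conj_zpow (i := m) (a := k⁻¹) (b := ρ z)
        rwa [inv_inv] at this
      rw [e2, map_mul, map_zpow]
      group
    have h6 := hl4 m
    rw [e, A2_trace, hM.tr] at h6
    exact h6
  obtain ⟨ψ, hψ⟩ := hM.dense c 0
  rw [WithZero.exp_zero] at hψ
  have hwψ : w (algebraMap K E ψ) = 1 := by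
    have e : algebraMap K E ψ = c - (c - algebraMap K E ψ) := by ring
    rw [e, Valuation.map_sub_eq_of_lt_left w (by rw [hl1]; exact hψ), hl1]
  have hψ0 : ψ ≠ 0 := by
    rintro rfl
    rw [map_zero, map_zero] at hwψ
    exact zero_ne_one hwψ
  have hTg : T g ≠ 0 := by
    intro h0
    rw [h0, map_zero, map_zero] at hl2
    exact WithZero.exp_ne_zero hl2.symm
  refine ⟨z, g, ψ, ho4 z u hzu, hclz, hψ0, (ho3 ψ hψ0).mpr hwψ, ?_, ?_⟩
  · by_contra hcon
    have h1 := (ho1 _).mp (not_lt.mp hcon)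
    rw [hl2, ← WithZero.exp_zero, WithZero.exp_le_exp] at h1
    omega
  · intro m
    rw [ho2 _ _ hTg, hl2, map_sub, map_mul, map_zpow₀]
    have e : algebraMap K E (T (g * z ^ m)) - algebraMap K E ψ ^ m * algebraMap K E (T g) =
        (algebraMap K E (T (g * z ^ m)) - c ^ m * algebraMap K E (T g)) +
        (c ^ m - algebraMap K E ψ ^ m) * algebraMap K E (T g) := by ring
    rw [e]
    refine Valuation.map_add_lt w (hl5 m) ?_
    rw [map_mul, hl2]
    have h7 := A2_pow w c (algebraMap K E ψ) hl1 hwψ hψ m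
    calc w (c ^ m - algebraMap K E ψ ^ m) * WithZero.exp n < 1 * WithZero.exp n :=
          mul_lt_mul_of_pos_right h7 WithZero.exp_pos
      _ = WithZero.exp n := one_mul _

end Pool.Agent.F2D
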