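import Pool.Agent.Lib.MP_305fdd_al.F2.D.StmB

/-!
# MP_305fdd_al, F_2 project, section D: [F2D A3] Theorem D_blow
-/

set_option autoImplicit false

namespace Pool.Agent.F2D

open Pool.Agent.F2 Pool.Agent.F2Ch Pool.Agent.PSL2Z Pool.Agent.PSL2Z.BT
open scoped WithZero

theorem A3_v1 {K Γ : Type} [Field K] [AddCommGroup Γ] [LinearOrder Γ] [IsOrderedAddMonoid Γ]
    {v : K → Γ} (hv : IsV v) : v 1 = 0 := by
  have h := hv.mul 1 1 one_ne_zero one_ne_zero
  rw [mul_one] at h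
  exact left_eq_add.mp h

theorem A3_le {Γ' : Type} [AddCommGroup Γ'] [LinearOrder Γ'] [IsOrderedAddMonoid Γ'] {δ : Γ'}
    (hδ : 0 < δ) (n : ℤ) : 0 ≤ (-n) • δ ↔ n ≤ 0 := by
  have h := (zsmul_left_strictMono hδ).le_iff_le (a := 0) (b := -n)
  simp only [zero_smul] at h
  rw [h]
  omega

theorem A3_eq {Γ' : Type} [AddCommGroup Γ'] [LinearOrder Γ'] [IsOrderedAddMonoid Γ'] {δ : Γ'}
    (hδ : 0 < δ) (n : ℤ) (h0 : (-n) • δ = 0) : n = 0 := by
  have h := (zsmul_left_strictMono hδ).injective (a₁ := -n) (a₂ := 0) (by simpa using h0)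
  omega

/-- integrality for `V` and for `C ∘ red` -/
theorem A3_fact {K Γ Γ' E κ : Type} [Field K] [AddCommGroup Γ] [LinearOrder Γ]
    [IsOrderedAddMonoid Γ] [AddCommGroup Γ'] [LinearOrder Γ'] [IsOrderedAddMonoid Γ'] [Field E]
    [Field κ] [Algebra K E] {v : K → Γ} {V : K → Γ'} {w : Valuation E ℤᵐ⁰} {red : E → κ}
    {C : Valuation κ ℤᵐ⁰} {δ : Γ'} (hV : IsV V) (hred : IsRed w red) (hδ : 0 < δ)
    (hvV : ∀ f, f ≠ 0 → 0 < v f → 0 < V f)
    (m1 : ∀ f : K, 0 ≤ v f ↔ w (algebraMap K E f) ≤ 1)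
    (m3 : ∀ f : K, f ≠ 0 → (v f = 0 ↔ w (algebraMap K E f) = 1))
    (hC : ∀ f : K, f ≠ 0 → v f = 0 →
        V f = (-(WithZero.log (C (red (algebraMap K E f))))) • δ)
    (f : K) (hf : w (algebraMap K E f) ≤ 1) (h1 : C (red (algebraMap K E f)) ≤ 1) : 0 ≤ V f := by
  rcases lt_or_eq_of_le hf with h | h
  · by_cases hf0 : f = 0
    · rw [hf0, hV.zero]
    · have h1 : 0 ≤ v f := (m1 f).2 hf
      have h2 : v f ≠ 0 := fun hc => by
        rw [(m3 f hf0).1 hc] at h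
        exact lt_irrefl _ h
      exact (hvV f hf0 (lt_of_le_of_ne h1 h2.symm)).le
  · have hf0 : f ≠ 0 := by
      rintro rfl
      rw [map_zero, map_zero] at h
      exact zero_ne_one h
    have h2 : red (algebraMap K E f) ≠ 0 := fun hc => by
      have := (hred.zero _ hf).1 hc
      rw [h] at this
      exact lt_irrefl _ this
    have h3 : C (red (algebraMap K E f)) ≠ 0 := (Valuation.ne_zero_iff C).2 h2
    rw [hC f hf0 ((m3 f hf0).2 h), A3_le hδ, WithZero.log_le_iff_le_exp h3, WithZero.exp_zero]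
    exact h1

/-- the residual eigenvalue is a unit for `C` -/
theorem A3_unit {Λ K Γ Γ' E κ : Type} [Group Λ] [Field K] [AddCommGroup Γ] [LinearOrder Γ]
    [IsOrderedAddMonoid Γ] [AddCommGroup Γ'] [LinearOrder Γ'] [IsOrderedAddMonoid Γ'] [Field E]
    [Field κ] [Algebra K E] {T : Λ → K} {v : K → Γ} {V : K → Γ'} {w : Valuation E ℤᵐ⁰}
    {red : E → κ} {C : Valuation κ ℤᵐ⁰} {δ : Γ'} (hv : IsV v) (hred : IsRed w red)
    (hδ : 0 < δ)
    (hψ : ∀ l ψ, 0 ≤ v (T l) → ψ ≠ 0 → v ψ = 0 → Gt v 0 (ψ + ψ⁻¹ - T l) → V ψ = 0)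
    (m2 : ∀ f g : K, g ≠ 0 → (Gt v (v g) f ↔ w (algebraMap K E f) < w (algebraMap K E g)))
    (m3 : ∀ f : K, f ≠ 0 → (v f = 0 ↔ w (algebraMap K E f) = 1))
    (hC : ∀ f : K, f ≠ 0 → v f = 0 →
        V f = (-(WithZero.log (C (red (algebraMap K E f))))) • δ)
    (dense : ∀ (x : E) (n : ℤ), ∃ a : K, w (x - algebraMap K E a) < WithZero.exp n)
    (l : Λ) (hl : 0 ≤ v (T l)) (c : E) (hc : w c = 1)
    (ht : w (c + c⁻¹ - algebraMap K E (T l)) < 1) : C (red c) = 1 := by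
  obtain ⟨ψ, hψc⟩ := dense c 0
  rw [WithZero.exp_zero] at hψc
  have hwψ : w (algebraMap K E ψ) = 1 := by
    have h1 : algebraMap K E ψ = c - (c - algebraMap K E ψ) := by ring
    have h2 : w (c - algebraMap K E ψ) < w c := by rw [hc]; exact hψc
    rw [h1, Valuation.map_sub_eq_of_lt_left w h2, hc]
  have hψ0 : ψ ≠ 0 := by
    rintro rfl
    rw [map_zero, map_zero] at hwψ
    exact zero_ne_one hwψ
  have hψE : algebraMap K E ψ ≠ 0 := by
    intro h
    rw [h, map_zero] at hwψ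
    exact zero_ne_one hwψ
  have hc0 : c ≠ 0 := by
    rintro rfl
    rw [map_zero] at hc
    exact zero_ne_one hc
  have hvψ : v ψ = 0 := (m3 ψ hψ0).2 hwψ
  have h1 : Gt v 0 (ψ + ψ⁻¹ - T l) := by
    have h2 := (m2 (ψ + ψ⁻¹ - T l) 1 one_ne_zero)
    rw [A3_v1 hv, map_one, map_one] at h2
    rw [h2]
    have h3 : algebraMap K E (ψ + ψ⁻¹ - T l) = (c + c⁻¹ - algebraMap K E (T l)) +
        ((c - algebraMap K E ψ) * (c⁻¹ * (algebraMap K E ψ)⁻¹) - (c - algebraMap K E ψ)) := by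
      rw [map_sub, map_add, map_inv₀]
      field_simp
      ring
    rw [h3]
    refine Valuation.map_add_lt w ht (Valuation.map_sub_lt w ?_ hψc)
    rw [map_mul, map_mul, map_inv₀, map_inv₀, hc, hwψ, inv_one, mul_one, mul_one]
    exact hψc
  have h2 := hψ l ψ hl hψ0 hvψ h1
  rw [hC ψ hψ0 hvψ] at h2
  have h3 := A3_eq hδ _ h2
  have h4 : red c = red (algebraMap K E ψ) := by
    have h5 := hred.add (algebraMap K E ψ) (c - algebraMap K E ψ) hwψ.le hψc.le
    rw [(hred.zero _ hψc.le).2 hψc, add_zero] at h5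
    rw [← h5]
    congr 1
    ring
  have h6 : red (algebraMap K E ψ) ≠ 0 := fun h => by
    have := (hred.zero _ hwψ.le).1 h
    rw [hwψ] at this
    exact lt_irrefl _ this
  have h7 : C (red (algebraMap K E ψ)) ≠ 0 := (Valuation.ne_zero_iff C).2 h6
  rw [h4, ← WithZero.exp_log h7, h3, WithZero.exp_zero]

theorem A3_conj {Λ K : Type} [Group Λ] [Field K] {T : Λ → K} (hPC : PC T) (s g : Λ) :
    T (s * g * s⁻¹) = T g := by
  rw [hPC.comm, inv_mul_cancel_left]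

theorem p_A3 (hhe : S_he) (hbu : S_bu) (hcy : S_cy) (hse : S_se) (hmo : S_mo) (hva : S_va)
    (hvb : S_vb) (hvc : S_vc) (hA1 : S_A1) : S_A3 := by
  intro Λ K Γ Γ' M _ _ _ _ _ _ _ _ _ T v V cl π hPC hIrr hv hV hDv hRk hvV hDV hπ hdep hψ hkill
  by_cases hcase : ∀ f, f ≠ 0 → v f = 0 → V f = 0
  · refine hA1 Λ K Γ M T v cl π hPC hIrr hv hDv hRk hπ fun l hl hcl => ?_
    refine (hkill l ?_ hl hcl).1
    by_cases h0 : T l = 0
    · rw [h0, hV.zero]
    · rcases hl.lt_or_eq with h | h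
      · exact (hvV _ h0 h).le
      · rw [hcase _ h0 h.symm]
  push Not at hcase
  obtain ⟨f1, hf1, hf2, hf3⟩ := hcase
  have hneg : ∃ g0, v (T g0) < 0 := by
    by_contra hc
    push Not at hc
    obtain ⟨g, h, hgh⟩ := hRk
    exact hgh (hdep g h (hc g) (hc h))
  obtain ⟨E, _, _, w, γ, ρ, hM⟩ := hse Λ K Γ T v hPC hIrr hv hDv hneg
  obtain ⟨κ, _, red, C, δ, hred, hCs, hδ, hC⟩ :=
    hva Λ K Γ Γ' E T v V γ w ρ hv hV hM hvV hDV ⟨f1, hf1, hf2, hf3⟩
  obtain ⟨m1, m2, m3, m4⟩ := hmo Λ K Γ E T v γ w ρ hv hM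
  have hfact := A3_fact hV hred hδ hvV m1 m3 hC
  choose r hr1 hr2 hr3 using hvb E κ w red C hM.surj hred
  letI act : MulAction Λ (Vert w) := MulAction.compHom (Vert w) ρ
  have hact : ∀ (g : Λ) (N : Vert w), g • N = ρ g • N := fun _ _ => rfl
  -- elements fixing a vertex of the residual tree
  have hint : ∀ (N : Vert w) (l : Λ) (x : Vert C), ρ l • N = N → r N (ρ l) • x = x →
      0 ≤ V (T l) := by
    intro N l x hN hx
    refine hfact (T l) ((m1 _).1 (m4 l N hN)) ?_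
    have h1 := trace_le hCs (r N (ρ l)) x hx
    rw [hr2 N (ρ l) hN (hM.det l), hM.tr] at h1
    exact h1
  have hbl := hbu Λ (Vert w) (Gw C) (Vert C) (tree w) (tree C) (isTree hM.surj)
    (fun g N N' h => adj_smul hM.surj (ρ g) N N' h) (isTree hCs)
    (fun g N N' h => adj_smul hCs g N N' h) (fun N l => r N (ρ l))
    (fun N g h hg hh => by
      change r N (ρ (g * h)) = _
      rw [map_mul]
      exact hr1 N _ _ hg hh (hM.det g) (hM.det h)) ?_
  · obtain ⟨W, _, Z, hZ, hZa, hW⟩ := hbl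
    refine hhe Λ W M Z hZ hZa cl hRk π hπ fun z g hg hcl => ?_
    obtain ⟨N, l, s, x, h1, h2, h3⟩ := hW z g hg
    have h4 : T l = T g := by rw [h3]; exact A3_conj hPC s g
    have h5 : 0 ≤ v (T l) := m4 l N h1
    have h6 : 0 ≤ V (T l) := hint N l x h1 h2
    rw [h4] at h5 h6
    exact (hkill g h6 h5 hcl).1
  · -- the fixed points
    intro N N' hadj
    obtain ⟨ξ, hξ0, hξ⟩ := hr3 N N' hadj
    let L : Subgroup Λ := MulAction.stabilizer Λ N ⊓ MulAction.stabilizer Λ N'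
    have hL1 : ∀ l ∈ L, ρ l • N = N := fun l hl => hl.1
    have hL2 : ∀ l ∈ L, ρ l • N' = N' := fun l hl => hl.2
    have hfix : ∀ l ∈ L, ∃ x : Vert C, r N (ρ l) • x = x := by
      intro l hl
      obtain ⟨c, hc1, hc2, hc3⟩ := hξ (ρ l) (hL1 l hl) (hL2 l hl) (hM.det l)
      rw [hM.tr] at hc2
      exact hvc κ C hCs (r N (ρ l)) ξ (red c) hξ0
        (A3_unit hv hred hδ hψ m2 m3 hC hM.dense l (m4 l N (hL1 l hl)) c hc1 hc2) hc3
    have hone : ∀ l ∈ L, cl l = 1 → ρ l = 1 := by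
      intro l hl hcl
      obtain ⟨x, hx⟩ := hfix l hl
      have h1 := (hkill l (hint N l x (hL1 l hl) hx) (m4 l N (hL1 l hl)) hcl).2
      have h2 : (ρ l).val.val - 1 = 0 := by
        refine hM.span _ fun h => ?_
        rw [sub_mul, one_mul, Matrix.trace_sub, hM.tr]
        have h3 : (ρ l).val.val * (ρ h).val.val = (ρ (l * h)).val.val := by
          rw [map_mul, Subgroup.coe_mul, Units.val_mul]
        rw [h3, hM.tr, h1, sub_self]
      apply Subtype.ext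
      apply Units.ext
      change (ρ l).val.val = 1
      exact sub_eq_zero.1 h2
    obtain ⟨z', hz', hgen⟩ := hcy (L.map cl) (by
      rintro a ⟨l, hl, rfl⟩ b ⟨l', hl', rfl⟩
      exact hdep l l' (m4 l N (hL1 l hl)) (m4 l' N (hL1 l' hl')))
    obtain ⟨z, hzL, hz⟩ := hz'
    obtain ⟨x, hx⟩ := hfix z hzL
    refine ⟨x, fun l hlN hlN' => ?_⟩
    have hl : l ∈ L := ⟨hlN, hlN'⟩
    obtain ⟨n, hn⟩ := hgen (cl l) ⟨l, hl, rfl⟩
    have h1 : ρ (l * z ^ (-n)) = 1 := by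
      refine hone _ (L.mul_mem hl (L.zpow_mem hzL _)) ?_
      rw [map_mul, map_zpow, hn, hz, ← zpow_add, add_neg_cancel, zpow_zero]
    have h2 : ρ l = ρ (z ^ n) := by
      rw [map_mul, zpow_neg, map_inv, mul_inv_eq_one] at h1
      exact h1
    let φ : MulAction.stabilizer Λ N →* Gw C := MonoidHom.mk' (fun g => r N (ρ g)) (by
      intro a b
      change r N (ρ (a.1 * b.1)) = _
      rw [map_mul]
      exact hr1 N _ _ a.2 b.2 (hM.det _) (hM.det _))
    have h3 : r N (ρ (z ^ n)) = (r N (ρ z)) ^ n := by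
      have := map_zpow φ ⟨z, hzL.1⟩ n
      exact this
    change r N (ρ l) • x = x
    rw [h2, h3]
    exact (MulAction.stabilizer (Gw C) x).zpow_mem hx n

end Pool.Agent.F2D
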