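import Pool.Agent.Lib.MP_305fdd_al.F2.D.StmT

/-!
# MP_305fdd_al, F_2 project, section D: piece bu (the blow-up lemma)
-/

set_option autoImplicit false

namespace Pool.Agent.F2D

open Pool.Agent.F2 Pool.Agent.F2Ch Pool.Agent.PSL2Z Pool.Agent.PSL2Z.BT
open scoped WithZero

private theorem bu_rep (Λ V : Type) [Group Λ] [MulAction Λ V] :
    ∃ (rep : V → V) (s : V → Λ), (∀ (g : Λ) v, rep (g • v) = rep v) ∧ ∀ v, s v • rep v = v := by
  have h1 : ∀ v : V, ∃ g : Λ, g • Quotient.out (Quotient.mk (MulAction.orbitRel Λ V) v) = v := by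
    intro v
    have h2 : (MulAction.orbitRel Λ V) (Quotient.out (Quotient.mk (MulAction.orbitRel Λ V) v)) v :=
      Quotient.mk_out v
    rw [MulAction.orbitRel_apply] at h2
    obtain ⟨g, hg⟩ := h2
    exact ⟨g⁻¹, by rw [← hg]; exact inv_smul_smul g v⟩
  choose s hs using h1
  refine ⟨fun v => Quotient.out (Quotient.mk (MulAction.orbitRel Λ V) v), s, fun g v => ?_, hs⟩
  have h2 : (Quotient.mk (MulAction.orbitRel Λ V) (g • v)) =
      (Quotient.mk (MulAction.orbitRel Λ V) v) := by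
    apply Quotient.sound
    exact MulAction.orbitRel_apply.2 ⟨g, rfl⟩
  show Quotient.out (Quotient.mk (MulAction.orbitRel Λ V) (g • v)) = _
  rw [h2]

section main

variable {Λ V G P : Type} [Group Λ] [MulAction Λ V] [Group G] [MulAction G P]
  (rep : V → V) (s : V → Λ) (r : V → Λ → G)

/-- the cocycle -/
private def bu_c (g : Λ) (v : V) : Λ := (s (g • v))⁻¹ * g * s v

/-- the action on `V × P` -/
private def bu_act (g : Λ) (w : V × P) : V × P := (g • w.1, r (rep w.1) (bu_c s g w.1) • w.2)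

variable (hrep : ∀ (g : Λ) v, rep (g • v) = rep v) (hs : ∀ v, s v • rep v = v)
  (hr : ∀ v g h, g • v = v → h • v = v → r v (g * h) = r v g * r v h)

include hrep hs in
private theorem bu_c_fix (g : Λ) (v : V) : bu_c s g v • rep v = rep v := by
  unfold bu_c
  rw [mul_smul, mul_smul, hs v, inv_smul_eq_iff]
  have h2 := hs (g • v)
  rw [hrep] at h2
  exact h2.symm

private theorem bu_c_one (v : V) : bu_c s (1 : Λ) v = 1 := by
  unfold bu_c
  rw [one_smul, mul_one, inv_mul_cancel]

private theorem bu_c_mul (g h : Λ) (v : V) : bu_c s (g * h) v = bu_c s g (h • v) * bu_c s h v := by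
  unfold bu_c
  rw [mul_smul]
  group

include hr in
private theorem bu_r_one (v : V) : r v 1 = 1 := by
  have h := hr v 1 1 (one_smul _ _) (one_smul _ _)
  rw [mul_one] at h
  exact (mul_eq_left.1 h.symm)

include hr in
private theorem bu_act_one (w : V × P) : bu_act rep s r (1 : Λ) w = w := by
  unfold bu_act
  rw [bu_c_one, bu_r_one r hr, one_smul, one_smul]

include hrep hs hr in
private theorem bu_act_mul (g h : Λ) (w : V × P) :
    bu_act rep s r (g * h) w = bu_act rep s r g (bu_act rep s r h w) := by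
  have h1 := bu_c_fix rep s hrep hs g (h • w.1)
  rw [hrep] at h1
  have h2 := bu_c_fix rep s hrep hs h w.1
  have h3 := hr _ _ _ h1 h2
  show ((g * h) • w.1, r (rep w.1) (bu_c s (g * h) w.1) • w.2) =
    (g • h • w.1, r (rep (h • w.1)) (bu_c s g (h • w.1)) • r (rep w.1) (bu_c s h w.1) • w.2)
  rw [bu_c_mul, h3, mul_smul, mul_smul, hrep]

/-- the attaching points -/
private theorem bu_x (X : SimpleGraph V) (hA : Acts Λ X) (hs : ∀ v, s v • rep v = v) [Nonempty P]
    (hx : ∀ u v, X.Adj u v → ∃ x : P, ∀ g : Λ, g • u = u → g • v = v → r u g • x = x)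
    (d : V × V) : ∃ x : P, X.Adj d.1 d.2 → ∀ k : Λ, k • d = d →
      bu_act rep s r k (d.1, x) = (d.1, x) := by
  obtain ⟨u, v⟩ := d
  by_cases h : X.Adj u v
  · have h1 : X.Adj (rep u) ((s u)⁻¹ • v) := by
      have h2 := hA (s u)⁻¹ u v h
      have h3 : (s u)⁻¹ • u = rep u := by rw [inv_smul_eq_iff, hs]
      rwa [h3] at h2
    obtain ⟨x, hx⟩ := hx _ _ h1
    refine ⟨x, fun _ k hk => ?_⟩
    have hk1 : k • u = u := congrArg Prod.fst hk
    have hk2 : k • v = v := congrArg Prod.snd hk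
    show (k • u, r (rep u) (bu_c s k u) • x) = (u, x)
    have h4 : r (rep u) (bu_c s k u) • x = x := by
      apply hx
      · unfold bu_c
        rw [mul_smul, mul_smul, hs, hk1, inv_smul_eq_iff, hs]
      · unfold bu_c
        rw [mul_smul, mul_smul, smul_inv_smul, hk1, hk2]
    rw [h4, hk1]
  · exact ⟨Classical.arbitrary P, fun h' => absurd h' h⟩

include hrep hs hr in
private theorem bu_a (X : SimpleGraph V) (hA : Acts Λ X) [Nonempty P]
    (hx : ∀ u v, X.Adj u v → ∃ x : P, ∀ g : Λ, g • u = u → g • v = v → r u g • x = x) :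
    ∃ a : V → V → P, ∀ (g : Λ) u v, X.Adj u v →
      bu_act rep s r g (u, a u v) = (g • u, a (g • u) (g • v)) := by
  obtain ⟨rep2, s2, hrep2, hs2⟩ := bu_rep Λ (V × V)
  choose x hx using bu_x rep s r X hA hs hx
  have key : ∀ u v, bu_act rep s r (s2 (u, v)) ((rep2 (u, v)).1, x (rep2 (u, v))) =
      (u, (bu_act rep s r (s2 (u, v)) ((rep2 (u, v)).1, x (rep2 (u, v)))).2) := fun u v => by
    refine Prod.ext ?_ rfl
    show s2 (u, v) • (rep2 (u, v)).1 = u
    exact congrArg Prod.fst (hs2 (u, v))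
  refine ⟨fun u v => (bu_act rep s r (s2 (u, v)) ((rep2 (u, v)).1, x (rep2 (u, v)))).2,
    fun g u v h => ?_⟩
  have k1 := key u v
  have k2 := key (g • u) (g • v)
  rw [← k1, ← k2]
  have e1 : rep2 (g • u, g • v) = rep2 (u, v) := hrep2 g (u, v)
  rw [e1, ← bu_act_mul rep s r hrep hs hr]
  have h1 : X.Adj (rep2 (u, v)).1 (rep2 (u, v)).2 := by
    have h2 := hA (s2 (u, v))⁻¹ u v h
    have h3 : (s2 (u, v))⁻¹ • (u, v) = rep2 (u, v) := by rw [inv_smul_eq_iff, hs2]
    rw [← h3]
    exact h2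
  have h4 : ((s2 (g • u, g • v))⁻¹ * (g * s2 (u, v))) • rep2 (u, v) = rep2 (u, v) := by
    rw [mul_smul, mul_smul, hs2, inv_smul_eq_iff]
    have h5 := hs2 (g • u, g • v)
    rw [e1] at h5
    exact h5.symm
  have h6 := hx _ h1 _ h4
  have h7 := congrArg (bu_act rep s r (s2 (g • u, g • v))) h6
  rw [← bu_act_mul rep s r hrep hs hr, mul_inv_cancel_left] at h7
  exact h7

end main

theorem p_bu (ht6 : S_t6) : S_bu := by
  intro Λ V G P _ _ _ _ X Y hX hA hY hB r hr hx
  obtain ⟨rep, s, hrep, hs⟩ := bu_rep Λ V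
  have hP : Nonempty P := hY.connected.nonempty
  obtain ⟨a, ha⟩ := bu_a rep s r hrep hs hr X hA hx
  let inst : MulAction Λ (V × P) :=
    { smul := bu_act rep s r
      one_smul := bu_act_one rep s r hr
      mul_smul := bu_act_mul rep s r hrep hs hr }
  refine ⟨V × P, inst, blow X Y a, ht6 V P X Y a hX hY, ?_, ?_⟩
  · rintro g ⟨u, x⟩ ⟨v, y⟩ (⟨h1, h2⟩ | ⟨h1, h2, h3⟩)
    · change u = v at h1
      change Y.Adj x y at h2
      subst h1
      exact Or.inl ⟨rfl, hB _ _ _ h2⟩
    · change X.Adj u v at h1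
      change x = a u v at h2
      change y = a v u at h3
      subst h2 h3
      have e1 := ha g u v h1
      have e2 := ha g v u h1.symm
      show (blow X Y a).Adj (bu_act rep s r g (u, a u v)) (bu_act rep s r g (v, a v u))
      rw [e1, e2]
      exact Or.inr ⟨hA g u v h1, rfl, rfl⟩
  · rintro ⟨v, x⟩ g h
    change (g • v, r (rep v) (bu_c s g v) • x) = (v, x) at h
    have h1 : g • v = v := congrArg Prod.fst h
    have h2 : r (rep v) (bu_c s g v) • x = x := congrArg Prod.snd h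
    refine ⟨rep v, bu_c s g v, (s v)⁻¹, x, bu_c_fix rep s hrep hs g v, h2, ?_⟩
    unfold bu_c
    rw [h1, inv_inv]

end Pool.Agent.F2D
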