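import Pool.Agent.Lib.MP_305fdd_al.F2.D.StmT

set_option autoImplicit false

namespace Pool.Agent.F2D

open Pool.Agent.F2 Pool.Agent.F2Ch Pool.Agent.PSL2Z Pool.Agent.PSL2Z.BT
open scoped WithZero

/-- no edge of `D` crosses a cut of another edge -/
theorem co_sat {V : Type} {X : SimpleGraph V} {D : V → V → Prop} (hDX : ∀ u v, D u v → X.Adj u v)
    (hDs : ∀ u v, D u v → D v u) {u v : V} (hD : ¬ D u v) {S : Set V} (hS : Cut X S u v)
    {a b : V} (h : Relation.ReflTransGen D a b) : a ∈ S ↔ b ∈ S := by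
  induction h with
  | refl => rfl
  | @tail b c _ hbc ih =>
    rw [ih]
    constructor
    · intro hb
      by_contra hc
      obtain ⟨h1, h2⟩ := hS.2.2 c b (hDX _ _ (hDs _ _ hbc)) hc hb
      subst h1 h2
      exact hD (hDs _ _ hbc)
    · intro hc
      by_contra hb
      obtain ⟨h1, h2⟩ := hS.2.2 b c (hDX _ _ hbc) hb hc
      subst h1 h2
      exact hD hbc

/-- the equivalence relation generated by `D` -/
def co_setoid {V : Type} (D : V → V → Prop) (hDs : ∀ u v, D u v → D v u) : Setoid V where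
  r := Relation.ReflTransGen D
  iseqv :=
    { refl := fun _ => Relation.ReflTransGen.refl
      symm := fun h => by
        induction h with
        | refl => exact Relation.ReflTransGen.refl
        | tail _ hbc ih => exact Relation.ReflTransGen.head (hDs _ _ hbc) ih
      trans := fun h h' => h.trans h' }

theorem co_smul {Λ V : Type} [Group Λ] [MulAction Λ V] {D : V → V → Prop}
    (hDg : ∀ (g : Λ) (u v : V), D u v → D (g • u) (g • v)) (g : Λ) {a b : V}
    (h : Relation.ReflTransGen D a b) : Relation.ReflTransGen D (g • a) (g • b) := by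
  induction h with
  | refl => exact Relation.ReflTransGen.refl
  | tail _ hbc ih => exact ih.tail (hDg g _ _ hbc)

/-- [F2D co] -/
theorem p_co (ht1 : S_t1) (ht2 : S_t2) : S_co := by
  intro Λ V _ _ X hX hact D hDX hDs hDg
  let r : Setoid V := co_setoid D hDs
  let q : V → Quotient r := Quotient.mk r
  have hq : ∀ u v, q u = q v ↔ Relation.ReflTransGen D u v := fun u v =>
    ⟨fun h => Quotient.exact h, fun h => Quotient.sound h⟩
  let act : MulAction Λ (Quotient r) :=
    { smul := fun g => Quotient.map (fun v => g • v) fun a b h => co_smul hDg g h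
      one_smul := fun x => by
        induction x using Quotient.inductionOn with
        | h v => exact congrArg q (one_smul Λ v)
      mul_smul := fun g h x => by
        induction x using Quotient.inductionOn with
        | h v => exact congrArg q (mul_smul g h v) }
  have hqg : ∀ (g : Λ) (v : V), q (g • v) = g • q v := fun g v => rfl
  have hcut : ∀ u v, X.Adj u v → ¬ D u v → ∀ S : Set V, Cut X S u v → ∀ a b, q a = q b →
      (a ∈ S ↔ b ∈ S) := fun u v _ hD S hS a b hab => co_sat hDX hDs hD hS ((hq a b).mp hab)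
  let Z : SimpleGraph (Quotient r) :=
    { Adj := fun a b => ∃ u v, X.Adj u v ∧ ¬ D u v ∧ q u = a ∧ q v = b
      symm := ⟨fun a b ⟨u, v, h1, h2, h3, h4⟩ =>
        ⟨v, u, h1.symm, fun h => h2 (hDs _ _ h), h4, h3⟩⟩
      loopless := ⟨fun a ⟨u, v, h1, h2, h3, h4⟩ => by
        obtain ⟨S, hS⟩ := ht2 V X hX u v h1
        have := (hcut u v h1 h2 S hS u v (h3.trans h4.symm))
        exact hS.1 (this.mpr hS.2.1)⟩ }
  have hZ : ∀ a b, Z.Adj a b ↔ ∃ u v, X.Adj u v ∧ ¬ D u v ∧ q u = a ∧ q v = b :=
    fun a b => Iff.rfl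
  have hreach : ∀ {u v : V}, X.Walk u v → Z.Reachable (q u) (q v) := by
    intro u v p
    induction p with
    | nil => exact SimpleGraph.Reachable.refl _
    | @cons u v w h p ih =>
      by_cases hD : D u v
      · have : q u = q v := (hq u v).mpr (Relation.ReflTransGen.single hD)
        rw [this]
        exact ih
      · have h1 : Z.Adj (q u) (q v) := ⟨u, v, h, hD, rfl, rfl⟩
        exact h1.reachable.trans ih
  have hconn : Z.Connected := by
    haveI := hX.connected.nonempty
    haveI : Nonempty (Quotient r) := ⟨q (Classical.arbitrary V)⟩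
    refine ⟨fun a b => ?_⟩
    induction a using Quotient.inductionOn with
    | h u =>
      induction b using Quotient.inductionOn with
      | h v =>
        obtain ⟨p⟩ := hX.connected.preconnected u v
        exact hreach p
  refine ⟨Quotient r, act, Z, q, ?_, ?_, Quotient.mk_surjective, hqg, hq, ?_⟩
  · refine ht1 _ Z hconn ?_
    rintro a b ⟨u, v, h1, h2, rfl, rfl⟩
    obtain ⟨S, hS⟩ := ht2 V X hX u v h1
    refine ⟨{x | ∃ y ∈ S, q y = x}, ?_, ⟨v, hS.2.1, rfl⟩, ?_⟩
    · rintro ⟨y, hy, hyu⟩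
      exact hS.1 ((hcut u v h1 h2 S hS y u hyu).mp hy)
    · rintro c d ⟨u', v', h1', h2', rfl, rfl⟩ hc hd
      have hu' : u' ∉ S := fun h => hc ⟨u', h, rfl⟩
      have hv' : v' ∈ S := by
        obtain ⟨y, hy, hyv⟩ := hd
        exact (hcut u v h1 h2 S hS y v' hyv).mp hy
      obtain ⟨rfl, rfl⟩ := hS.2.2 u' v' h1' hu' hv'
      exact ⟨rfl, rfl⟩
  · rintro g a b ⟨u, v, h1, h2, rfl, rfl⟩
    refine ⟨g • u, g • v, hact g u v h1, fun h => h2 ?_, rfl, rfl⟩
    have := hDg g⁻¹ _ _ h
    simpa using this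
  · rintro a b ⟨u, v, h1, h2, rfl, rfl⟩
    refine ⟨u, v, h1, h2, rfl, rfl, fun g hga hgb => ?_⟩
    obtain ⟨S, hS⟩ := ht2 V X hX u v h1
    have hu : g • u ∉ S := fun h => hS.1 ((hcut u v h1 h2 S hS (g • u) u hga).mp h)
    have hv : g • v ∈ S := (hcut u v h1 h2 S hS (g • v) v hgb).mpr hS.2.1
    exact hS.2.2 _ _ (hact g u v h1) hu hv

end Pool.Agent.F2D
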