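import Pool.Agent.Lib.MP_305fdd_al.F2.D.StmB

/-!
# Proof of `S_cp` (completion)
-/

set_option autoImplicit false

namespace Pool.Agent.F2D

open Pool.Agent.F2 Pool.Agent.F2Ch Pool.Agent.PSL2Z Pool.Agent.PSL2Z.BT
open scoped WithZero Topology

section

variable {E : Type} [Field E] [hv : Valued E ℤᵐ⁰]

private theorem cp_ball (hs : Function.Surjective (Valued.v : Valuation E ℤᵐ⁰)) (x : E) (n : ℤ) :
    {z : E | Valued.v (z - x) < WithZero.exp n} ∈ 𝓝 x := by
  obtain ⟨r, hr⟩ := hs (WithZero.exp n)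
  rw [Valued.mem_nhds]
  have h' : (Valued.v : Valuation E ℤᵐ⁰).restrict r ≠ 0 := by
    simp only [ne_eq, map_eq_zero]
    rintro rfl
    rw [map_zero] at hr
    exact WithZero.exp_ne_zero hr.symm
  refine ⟨Units.mk0 _ h', fun z hz => ?_⟩
  rw [← hr]
  exact (Valued.v : Valuation E ℤᵐ⁰).restrict_lt_iff.mp hz

private theorem cp_seq (x : ℕ → E)
    (h : ∀ n : ℕ, Valued.v (x (n + 1) - x n) ≤ (WithZero.exp (-(n : ℤ)) : ℤᵐ⁰)) (n m : ℕ)
    (hnm : n ≤ m) : Valued.v (x m - x n) ≤ (WithZero.exp (-(n : ℤ)) : ℤᵐ⁰) := by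
  induction m, hnm using Nat.le_induction with
  | base => simp
  | succ m hm ih =>
    have e : x (m + 1) - x n = (x (m + 1) - x m) + (x m - x n) := by ring
    rw [e]
    refine (Valuation.map_add_le _ ((h m).trans ?_) ih)
    rw [WithZero.exp_le_exp]
    omega

private theorem cp_cauchy (x : ℕ → E)
    (h : ∀ n : ℕ, Valued.v (x (n + 1) - x n) ≤ (WithZero.exp (-(n : ℤ)) : ℤᵐ⁰)) : CauchySeq x := by
  rw [(Valued.hasBasis_uniformity E ℤᵐ⁰).cauchySeq_iff]
  intro γ _
  have h0 : MonoidWithZeroHom.ValueGroup₀.embedding γ.1 ≠ (0 : ℤᵐ⁰) := by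
    simp
  obtain ⟨k, hk⟩ : ∃ k : ℤ, WithZero.exp k = (MonoidWithZeroHom.ValueGroup₀.embedding γ.1 : ℤᵐ⁰) :=
    ⟨_, WithZero.exp_log h0⟩
  refine ⟨(1 - k).toNat, fun m hm n hn => ?_⟩
  simp only [Set.mem_ofPred_eq]
  rw [Valuation.restrict_lt_iff_lt_embedding, ← hk]
  have key : ∀ m n : ℕ, (1 - k).toNat ≤ n → n ≤ m →
      Valued.v (x m - x n) < (WithZero.exp k : ℤᵐ⁰) := by
    intro m n hn hnm
    refine (cp_seq x h n m hnm).trans_lt ?_
    rw [WithZero.exp_lt_exp]
    omega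
  rcases le_total m n with hmn | hmn
  · exact key n m hm hmn
  · have := key m n hn hmn
    rwa [← Valuation.map_neg, neg_sub] at this

end

theorem p_cp : S_cp := by
  intro K _ w0 hw0
  let _ : Valued K ℤᵐ⁰ := Valued.mk' w0
  have hv0 : (Valued.v : Valuation K ℤᵐ⁰) = w0 := rfl
  have hs : Function.Surjective (Valued.v : Valuation (UniformSpace.Completion K) ℤᵐ⁰) :=
    Valued.valuedCompletion_surjective_iff.2 hw0
  refine ⟨UniformSpace.Completion K, inferInstance, inferInstance, Valued.v, ?_, ?_, ?_⟩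
  · intro a
    exact Valued.valuedCompletion_apply a
  · intro x n
    obtain ⟨a, ha⟩ := (UniformSpace.Completion.denseRange_coe (α := K)).mem_nhds (cp_ball hs x n)
    refine ⟨a, ?_⟩
    rw [← Valuation.map_neg, neg_sub]
    exact ha
  · intro x hx
    obtain ⟨y, hy⟩ := cauchySeq_tendsto_of_complete (cp_cauchy x hx)
    refine ⟨y, fun n => ?_⟩
    have h1 := (hy.eventually (cp_ball hs y (-(n : ℤ)))).and (Filter.eventually_ge_atTop n)
    obtain ⟨m, hm1, hm2⟩ := h1.exists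
    have e : y - x n = -(x m - y) + (x m - x n) := by ring
    rw [e]
    refine Valuation.map_add_le _ ?_ (cp_seq x hx n m hm2)
    rw [Valuation.map_neg]
    exact le_of_lt hm1

end Pool.Agent.F2D
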