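import Pool.Agent.Lib.MP_305fdd_al.F2.D.StmB

/-!
# MP_305fdd_al, F_2 project, section D: piece [F2D ct] (helper35)
-/

set_option autoImplicit false

namespace Pool.Agent.F2D

open Pool.Agent.F2 Pool.Agent.F2Ch Pool.Agent.PSL2Z Pool.Agent.PSL2Z.BT
open scoped WithZero

theorem p_ct : S_ct := by
  intro E _ w hw h
  refine ⟨?_, ?_, ?_⟩
  · intro hu
    exact hu ⟨0, rfl⟩
  · rintro ⟨n, hn⟩
    rw [iterate_up_mkV hw, mkV_eq_iff hw] at hn
    omega
  · intro a b hab ha hb
    have ha' : ∃ n : ℕ, up^[n] a = mkV w h 0 := by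
      by_contra hc
      exact ha hc
    obtain ⟨n, hn⟩ := ha'
    rcases adj_cases hw a b hab with hc | hc
    · rcases n with _ | n
      · have ea : a = mkV w h 0 := hn
        refine ⟨ea, ?_⟩
        rw [hc, ea, up_mkV hw]
      · exfalso
        apply hb
        refine ⟨n, ?_⟩
        rw [hc, ← hn, Function.iterate_succ_apply]
    · exfalso
      apply hb
      refine ⟨n + 1, ?_⟩
      rw [Function.iterate_succ_apply, ← hc, hn]

end Pool.Agent.F2D
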