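import Pool.Agent.Lib.MP_305fdd_al.F2.D.StmT

set_option autoImplicit false

namespace Pool.Agent.F2D

open Pool.Agent.F2 Pool.Agent.F2Ch Pool.Agent.PSL2Z Pool.Agent.PSL2Z.BT
open scoped WithZero

private def cy_beta (p q : ℤ) : Multiplicative (ℤ × ℤ) →* Multiplicative ℤ where
  toFun x := Multiplicative.ofAdd (p * x.toAdd.1 + q * x.toAdd.2)
  map_one' := by simp
  map_mul' x y := by
    rw [← ofAdd_add]
    congr 1
    simp only [toAdd_mul, Prod.fst_add, Prod.snd_add]
    ring

theorem p_cy : S_cy := by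
  intro H hH
  by_cases h0 : ∃ h ∈ H, h ≠ 1
  · obtain ⟨h, hh, hne⟩ := h0
    obtain ⟨p, hp⟩ : ∃ p, p = h.toAdd.1 := ⟨_, rfl⟩
    obtain ⟨q, hq⟩ : ∃ q, q = h.toAdd.2 := ⟨_, rfl⟩
    have hpq : 0 < p * p + q * q := by
      by_contra hcon
      have h1 : p = 0 := by nlinarith [mul_self_nonneg p, mul_self_nonneg q]
      have h2 : q = 0 := by nlinarith [mul_self_nonneg p, mul_self_nonneg q]
      apply hne
      apply Multiplicative.toAdd.injective
      rw [toAdd_one]
      exact Prod.ext (by rw [← hp, h1]; rfl) (by rw [← hq, h2]; rfl)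
    have hinj : ∀ u ∈ H, cy_beta p q u = 1 → u = 1 := by
      intro u hu hb
      have h1 : p * u.toAdd.1 + q * u.toAdd.2 = 0 := by
        exact congrArg Multiplicative.toAdd hb
      have h2 : u.toAdd.1 * q = u.toAdd.2 * p := by
        have h3 := hH u hu h hh
        rw [Dpd, ← hp, ← hq] at h3
        exact h3
      have h4 : (p * p + q * q) * u.toAdd.1 = 0 := by linear_combination p * h1 + q * h2
      have h5 : (p * p + q * q) * u.toAdd.2 = 0 := by linear_combination q * h1 - p * h2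
      apply Multiplicative.toAdd.injective
      rw [toAdd_one]
      exact Prod.ext ((mul_eq_zero.mp h4).resolve_left hpq.ne')
        ((mul_eq_zero.mp h5).resolve_left hpq.ne')
    obtain ⟨⟨g, hg⟩, hgen⟩ := IsCyclic.exists_generator (α := (H.map (cy_beta p q)))
    obtain ⟨z, hz, rfl⟩ := Subgroup.mem_map.mp hg
    refine ⟨z, hz, fun x hx => ?_⟩
    obtain ⟨n, hn⟩ := Subgroup.mem_zpowers_iff.mp
      (hgen ⟨cy_beta p q x, Subgroup.mem_map_of_mem _ hx⟩)
    have hn' : (cy_beta p q z) ^ n = cy_beta p q x := congrArg Subtype.val hn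
    refine ⟨n, ?_⟩
    have h6 := hinj (x * (z ^ n)⁻¹) (H.mul_mem hx (H.inv_mem (H.zpow_mem hz n)))
      (by rw [map_mul, map_inv, map_zpow, hn', mul_inv_cancel])
    exact mul_inv_eq_one.mp h6
  · push Not at h0
    exact ⟨1, H.one_mem, fun x hx => ⟨0, by rw [h0 x hx, one_zpow]⟩⟩

end Pool.Agent.F2D
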