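import Pool.Agent.Lib.MP_305fdd_al.F2.D.StmB

set_option autoImplicit false

namespace Pool.Agent.F2D

open Pool.Agent.F2 Pool.Agent.F2Ch Pool.Agent.PSL2Z Pool.Agent.PSL2Z.BT
open scoped WithZero

/-- elements of the group with a given matrix -/
private theorem da_mk {E : Type} [Field E] (w : Valuation E ℤᵐ⁰) (m : Matrix (Fin 2) (Fin 2) E)
    (hm : m.det = 1) : ∃ k : Gw w, k.val.val = m := by
  have hu : IsUnit m.det := by rw [hm]; exact isUnit_one
  refine ⟨⟨Matrix.GeneralLinearGroup.mk'' m hu, ?_⟩, rfl⟩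
  change w m.det = 1
  rw [hm, map_one]

private theorem da_smul {E : Type} [Field E] {w : Valuation E ℤᵐ⁰} (k : Gw w) (M N : Vert w)
    (h : ∀ u : Fin 2 → E, u ∈ M.1 ↔ k.val.val.mulVec u ∈ N.1) : k • M = N := by
  apply Subtype.ext
  ext v
  obtain ⟨u, rfl⟩ : ∃ u, v = k.val.val.mulVec u := by
    refine ⟨(k⁻¹).val.val.mulVec v, ?_⟩
    have := inv_mulVec k⁻¹ v
    rw [inv_inv] at this
    exact this.symm
  rw [mulVec_mem]
  exact h u

private theorem da_trans {E : Type} [Field E] (w : Valuation E ℤᵐ⁰) (y : E) :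
    ∃ k : Gw w, ∀ h : ℤ, k • mkV w h 0 = mkV w h y := by
  obtain ⟨k, hk⟩ := da_mk w !![1, y; 0, 1] (by rw [Matrix.det_fin_two_of]; ring)
  refine ⟨k, fun h => da_smul k _ _ fun u => ?_⟩
  change u ∈ S w _ _ _ ↔ k.val.val.mulVec u ∈ S w _ _ _
  rw [mem_S, mem_S, hk]
  simp only [Matrix.mulVec, dotProduct, Fin.sum_univ_two, Matrix.of_apply, Matrix.cons_val',
    Matrix.cons_val_zero, Matrix.cons_val_one, Matrix.cons_val_fin_one]
  rw [show (1 : E) * u 0 + y * u 1 - y * (0 * u 0 + 1 * u 1) = u 0 - 0 * u 1 by ring,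
    show (0 : E) * u 0 + 1 * u 1 = u 1 by ring]

private theorem da_flip {E : Type} [Field E] (w : Valuation E ℤᵐ⁰) :
    ∃ k : Gw w, ∀ h : ℤ, k • mkV w h 0 = mkV w (-h) 0 := by
  obtain ⟨k, hk⟩ := da_mk w !![0, 1; -1, 0] (by rw [Matrix.det_fin_two_of]; ring)
  refine ⟨k, fun h => da_smul k _ _ fun u => ?_⟩
  change u ∈ S w _ _ _ ↔ k.val.val.mulVec u ∈ S w _ _ _
  rw [mem_S, mem_S, hk]
  simp only [Matrix.mulVec, dotProduct, Fin.sum_univ_two, Matrix.of_apply, Matrix.cons_val',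
    Matrix.cons_val_zero, Matrix.cons_val_one, Matrix.cons_val_fin_one]
  rw [show (0 : E) * u 0 + 1 * u 1 - 0 * (-1 * u 0 + 0 * u 1) = u 1 by ring,
    show (-1 : E) * u 0 + 0 * u 1 = -u 0 by ring, show u 0 - 0 * u 1 = u 0 by ring,
    Valuation.map_neg, show (-h + 1) / 2 = -(h / 2) by omega,
    show -(-h / 2) = (h + 1) / 2 by omega]
  exact and_comm

theorem p_da : S_da := by
  intro E _ w hw M N hMN
  rcases adj_cases hw M N hMN with h1 | h1
  · obtain ⟨k, hk⟩ := da_trans w (pos M)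
    refine ⟨k, ht M, ?_, ?_⟩
    · rw [hk, ← eq_mkV]
    · rw [hk, ← up_mkV hw, ← eq_mkV, h1]
  · obtain ⟨k, hk⟩ := da_trans w (pos N)
    obtain ⟨j, hj⟩ := da_flip w
    refine ⟨k * j, -ht N - 1, ?_, ?_⟩
    · rw [mul_smul, hj, show -(-ht N - 1) = ht N + 1 by ring, hk, ← up_mkV hw, ← eq_mkV, h1]
    · rw [mul_smul, hj, show -(-ht N - 1 + 1) = ht N by ring, hk, ← eq_mkV]

end Pool.Agent.F2D
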