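import Pool.Agent.Lib.MP_305fdd_al.F2.D.StmT

/-!
# MP_305fdd_al, F_2 project, section D: piece e1
-/

set_option autoImplicit false

namespace Pool.Agent.F2D

open Pool.Agent.F2 Pool.Agent.F2Ch Pool.Agent.PSL2Z Pool.Agent.PSL2Z.BT
open scoped WithZero

private theorem e1_rep (Λ V : Type) [Group Λ] [MulAction Λ V] :
    ∃ (rep : V → V) (s : V → Λ), (∀ (g : Λ) v, rep (g • v) = rep v) ∧ ∀ v, s v • rep v = v := by
  have h1 : ∀ v : V, ∃ g : Λ, g • Quotient.out (Quotient.mk (MulAction.orbitRel Λ V) v) = v := by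
    intro v
    have h2 : (MulAction.orbitRel Λ V) (Quotient.out (Quotient.mk (MulAction.orbitRel Λ V) v)) v :=
      Quotient.mk_out v
    rw [MulAction.orbitRel_apply] at h2
    obtain ⟨g, hg⟩ := h2
    exact ⟨g⁻¹, by rw [← hg]; exact inv_smul_smul g v⟩
  choose s hs using h1
  refine ⟨fun v => Quotient.out (Quotient.mk (MulAction.orbitRel Λ V) v), s, fun g v => ?_, hs⟩
  have h2 : (Quotient.mk (MulAction.orbitRel Λ V) (g • v)) =
      (Quotient.mk (MulAction.orbitRel Λ V) v) := by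
    apply Quotient.sound
    exact MulAction.orbitRel_apply.2 ⟨g, rfl⟩
  show Quotient.out (Quotient.mk (MulAction.orbitRel Λ V) (g • v)) = _
  rw [h2]

/-- a function with the same values on adjacent vertices is constant -/
private theorem e1_const {V α : Type} {X : SimpleGraph V} (hX : X.Connected) (f : V → α)
    (h : ∀ u v, X.Adj u v → f u = f v) (u v : V) : f u = f v := by
  obtain ⟨q⟩ := hX.preconnected u v
  induction q with
  | nil => rfl
  | cons h' _ ih => exact (h _ _ h').trans ih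

/-- the equivariant function -/
private theorem e1_f (Λ V : Type) [Group Λ] [MulAction Λ V]
    (cl : Λ →* Multiplicative (ℤ × ℤ)) (h0 : ∀ (g : Λ) (v : V), g • v = v → cl g = 1) :
    ∃ f : V → Multiplicative (ℤ × ℤ), ∀ (g : Λ) v, f (g • v) = cl g * f v := by
  obtain ⟨rep, s, hrep, hs⟩ := e1_rep Λ V
  refine ⟨fun v => cl (s v), fun g v => ?_⟩
  have h1 : ((s (g • v))⁻¹ * g * s v) • rep v = rep v := by
    rw [mul_smul, mul_smul, hs v, inv_smul_eq_iff]
    have h2 := hs (g • v)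
    rw [hrep] at h2
    exact h2.symm
  have h2 := h0 _ _ h1
  rw [map_mul, map_mul, map_inv, mul_assoc, inv_mul_eq_one] at h2
  exact h2

theorem p_e1 (ht3 : S_t3) (ht4 : S_t4) : S_e1 := by
  intro Λ V _ _ X hX hA cl hcl h0
  obtain ⟨f, hf⟩ := e1_f Λ V cl h0
  obtain ⟨rep, s, hrep, hs⟩ := e1_rep Λ (V × V)
  let c : V → V → FreeGroup (V × V) := fun u v =>
    FreeGroup.of (rep (u, v)) * (FreeGroup.of (rep (v, u)))⁻¹
  have hcs : ∀ u v, c v u = (c u v)⁻¹ := fun u v => by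
    show FreeGroup.of (rep (v, u)) * (FreeGroup.of (rep (u, v)))⁻¹ =
      (FreeGroup.of (rep (u, v)) * (FreeGroup.of (rep (v, u)))⁻¹)⁻¹
    rw [mul_inv_rev, inv_inv]
  have hcg : ∀ (g : Λ) u v, c (g • u) (g • v) = c u v := fun g u v => by
    show FreeGroup.of (rep (g • (u, v))) * (FreeGroup.of (rep (g • (v, u))))⁻¹ = _
    rw [hrep, hrep]
  obtain ⟨P, hP⟩ := ht3 V (FreeGroup (V × V)) X hX c fun u v _ => hcs u v
  have hstep : ∀ (g : Λ) u v, P (g • u) * (P u)⁻¹ = P (g • v) * (P v)⁻¹ := fun g =>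
    e1_const hX.connected (fun u => P (g • u) * (P u)⁻¹) fun u v h => by
      show P (g • u) * (P u)⁻¹ = P (g • v) * (P v)⁻¹
      rw [hP u v h, hP (g • u) (g • v) (hA g u v h), hcg, mul_inv_rev, mul_assoc,
        mul_inv_cancel_left]
  obtain ⟨v0⟩ := hX.connected.nonempty
  let φ : Λ →* FreeGroup (V × V) := MonoidHom.mk' (fun g => P (g • v0) * (P v0)⁻¹) fun g h => by
    show P ((g * h) • v0) * (P v0)⁻¹ = P (g • v0) * (P v0)⁻¹ * (P (h • v0) * (P v0)⁻¹)
    rw [hstep g v0 (h • v0), mul_smul, mul_assoc (P (g • h • v0)), inv_mul_cancel_left]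
  let χ : FreeGroup (V × V) →* Multiplicative (ℤ × ℤ) := FreeGroup.lift fun d => f d.2 / f d.1
  have hχo : ∀ u v, χ (FreeGroup.of (rep (u, v))) = f v / f u := fun u v => by
    show FreeGroup.lift (fun d : V × V => f d.2 / f d.1) (FreeGroup.of (rep (u, v))) = _
    rw [FreeGroup.lift_apply_of]
    have h1 := hs (u, v)
    have h2 : s (u, v) • (rep (u, v)).1 = u := congrArg Prod.fst h1
    have h3 : s (u, v) • (rep (u, v)).2 = v := congrArg Prod.snd h1
    have h4 := hf (s (u, v)) (rep (u, v)).1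
    have h5 := hf (s (u, v)) (rep (u, v)).2
    rw [h2] at h4
    rw [h3] at h5
    rw [h4, h5, mul_div_mul_left_eq_div]
  have hχc : ∀ u v, χ (c u v) = (f v) ^ 2 / (f u) ^ 2 := fun u v => by
    show χ (FreeGroup.of (rep (u, v)) * (FreeGroup.of (rep (v, u)))⁻¹) = _
    rw [map_mul, map_inv, hχo, hχo, inv_div, ← div_pow, sq]
  have hconst : ∀ u v, χ (P u) / (f u) ^ 2 = χ (P v) / (f v) ^ 2 :=
    e1_const hX.connected (fun u => χ (P u) / (f u) ^ 2) fun u v h => by
      show χ (P u) / (f u) ^ 2 = χ (P v) / (f v) ^ 2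
      rw [hP u v h, map_mul, hχc, mul_div_assoc, div_div_cancel_left, ← div_eq_mul_inv]
  have hφ : ∀ g, χ (φ g) = (cl g) ^ 2 := fun g => by
    show χ (P (g • v0) * (P v0)⁻¹) = _
    have h1 := hconst (g • v0) v0
    rw [hf, mul_pow] at h1
    rw [map_mul, map_inv, ← div_eq_mul_inv]
    rw [div_eq_div_iff_mul_eq_mul] at h1
    rw [div_eq_iff_eq_mul]
    have h2 : χ (P (g • v0)) * f v0 ^ 2 = (cl g ^ 2 * χ (P v0)) * f v0 ^ 2 := by
      rw [h1]
      exact mul_comm _ _ |>.trans (by rw [mul_assoc, mul_assoc, mul_comm (f v0 ^ 2)])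
    exact mul_right_cancel h2
  obtain ⟨g, h, hgh⟩ := hcl
  refine ht4 Λ (V × V) φ χ g h ?_
  rw [hφ, hφ]
  intro h1
  apply hgh
  unfold Dpd at h1 ⊢
  rw [toAdd_pow, toAdd_pow] at h1
  simp only [nsmul_eq_mul, Nat.cast_ofNat] at h1
  have h2 : (2 * (cl g).toAdd.1) * (2 * (cl h).toAdd.2) = (2 * (cl g).toAdd.2) * (2 * (cl h).toAdd.1) :=
    h1
  linarith

end Pool.Agent.F2D
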