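import Pool.Agent.Lib.MP_305fdd_al.F2.D.StmT

/-!
# MP_305fdd_al, F_2 project, section D: piece [F2D e2]
-/

set_option autoImplicit false

namespace Pool.Agent.F2D

open Pool.Agent.F2 Pool.Agent.F2Ch Pool.Agent.PSL2Z Pool.Agent.PSL2Z.BT
open scoped WithZero

private lemma e2_inj (p q x y : ℤ) (h0 : ¬ (p = 0 ∧ q = 0)) (h1 : p * y = q * x)
    (h2 : p * x + q * y = 0) : x = 0 ∧ y = 0 := by
  have hpos : 0 < p ^ 2 + q ^ 2 := by
    by_cases hp : p = 0
    · have hq : q ≠ 0 := fun hq => h0 ⟨hp, hq⟩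
      positivity
    · positivity
  have ex : (p ^ 2 + q ^ 2) * x = 0 := by linear_combination p * h2 - q * h1
  have ey : (p ^ 2 + q ^ 2) * y = 0 := by linear_combination q * h2 + p * h1
  exact ⟨(mul_eq_zero.1 ex).resolve_left hpos.ne', (mul_eq_zero.1 ey).resolve_left hpos.ne'⟩

private lemma e2_hom {Λ V : Type} [Group Λ] [MulAction Λ V] (cl : Λ →* Multiplicative (ℤ × ℤ))
    (hd : ∀ (v : V) (g h : Λ), g • v = v → h • v = v → Dpd (cl g) (cl h)) (v : V) :
    ∃ a : Multiplicative (ℤ × ℤ) →* Multiplicative ℤ, ∀ l : Λ, l • v = v → a (cl l) = 1 → cl l = 1 := by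
  by_cases h : ∀ l : Λ, l • v = v → cl l = 1
  · exact ⟨1, fun l hl _ => h l hl⟩
  · push Not at h
    obtain ⟨g0, hg0, hne⟩ := h
    refine ⟨MonoidHom.mk' (fun x => Multiplicative.ofAdd
      ((cl g0).toAdd.1 * x.toAdd.1 + (cl g0).toAdd.2 * x.toAdd.2)) ?_, ?_⟩
    · intro x y
      rw [← ofAdd_add]
      simp only [toAdd_mul, Prod.fst_add, Prod.snd_add]
      congr 1
      ring
    · intro l hl h1
      have h2 : (cl g0).toAdd.1 * (cl l).toAdd.1 + (cl g0).toAdd.2 * (cl l).toAdd.2 = 0 := by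
        have h3 : Multiplicative.ofAdd
          ((cl g0).toAdd.1 * (cl l).toAdd.1 + (cl g0).toAdd.2 * (cl l).toAdd.2) = 1 := h1
        exact ofAdd_eq_one.1 h3
      have h4 := hd v g0 l hg0 hl
      have h0 : ¬ ((cl g0).toAdd.1 = 0 ∧ (cl g0).toAdd.2 = 0) := by
        rintro ⟨ha, hb⟩
        apply hne
        have : (cl g0).toAdd = 0 := Prod.ext ha hb
        exact toAdd_eq_zero.1 this
      obtain ⟨ea, eb⟩ := e2_inj _ _ _ _ h0 h4 h2
      have : (cl l).toAdd = 0 := Prod.ext ea eb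
      exact toAdd_eq_zero.1 this

theorem p_e2 (he1 : S_e1) (hbu : S_bu) (hli : S_li) : S_e2 := by
  intro Λ V _ _ X hX hA cl hrk hedge hd
  choose a ha using e2_hom (V := V) cl hd
  obtain ⟨W, _, Z, hZ, hAZ, hst⟩ := hbu Λ V (Multiplicative ℤ) (Multiplicative ℤ) X line hX hA hli.1 hli.2
    (fun v g => a v (cl g)) (fun v g h _ _ => by simp only [map_mul]) (by
      intro u v huv
      refine ⟨1, fun g hu hv => ?_⟩
      rw [hedge u v huv g hu hv, map_one, one_smul])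
  refine he1 Λ W Z hZ hAZ cl hrk ?_
  intro g z hz
  obtain ⟨v, l, s, x, hlv, hx, hl⟩ := hst z g hz
  have h1 : a v (cl l) = 1 := by
    have h2 : a v (cl l) * x = x := hx
    exact mul_eq_right.1 h2
  have h3 := ha v l hlv h1
  have h4 : cl l = cl g := by
    rw [hl, map_mul, map_mul, map_inv, mul_comm (cl s), mul_assoc, mul_inv_cancel, mul_one]
  rw [← h4, h3]

end Pool.Agent.F2D
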