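import Pool.Agent.Lib.MP_305fdd_al.F2.D.StmB

/-!
# MP_305fdd_al, F_2, section D: [F2D fx]
-/

set_option autoImplicit false

namespace Pool.Agent.F2D

open Pool.Agent.F2 Pool.Agent.F2Ch Pool.Agent.PSL2Z Pool.Agent.PSL2Z.BT
open scoped WithZero

section
variable {E : Type} [Field E] {w : Valuation E ℤᵐ⁰}

private theorem fx_le {t x : E} {m n k : ℤ} (hx : w x = WithZero.exp n)
    (h : w (t * x) ≤ WithZero.exp m) (hk : m - n = k) : w t ≤ WithZero.exp k := by
  rw [← hk, WithZero.exp_sub, le_div_iff₀ WithZero.exp_pos, ← hx, ← map_mul]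
  exact h

private theorem fx_mul {t x : E} {m n k : ℤ} (ht : w t ≤ WithZero.exp m)
    (hx : w x ≤ WithZero.exp n) (hk : m + n = k) : w (t * x) ≤ WithZero.exp k := by
  rw [← hk, WithZero.exp_add, map_mul]
  exact mul_le_mul' ht hx

private theorem fx_key (C : Gw w) (h : ℤ) (hC : Bd w C h 0) (v : Fin 2 → E)
    (hv : v ∈ S w ((h + 1) / 2) (-(h / 2)) 0) :
    C.val.val.mulVec v ∈ S w ((h + 1) / 2) (-(h / 2)) 0 := by
  obtain ⟨h1, h2, h3, h4⟩ := hC
  unfold ent at h1 h2 h3 h4
  rw [mem_S] at hv ⊢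
  obtain ⟨h5, h6⟩ := hv
  rw [zero_mul, sub_zero] at h5
  simp only [Matrix.mulVec, dotProduct, Fin.sum_univ_two, zero_mul, sub_zero]
  exact ⟨Valuation.map_add_le w (fx_mul h1 h5 (by omega)) (fx_mul h2 h6 (by omega)),
    Valuation.map_add_le w (fx_mul h3 h5 (by omega)) (fx_mul h4 h6 (by omega))⟩

private theorem fx_inv (B : Gw w) (h : ℤ) (hB : Bd w B h 0) : Bd w B⁻¹ h 0 := by
  have hdet : w B.val.val.det = 1 := det_Gw B
  have hd : ∀ t : E, w (Ring.inverse B.val.val.det * t) = w t := by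
    intro t
    rw [Ring.inverse_eq_inv', map_mul, map_inv₀, hdet, inv_one, one_mul]
  have e : ∀ i j, ent B⁻¹ i j = Ring.inverse B.val.val.det * B.val.val.adjugate i j := by
    intro i j
    unfold ent
    rw [Subgroup.coe_inv, Matrix.coe_units_inv, Matrix.inv_def, Matrix.smul_apply, smul_eq_mul]
  obtain ⟨h1, h2, h3, h4⟩ := hB
  unfold ent at h1 h2 h3 h4
  unfold Bd
  rw [e, e, e, e, hd, hd, hd, hd, Matrix.adjugate_fin_two]
  simp only [Matrix.of_apply, Matrix.cons_val_zero, Matrix.cons_val_one, Matrix.cons_val',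
    Matrix.cons_val_fin_one, Valuation.map_neg]
  exact ⟨h4, h2, h3, h1⟩

end

theorem p_fx : S_fx := by
  intro E _ w hw B h
  constructor
  · intro hB
    have key : ∀ v ∈ S w ((h + 1) / 2) (-(h / 2)) (0 : E),
        B.val.val.mulVec v ∈ S w ((h + 1) / 2) (-(h / 2)) (0 : E) := by
      intro v hv
      have h1 := (mulVec_mem (g := B) (M := mkV w h 0)).2 hv
      rw [hB] at h1
      exact h1
    obtain ⟨x, hx⟩ := hw (WithZero.exp ((h + 1) / 2))
    obtain ⟨z, hz⟩ := hw (WithZero.exp (-(h / 2)))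
    obtain ⟨h1, h2⟩ := key ![x, 0] (by simp [mem_S, hx])
    obtain ⟨h3, h4⟩ := key ![0, z] (by simp [mem_S, hz])
    simp only [Matrix.mulVec, dotProduct, Fin.sum_univ_two, Matrix.cons_val_zero,
      Matrix.cons_val_one, mul_zero, add_zero, zero_add, zero_mul, sub_zero] at h1 h2 h3 h4
    exact ⟨fx_le hx h1 (by omega), fx_le hz h3 (by omega), fx_le hx h2 (by omega),
      fx_le hz h4 (by omega)⟩
  · intro hB
    apply Subtype.ext
    ext v
    rw [mem_smul]
    constructor
    · intro hv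
      have h1 := fx_key B h hB _ hv
      have h2 := inv_mulVec B⁻¹ v
      rw [inv_inv] at h2
      rw [h2] at h1
      exact h1
    · intro hv
      exact fx_key B⁻¹ h (fx_inv B h hB) v hv

end Pool.Agent.F2D
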