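import Pool.Agent.Lib.MP_305fdd_al.F2.D.StmT

/-!
# MP_305fdd_al, F_2 project, section D: piece [F2D he], the Heisenberg lemma
-/

set_option autoImplicit false

namespace Pool.Agent.F2D

open Pool.Agent.F2 Pool.Agent.F2Ch Pool.Agent.PSL2Z Pool.Agent.PSL2Z.BT
open scoped WithZero

private theorem he_symm {a b : Multiplicative (ℤ × ℤ)} (h : Dpd a b) : Dpd b a := by
  unfold Dpd at h ⊢
  linarith

private theorem he_ne {b : Multiplicative (ℤ × ℤ)} (hb : b ≠ 1) :
    b.toAdd.1 ≠ 0 ∨ b.toAdd.2 ≠ 0 := by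
  by_contra h
  push Not at h
  apply hb
  have h1 : b.toAdd = 0 := Prod.ext h.1 h.2
  exact Multiplicative.toAdd.injective (by rw [h1, toAdd_one])

private theorem he_trans {a b c : Multiplicative (ℤ × ℤ)} (hb : b ≠ 1) (h1 : Dpd a b)
    (h2 : Dpd b c) : Dpd a c := by
  unfold Dpd at h1 h2 ⊢
  rcases he_ne hb with h | h
  · apply mul_left_cancel₀ h
    linear_combination a.toAdd.1 * h2 + c.toAdd.1 * h1
  · apply mul_left_cancel₀ h
    linear_combination a.toAdd.2 * h2 + c.toAdd.2 * h1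

private theorem he_fst (a : Multiplicative (ℤ × ℤ)) (m : ℤ) :
    (a ^ m).toAdd.1 = m * a.toAdd.1 := by
  rw [toAdd_zpow, Prod.smul_fst, smul_eq_mul]

private theorem he_snd (a : Multiplicative (ℤ × ℤ)) (m : ℤ) :
    (a ^ m).toAdd.2 = m * a.toAdd.2 := by
  rw [toAdd_zpow, Prod.smul_snd, smul_eq_mul]

private theorem he_pow {a b : Multiplicative (ℤ × ℤ)} {m : ℤ} (hm : m ≠ 0) (h : Dpd (a ^ m) b) :
    Dpd a b := by
  unfold Dpd at h ⊢
  rw [he_fst, he_snd] at h
  apply mul_left_cancel₀ hm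
  linarith

private theorem he_ext {a b : Multiplicative (ℤ × ℤ)} (h1 : a.toAdd.1 = b.toAdd.1)
    (h2 : a.toAdd.2 = b.toAdd.2) : a = b :=
  Multiplicative.toAdd.injective (Prod.ext h1 h2)

private theorem he_common {a b : Multiplicative (ℤ × ℤ)} (ha : a ≠ 1) (hb : b ≠ 1)
    (h : Dpd a b) : ∃ m n : ℤ, m ≠ 0 ∧ n ≠ 0 ∧ a ^ m = b ^ n := by
  unfold Dpd at h
  by_cases h1 : a.toAdd.1 = 0
  · have h2 : a.toAdd.2 ≠ 0 := by
      rcases he_ne ha with h' | h'
      · exact absurd h1 h'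
      · exact h'
    have h3 : b.toAdd.1 = 0 := by
      rw [h1, zero_mul] at h
      exact (mul_eq_zero.mp h.symm).resolve_left h2
    have h4 : b.toAdd.2 ≠ 0 := by
      rcases he_ne hb with h' | h'
      · exact absurd h3 h'
      · exact h'
    refine ⟨b.toAdd.2, a.toAdd.2, h4, h2, he_ext ?_ ?_⟩
    · rw [he_fst, he_fst, h1, h3]
      ring
    · rw [he_snd, he_snd]
      ring
  · have h3 : b.toAdd.1 ≠ 0 := by
      intro h3
      rw [h3, mul_zero] at h
      have h5 : b.toAdd.2 = 0 := (mul_eq_zero.mp h).resolve_left h1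
      rcases he_ne hb with h' | h'
      · exact h' h3
      · exact h' h5
    refine ⟨b.toAdd.1, a.toAdd.1, h3, h1, he_ext ?_ ?_⟩
    · rw [he_fst, he_fst]
      ring
    · rw [he_snd, he_snd]
      linarith

private theorem he_inj {a : Multiplicative (ℤ × ℤ)} (ha : a ≠ 1) {m n : ℤ} (h : a ^ m = a ^ n) :
    m = n := by
  have h1 : m * a.toAdd.1 = n * a.toAdd.1 := by rw [← he_fst, ← he_fst, h]
  have h2 : m * a.toAdd.2 = n * a.toAdd.2 := by rw [← he_snd, ← he_snd, h]
  rcases he_ne ha with h' | h'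
  · exact mul_right_cancel₀ h' h1
  · exact mul_right_cancel₀ h' h2

private theorem he_zpow_smul {Λ V : Type} [Group Λ] [MulAction Λ V] {g : Λ} {v : V}
    (h : g • v = v) (m : ℤ) : g ^ m • v = v := by
  have h1 : g ∈ MulAction.stabilizer Λ v := h
  exact (MulAction.stabilizer Λ v).zpow_mem h1 m

private theorem he_inv_smul {Λ V : Type} [Group Λ] [MulAction Λ V] {g : Λ} {v : V}
    (h : g • v = v) : g⁻¹ • v = v := by
  have h1 : g ∈ MulAction.stabilizer Λ v := h
  exact (MulAction.stabilizer Λ v).inv_mem h1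

/-- nonzero powers of `π x` and `π y` agree -/
private def heSim {Λ M : Type} [Group Λ] [Group M] (π : Λ →* M) (x y : Λ) : Prop :=
  ∃ m n : ℤ, m ≠ 0 ∧ n ≠ 0 ∧ π x ^ m = π y ^ n

private theorem he_sim_trans {Λ M : Type} [Group Λ] [Group M] {π : Λ →* M} {x y z : Λ}
    (h1 : heSim π x y) (h2 : heSim π y z) : heSim π x z := by
  obtain ⟨m, n, hm, hn, h⟩ := h1
  obtain ⟨m', n', hm', hn', h'⟩ := h2
  refine ⟨m * m', n' * n, mul_ne_zero hm hm', mul_ne_zero hn' hn, ?_⟩
  rw [zpow_mul, h, ← zpow_mul, mul_comm n m', zpow_mul, h', ← zpow_mul]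

theorem p_he (he2 : S_e2) (hco : S_co) : S_he := by
  intro Λ V M _ _ _ X hX hA cl hcl π hπ hv
  classical
  -- (0)
  have h0 : ∀ k : Λ, π k = 1 → cl k = 1 := by
    intro k hk
    by_contra hne
    obtain ⟨g, h, hgh⟩ := hcl
    have h1 : ∀ h : Λ, Dpd (cl k) (cl h) := by
      intro h
      apply hπ
      rw [hk]
      exact Commute.one_left _
    exact hgh (he_trans hne (he_symm (h1 g)) (h1 h))
  -- (1)
  have h1 : ∀ (v : V) (g h : Λ), g • v = v → h • v = v → Dpd (cl g) (cl h) := by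
    intro v g h hg hh
    apply hπ
    have hfix : (g * h * g⁻¹ * h⁻¹) • v = v := by
      rw [mul_smul, mul_smul, mul_smul, he_inv_smul hh, he_inv_smul hg, hh, hg]
    have hcl1 : cl (g * h * g⁻¹ * h⁻¹) = 1 := by
      rw [map_mul, map_mul, map_mul, map_inv, map_inv, mul_comm (cl g) (cl h)]
      group
    have h2 := hv v _ hfix hcl1
    rw [map_mul, map_mul, map_mul, map_inv, map_inv, mul_inv_eq_one, mul_inv_eq_iff_eq_mul] at h2
    exact h2
  -- `~` at a common vertex
  have s1 : ∀ (w : V) (x y : Λ), x • w = w → y • w = w → cl x ≠ 1 → cl y ≠ 1 → heSim π x y := by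
    intro w x y hx hy hcx hcy
    obtain ⟨m, n, hm, hn, hmn⟩ := he_common hcx hcy (h1 w x y hx hy)
    refine ⟨m, n, hm, hn, ?_⟩
    have hfix : (x ^ m * (y ^ n)⁻¹) • w = w := by
      rw [mul_smul, he_inv_smul (he_zpow_smul hy n), he_zpow_smul hx m]
    have hc : cl (x ^ m * (y ^ n)⁻¹) = 1 := by
      rw [map_mul, map_inv, map_zpow, map_zpow, hmn, mul_inv_cancel]
    have h2 := hv w _ hfix hc
    rw [map_mul, map_inv, mul_inv_eq_one, map_zpow, map_zpow] at h2
    exact h2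
  -- (2)
  obtain ⟨W, iW, Z, q, hZ, hZA, hqs, hqe, hq, hadj⟩ := hco Λ V X hX hA
    (fun u v => X.Adj u v ∧ ∃ g : Λ, g • u = u ∧ g • v = v ∧ cl g ≠ 1) (fun u v h => h.1)
    (fun u v h => ⟨h.1.symm, by
      obtain ⟨g, hg1, hg2, hg3⟩ := h.2
      exact ⟨g, hg2, hg1, hg3⟩⟩)
    (fun k u v h => ⟨hA k u v h.1, by
      obtain ⟨g, hg1, hg2, hg3⟩ := h.2
      refine ⟨k * g * k⁻¹, ?_, ?_, ?_⟩
      · rw [mul_smul, mul_smul, inv_smul_smul, hg1]
      · rw [mul_smul, mul_smul, inv_smul_smul, hg2]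
      · rw [map_mul, map_mul, map_inv, mul_comm (cl k), mul_inv_cancel_right]
        exact hg3⟩)
  refine he2 Λ W Z hZ hZA cl hcl ?_ ?_
  · intro a b hab g hga hgb
    obtain ⟨u, v, hadj1, hnD, -, -, hfix⟩ := hadj a b hab
    obtain ⟨hgu, hgv⟩ := hfix g hga hgb
    by_contra hne
    exact hnD ⟨hadj1, g, hgu, hgv, hne⟩
  · -- (3)
    intro a g h hga hha
    obtain ⟨v, rfl⟩ := hqs a
    have hrt : ∀ k : Λ, k • q v = q v → Relation.ReflTransGen
        (fun u v => X.Adj u v ∧ ∃ g : Λ, g • u = u ∧ g • v = v ∧ cl g ≠ 1) v (k • v) := by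
      intro k hk
      rw [← hq, hqe, hk]
    by_cases hex : ∃ u, X.Adj v u ∧ ∃ g : Λ, g • v = v ∧ g • u = u ∧ cl g ≠ 1
    · obtain ⟨u, hu, x0, hx0v, hx0u, hx0⟩ := hex
      have s2 : ∀ y : V, Relation.ReflTransGen
          (fun u v => X.Adj u v ∧ ∃ g : Λ, g • u = u ∧ g • v = v ∧ cl g ≠ 1) v y →
          ∀ x : Λ, x • y = y → cl x ≠ 1 → heSim π x0 x := by
        intro y hy
        induction hy with
        | refl =>
          intro x hx hcx
          exact s1 v x0 x hx0v hx hx0 hcx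
        | tail hb hc ih =>
          intro x hx hcx
          obtain ⟨-, z, hz1, hz2, hz3⟩ := hc
          exact he_sim_trans (ih z hz1 hz3) (s1 _ z x hz2 hx hz3 hcx)
      have s3 : ∀ k : Λ, k • q v = q v → Dpd (cl x0) (cl k) := by
        intro k hk
        have hfix : (k * x0 * k⁻¹) • (k • v) = k • v := by
          rw [mul_smul, mul_smul, inv_smul_smul, hx0v]
        have hcx : cl (k * x0 * k⁻¹) = cl x0 := by
          rw [map_mul, map_mul, map_inv, mul_comm (cl k), mul_inv_cancel_right]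
        obtain ⟨m, n, hm, hn, hmn⟩ := s2 _ (hrt k hk) (k * x0 * k⁻¹) hfix (by rw [hcx]; exact hx0)
        have h4 : π (x0 ^ m * ((k * x0 * k⁻¹) ^ n)⁻¹) = 1 := by
          rw [map_mul, map_inv, map_zpow, map_zpow, hmn, mul_inv_cancel]
        have h5 := h0 _ h4
        rw [map_mul, map_inv, map_zpow, map_zpow, hcx, mul_inv_eq_one] at h5
        have hmn' : m = n := he_inj hx0 h5
        subst hmn'
        have h6 : Commute (π (x0 ^ m)) (π k) := by
          rw [map_mul, map_mul, map_inv, conj_zpow] at hmn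
          rw [map_zpow]
          show π x0 ^ m * π k = π k * π x0 ^ m
          rw [hmn, inv_mul_cancel_right, ← hmn]
        have h7 := hπ _ _ h6
        rw [map_zpow] at h7
        exact he_pow hm h7
      exact he_trans hx0 (he_symm (s3 g hga)) (s3 h hha)
    · have hst : ∀ k : Λ, k • q v = q v → k • v = v := by
        intro k hk
        rcases Relation.ReflTransGen.cases_head (hrt k hk) with h2 | ⟨c, hc, -⟩
        · exact h2.symm
        · exact absurd ⟨c, hc⟩ hex
      exact h1 v g h (hst g hga) (hst h hha)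

end Pool.Agent.F2D
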