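import Pool.Agent.Lib.MP_305fdd_al.F2.D.StmB

/-!
# MP_305fdd_al, F_2 project, section D: piece l1 (the residual eigenvalue)
-/

set_option autoImplicit false

namespace Pool.Agent.F2D

open Pool.Agent.F2 Pool.Agent.F2Ch Pool.Agent.PSL2Z Pool.Agent.PSL2Z.BT
open scoped WithZero

private theorem l1_add {K Γ : Type} [Field K] [AddCommGroup Γ] [LinearOrder Γ]
    [IsOrderedAddMonoid Γ] {v : K → Γ} (hv : IsV v) {c : Γ} {r s : K} (hr : Gt v c r)
    (hs : Gt v c s) : Gt v c (r + s) := by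
  rcases hr with rfl | hr
  · rwa [zero_add]
  rcases hs with rfl | hs
  · rw [add_zero]
    exact Or.inr hr
  by_cases h0 : r + s = 0
  · exact Or.inl h0
  by_cases hr0 : r = 0
  · rw [hr0, zero_add]
    exact Or.inr hs
  by_cases hs0 : s = 0
  · rw [hs0, add_zero]
    exact Or.inr hr
  exact Or.inr ((lt_min hr hs).trans_le (hv.add r s hr0 hs0 h0))

theorem p_l1 : S_l1 := by
  intro Λ K Γ _ _ _ _ _ T v z g ψ hT hv hE
  have hTg : T g ≠ 0 := by
    intro h
    have h1 := hE.hyp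
    rw [h, hv.zero] at h1
    exact lt_irrefl _ h1
  have h1 := hE.lead 1
  have h2 := hE.lead (-1)
  rw [zpow_one, zpow_one] at h1
  rw [zpow_neg_one, zpow_neg_one] at h2
  have h3 := l1_add hv h1 h2
  have h4 : T (g * z) - ψ * T g + (T (g * z⁻¹) - ψ⁻¹ * T g) = (T z - (ψ + ψ⁻¹)) * T g := by
    linear_combination hT.rel g z
  rw [h4] at h3
  by_cases h0 : T z - (ψ + ψ⁻¹) = 0
  · exact Or.inl h0
  rcases h3 with h3 | h3
  · exact absurd h3 (mul_ne_zero h0 hTg)
  · rw [hv.mul _ _ h0 hTg] at h3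
    exact Or.inr (lt_of_add_lt_add_right (by rwa [zero_add]))

end Pool.Agent.F2D
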