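import Pool.Agent.Lib.MP_305fdd_al.F2.D.StmB

/-!
# MP_305fdd_al, F_2 project, section D: piece l2 (Lemma 2, first part)
-/

set_option autoImplicit false

namespace Pool.Agent.F2D

open Pool.Agent.F2 Pool.Agent.F2Ch Pool.Agent.PSL2Z Pool.Agent.PSL2Z.BT
open scoped WithZero

section

variable {K Γ : Type} [Field K] [AddCommGroup Γ] [LinearOrder Γ] [IsOrderedAddMonoid Γ]
  {v : K → Γ}

private theorem l2_one (hv : IsV v) : v 1 = 0 := by
  have h := hv.mul 1 1 one_ne_zero one_ne_zero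
  rw [mul_one] at h
  exact (left_eq_add.1 h)

private theorem l2_pow (hv : IsV v) {x : K} (hx : x ≠ 0) (n : ℕ) : v (x ^ n) = n • v x := by
  induction n with
  | zero => rw [pow_zero, l2_one hv, zero_nsmul]
  | succ n ih => rw [pow_succ, hv.mul _ _ (pow_ne_zero _ hx) hx, ih, succ_nsmul]

private theorem l2_inv (hv : IsV v) {x : K} (hx : x ≠ 0) : v x⁻¹ = -v x := by
  have h := hv.mul x x⁻¹ hx (inv_ne_zero hx)
  rw [mul_inv_cancel₀ hx, l2_one hv] at h
  exact (neg_eq_of_add_eq_zero_right h.symm).symm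

private theorem l2_zpow (hv : IsV v) {x : K} (hx : x ≠ 0) (m : ℤ) : v (x ^ m) = m • v x := by
  obtain ⟨n, rfl | rfl⟩ := m.eq_nat_or_neg
  · rw [zpow_natCast, l2_pow hv hx, natCast_zsmul]
  · rw [zpow_neg, zpow_natCast, l2_inv hv (pow_ne_zero _ hx), l2_pow hv hx, neg_smul,
      natCast_zsmul]

private theorem l2_neg_one (hv : IsV v) : v (-1) = 0 := by
  have h := hv.mul (-1) (-1) (neg_ne_zero.2 one_ne_zero) (neg_ne_zero.2 one_ne_zero)
  rw [neg_mul_neg, one_mul, l2_one hv] at h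
  rcases lt_trichotomy (v (-1)) 0 with h1 | h1 | h1
  · exact absurd h.symm (add_neg h1 h1).ne
  · exact h1
  · exact absurd h.symm (add_pos h1 h1).ne'

private theorem l2_neg (hv : IsV v) {x : K} (hx : x ≠ 0) : v (-x) = v x := by
  rw [← neg_one_mul, hv.mul _ _ (neg_ne_zero.2 one_ne_zero) hx, l2_neg_one hv, zero_add]

/-- `v (1 + x) = 0` if `v x > 0`. -/
private theorem l2_one_add (hv : IsV v) {x : K} (hx : x = 0 ∨ 0 < v x) :
    1 + x ≠ 0 ∧ v (1 + x) = 0 := by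
  by_cases h0 : x = 0
  · rw [h0, add_zero]
    exact ⟨one_ne_zero, l2_one hv⟩
  have hx' : 0 < v x := hx.resolve_left h0
  have hne : 1 + x ≠ 0 := by
    intro h
    have h1 : x = -1 := (neg_eq_of_add_eq_zero_right h).symm
    rw [h1, l2_neg_one hv] at hx'
    exact lt_irrefl _ hx'
  refine ⟨hne, le_antisymm ?_ ?_⟩
  · have h1 : (1 + x) + -x = 1 := by ring
    have h2 := hv.add (1 + x) (-x) hne (neg_ne_zero.2 h0) (by rw [h1]; exact one_ne_zero)
    rw [h1, l2_one hv, l2_neg hv h0, min_le_iff] at h2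
    rcases h2 with h2 | h2
    · exact h2
    · exact absurd h2 (not_le.2 hx')
  · have h2 := hv.add 1 x one_ne_zero h0 hne
    rw [l2_one hv, min_eq_left hx'.le] at h2
    exact h2

end

theorem p_l2 : S_l2 := by
  intro Λ K Γ Γ' _ _ _ _ _ _ _ _ T v V z g ψ hv hV hfin hE m
  have hTg : T g ≠ 0 := by
    intro h
    have h1 := hE.hyp
    rw [h, hv.zero] at h1
    exact lt_irrefl _ h1
  have hψ : ψ ^ m ≠ 0 := zpow_ne_zero _ hE.ne
  have hG : ψ ^ m * T g ≠ 0 := mul_ne_zero hψ hTg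
  have hvG : v (ψ ^ m * T g) = v (T g) := by
    rw [hv.mul _ _ hψ hTg, l2_zpow hv hE.ne, hE.val, smul_zero, zero_add]
  have hVG : V (ψ ^ m * T g) = m • V ψ + V (T g) := by
    rw [hV.mul _ _ hψ hTg, l2_zpow hV hE.ne]
  have hx : (T (g * z ^ m) - ψ ^ m * T g) / (ψ ^ m * T g) = 0 ∨
      0 < V ((T (g * z ^ m) - ψ ^ m * T g) / (ψ ^ m * T g)) := by
    by_cases h0 : T (g * z ^ m) - ψ ^ m * T g = 0
    · exact Or.inl (by rw [h0, zero_div])
    · right
      refine hfin _ (div_ne_zero h0 hG) ?_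
      have h1 : v (T g) < v (T (g * z ^ m) - ψ ^ m * T g) := (hE.lead m).resolve_left h0
      rw [div_eq_mul_inv, hv.mul _ _ h0 (inv_ne_zero hG), l2_inv hv hG, hvG, ← sub_eq_add_neg,
        sub_pos]
      exact h1
  obtain ⟨h1, h2⟩ := l2_one_add hV hx
  have h3 : T (g * z ^ m) = ψ ^ m * T g *
      (1 + (T (g * z ^ m) - ψ ^ m * T g) / (ψ ^ m * T g)) := by
    rw [mul_add, mul_one, mul_div_cancel₀ _ hG]
    ring
  rw [h3]
  refine ⟨mul_ne_zero hG h1, ?_⟩
  rw [hV.mul _ _ hG h1, h2, hVG, add_zero]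

end Pool.Agent.F2D
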