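import Pool.Agent.Lib.MP_305fdd_al.F2.D.StmB

/-!
# MP_305fdd_al, F_2 project, section D: piece l3 (Lemma 2, second part)
-/

set_option autoImplicit false

namespace Pool.Agent.F2D

open Pool.Agent.F2 Pool.Agent.F2Ch Pool.Agent.PSL2Z Pool.Agent.PSL2Z.BT
open scoped WithZero

private theorem l3_arch {X a : ℝ} (h : ∀ m : ℤ, X + m * a ≤ 0) : a = 0 := by
  by_contra ha
  rcases lt_or_gt_of_ne ha with h1 | h1
  · obtain ⟨n, hn⟩ := exists_nat_gt ((-X) / (-a))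
    rw [div_lt_iff₀ (neg_pos.2 h1)] at hn
    have h2 := h (-(n : ℤ))
    push_cast at h2
    linarith
  · obtain ⟨n, hn⟩ := exists_nat_gt ((-X) / a)
    rw [div_lt_iff₀ h1] at hn
    have h2 := h (n : ℤ)
    push_cast at h2
    linarith

theorem p_l3 (hl2 : S_l2) : S_l3 := by
  rintro Λ K _ _ T V z g ψ hV hv hE ⟨α, β, hβ, hαβ⟩
  have hfin : ∀ f : K, f ≠ 0 → 0 < (ofLex (V f)).1 → 0 < V f := by
    intro f _ hf
    rw [Prod.Lex.lt_iff]
    exact Or.inl hf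
  have h1 := hl2 Λ K ℝ (ℝ ×ₗ ℝ) T (fun f => (ofLex (V f)).1) V z g ψ hv hV hfin hE
  have hψ1 : (ofLex (V ψ)).1 = 0 := hE.val
  have h2 : β * (ofLex (V ψ)).2 = 0 := by
    refine l3_arch (X := α * (ofLex (V (T g))).1 + β * (ofLex (V (T g))).2) fun m => ?_
    have h3 := hαβ (g * z ^ m)
    rw [(h1 m).2] at h3
    have e1 : (ofLex (m • V ψ + V (T g))).1 = (ofLex (V (T g))).1 := by
      show m • (ofLex (V ψ)).1 + (ofLex (V (T g))).1 = _
      rw [hψ1, smul_zero, zero_add]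
    have e2 : (ofLex (m • V ψ + V (T g))).2 = m * (ofLex (V ψ)).2 + (ofLex (V (T g))).2 := by
      show m • (ofLex (V ψ)).2 + (ofLex (V (T g))).2 = _
      rw [zsmul_eq_mul]
    rw [e1, e2] at h3
    linarith
  have h4 : (ofLex (V ψ)).2 = 0 := (mul_eq_zero.1 h2).resolve_left hβ.ne'
  have h5 : ofLex (V ψ) = 0 := Prod.ext hψ1 h4
  exact h5

end Pool.Agent.F2D
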