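import Pool.Agent.Lib.MP_305fdd_al.F2.D.StmB

/-!
# MP_305fdd_al, F_2 project, section D: leading coefficients
-/

set_option autoImplicit false

namespace Pool.Agent.F2D

open Pool.Agent.F2 Pool.Agent.F2Ch Pool.Agent.PSL2Z Pool.Agent.PSL2Z.BT
open scoped WithZero

variable {E : Type} [Field E] {w : Valuation E ℤᵐ⁰}

private theorem le_mul {x y : E} {a b c : ℤ} (hx : w x ≤ WithZero.exp a)
    (hy : w y ≤ WithZero.exp b) (hc : a + b < c) : w (x * y) < WithZero.exp c := by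
  refine lt_of_le_of_lt ?_ (WithZero.exp_lt_exp.2 hc)
  rw [map_mul, WithZero.exp_add]
  exact mul_le_mul' hx hy

private theorem le_mul_lt {x y : E} {a b c : ℤ} (hx : w x < WithZero.exp a)
    (hy : w y ≤ WithZero.exp b) (hc : a + b = c) : w (x * y) < WithZero.exp c := by
  rw [map_mul, ← hc, WithZero.exp_add]
  exact (mul_le_mul_right hy (w x)).trans_lt (mul_lt_mul_of_pos_right hx WithZero.exp_pos)

private theorem le_zpow_fix (Z : Gw w) (M : Vert w) (h : Z • M = M) (m : ℤ) : Z ^ m • M = M := by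
  have h1 : Z ∈ MulAction.stabilizer (Gw w) M := h
  exact zpow_mem h1 m

private theorem le_type (hfx : S_fx) (hw : Function.Surjective w) (Z : Gw w) (h : ℤ)
    (h0 : Z • mkV w h 0 = mkV w h 0) (h1 : Z • mkV w (h + 1) 0 = mkV w (h + 1) 0) :
    w (ent Z 0 0) ≤ WithZero.exp 0 ∧ w (ent Z 0 1) ≤ WithZero.exp h ∧
      w (ent Z 1 0) ≤ WithZero.exp (-h - 1) ∧ w (ent Z 1 1) ≤ WithZero.exp 0 := by
  obtain ⟨a1, a2, _, a4⟩ := (hfx E w hw Z h).1 h0
  obtain ⟨_, _, b3, _⟩ := (hfx E w hw Z (h + 1)).1 h1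
  refine ⟨a1, ?_, ?_, a4⟩
  · rwa [zero_add] at a2
  · rwa [show (0 : ℤ) - (h + 1) = -h - 1 by ring] at b3

private theorem le_ent_mul (Y Z : Gw w) (i j : Fin 2) :
    ent (Y * Z) i j = ent Y i 0 * ent Z 0 j + ent Y i 1 * ent Z 1 j := by
  unfold ent
  rw [Subgroup.coe_mul, Units.val_mul, Matrix.mul_apply, Fin.sum_univ_two]

private theorem le_trace (Y : Gw w) : Y.val.val.trace = ent Y 0 0 + ent Y 1 1 :=
  Matrix.trace_fin_two _

private theorem le_one (Z : Gw w) (hdet : Z.val.val.det = 1) (h : ℤ)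
    (h1 : w (ent Z 0 0) ≤ WithZero.exp 0) (h2 : w (ent Z 0 1) ≤ WithZero.exp h)
    (h3 : w (ent Z 1 0) ≤ WithZero.exp (-h - 1)) (h4 : w (ent Z 1 1) ≤ WithZero.exp 0) :
    w (ent Z 0 0) = 1 ∧ w (ent Z 0 1 * ent Z 1 0) < 1 ∧
      ent Z 0 0 * ent Z 1 1 = 1 + ent Z 0 1 * ent Z 1 0 := by
  have h5 : w (ent Z 0 1 * ent Z 1 0) < 1 := by
    have := le_mul (c := 0) h2 h3 (by omega)
    rwa [WithZero.exp_zero] at this
  have h6 : ent Z 0 0 * ent Z 1 1 = 1 + ent Z 0 1 * ent Z 1 0 := by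
    rw [Matrix.det_fin_two] at hdet
    unfold ent
    linear_combination hdet
  have h7 : w (ent Z 0 0) * w (ent Z 1 1) = 1 := by
    rw [← map_mul, h6, Valuation.map_add_eq_of_lt_left, map_one]
    rwa [map_one]
  rw [WithZero.exp_zero] at h1 h4
  refine ⟨le_antisymm h1 ?_, h5, h6⟩
  rw [← h7]
  exact mul_le_of_le_one_right' h4

private theorem le_step (Z : Gw w) (m : ℤ) (hZ : ent Z 0 0 ≠ 0) :
    ent (Z ^ (m + 1)) 0 0 - ent Z 0 0 ^ (m + 1) =
      (ent (Z ^ m) 0 0 - ent Z 0 0 ^ m) * ent Z 0 0 + ent (Z ^ m) 0 1 * ent Z 1 0 := by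
  rw [zpow_add_one, zpow_add_one₀ hZ, le_ent_mul]
  ring

private theorem le_pow (Z : Gw w) (hZ : w (ent Z 0 0) = 1)
    (h2 : ∀ m : ℤ, w (ent (Z ^ m) 0 1 * ent Z 1 0) < 1) (m : ℤ) :
    w (ent (Z ^ m) 0 0 - ent Z 0 0 ^ m) < 1 := by
  have hZ0 : ent Z 0 0 ≠ 0 := by
    intro h0
    rw [h0, map_zero] at hZ
    exact zero_ne_one hZ
  have hstep : ∀ m : ℤ, w (ent (Z ^ m) 0 0 - ent Z 0 0 ^ m) < 1 ↔
      w (ent (Z ^ (m + 1)) 0 0 - ent Z 0 0 ^ (m + 1)) < 1 := by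
    intro m
    have e := le_step Z m hZ0
    constructor
    · intro h
      rw [e]
      refine Valuation.map_add_lt w ?_ (h2 m)
      rwa [map_mul, hZ, mul_one]
    · intro h
      have e2 : (ent (Z ^ m) 0 0 - ent Z 0 0 ^ m) * ent Z 0 0 =
          (ent (Z ^ (m + 1)) 0 0 - ent Z 0 0 ^ (m + 1)) - ent (Z ^ m) 0 1 * ent Z 1 0 := by
        rw [e]; ring
      have h3 : w ((ent (Z ^ m) 0 0 - ent Z 0 0 ^ m) * ent Z 0 0) < 1 := by
        rw [e2]
        exact Valuation.map_sub_lt w h (h2 m)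
      rwa [map_mul, hZ, mul_one] at h3
  induction m using Int.induction_on with
  | zero =>
    rw [zpow_zero, zpow_zero]
    have : ent (1 : Gw w) 0 0 = 1 := by
      unfold ent
      simp
    rw [this, sub_self, map_zero]
    exact zero_lt_one
  | succ k ih => exact (hstep _).1 ih
  | pred k ih =>
    rw [hstep, sub_add_cancel]
    exact ih

theorem p_le (hfx : S_fx) : S_le := by
  intro E _ w hw B Z h n hB hZ0 hZ1 hdet
  obtain ⟨b1, b2, b3, b4⟩ := hB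
  obtain ⟨z1, z2, z3, z4⟩ := le_type hfx hw Z h hZ0 hZ1
  obtain ⟨o1, o2, o3⟩ := le_one Z hdet h z1 z2 z3 z4
  have hne : ent Z 0 0 ≠ 0 := by
    intro h0
    rw [h0, map_zero] at o1
    exact zero_ne_one o1
  have hty : ∀ m : ℤ, w (ent (Z ^ m) 0 0) ≤ WithZero.exp 0 ∧
      w (ent (Z ^ m) 0 1) ≤ WithZero.exp h ∧ w (ent (Z ^ m) 1 0) ≤ WithZero.exp (-h - 1) ∧
      w (ent (Z ^ m) 1 1) ≤ WithZero.exp 0 := fun m =>
    le_type hfx hw (Z ^ m) h (le_zpow_fix Z _ hZ0 m) (le_zpow_fix Z _ hZ1 m)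
  refine ⟨o1, ?_, ?_, ?_⟩
  · rw [le_trace, Valuation.map_add_eq_of_lt_left, b1]
    rwa [b1]
  · have e : ent Z 0 0 + (ent Z 0 0)⁻¹ - Z.val.val.trace =
        -((ent Z 0 0)⁻¹ * (ent Z 0 1 * ent Z 1 0)) := by
      rw [le_trace]
      have h1 : (ent Z 0 0)⁻¹ * (ent Z 0 0 * ent Z 1 1) = ent Z 1 1 := by
        rw [← mul_assoc, inv_mul_cancel₀ hne, one_mul]
      rw [o3] at h1
      linear_combination h1
    rw [e, Valuation.map_neg, map_mul, map_inv₀, o1, inv_one, one_mul]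
    exact o2
  · intro m
    obtain ⟨t1, t2, t3, t4⟩ := hty m
    have hp : w (ent (Z ^ m) 0 0 - ent Z 0 0 ^ m) < 1 := by
      refine le_pow Z o1 (fun k => ?_) m
      have := le_mul (c := 0) (hty k).2.1 z3 (by omega)
      rwa [WithZero.exp_zero] at this
    have e : (B * Z ^ m).val.val.trace - ent Z 0 0 ^ m * B.val.val.trace =
        ((ent (Z ^ m) 0 0 - ent Z 0 0 ^ m) * ent B 0 0 + ent B 0 1 * ent (Z ^ m) 1 0) +
        (ent B 1 0 * ent (Z ^ m) 0 1 + ent B 1 1 * ent (Z ^ m) 1 1 -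
          ent B 1 1 * ent Z 0 0 ^ m) := by
      rw [le_trace, le_trace, le_ent_mul, le_ent_mul]
      ring
    rw [e]
    have hz : w (ent Z 0 0 ^ m) = 1 := by
      rw [map_zpow₀, o1, one_zpow]
    refine Valuation.map_add_lt w (Valuation.map_add_lt w ?_ ?_)
      (Valuation.map_sub_lt w (Valuation.map_add_lt w ?_ ?_) ?_)
    · refine le_mul_lt (a := 0) (b := n) ?_ b1.le (by omega)
      rwa [WithZero.exp_zero]
    · exact le_mul b2 t3 (by omega)
    · exact le_mul_lt b3 t2 (by omega)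
    · exact le_mul_lt b4 t4 (by omega)
    · rw [map_mul, hz, mul_one]
      exact b4

end Pool.Agent.F2D
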