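import Pool.Agent.Lib.MP_305fdd_al.F2.D.StmB

set_option autoImplicit false

namespace Pool.Agent.F2D

open Pool.Agent.F2 Pool.Agent.F2Ch Pool.Agent.PSL2Z Pool.Agent.PSL2Z.BT
open scoped WithZero

private theorem ma_mk {E : Type} [Field E] {w : Valuation E ℤᵐ⁰} (p q r s : E)
    (hm : p * s - q * r = 1) :
    ∃ g : Gw w, g.val.val = !![p, q; r, s] ∧ (g⁻¹).val.val = !![s, -q; -r, p] := by
  have hdet : (!![p, q; r, s] : Matrix (Fin 2) (Fin 2) E).det = 1 := by
    rw [Matrix.det_fin_two_of, hm]
  have hu : IsUnit (!![p, q; r, s] : Matrix (Fin 2) (Fin 2) E).det := by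
    rw [hdet]; exact isUnit_one
  obtain ⟨g, hg⟩ : ∃ g : Gw w, g.val.val = !![p, q; r, s] := by
    refine ⟨⟨Matrix.GeneralLinearGroup.mk'' _ hu, ?_⟩, rfl⟩
    change w (!![p, q; r, s] : Matrix (Fin 2) (Fin 2) E).det = 1
    rw [hdet, map_one]
  refine ⟨g, hg, ?_⟩
  have h1 : (g⁻¹).val.val * g.val.val = 1 := by
    rw [← Units.val_mul, ← Subgroup.coe_mul, inv_mul_cancel]
    rfl
  have h2 : g.val.val * !![s, -q; -r, p] = 1 := by
    rw [hg, Matrix.mul_fin_two, Matrix.one_fin_two]
    have e1 : p * s + q * -r = 1 := by linear_combination hm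
    have e2 : p * -q + q * p = 0 := by ring
    have e3 : r * s + s * -r = 0 := by ring
    have e4 : r * -q + s * p = 1 := by linear_combination hm
    rw [e1, e2, e3, e4]
  calc (g⁻¹).val.val = (g⁻¹).val.val * (g.val.val * !![s, -q; -r, p]) := by rw [h2, mul_one]
    _ = ((g⁻¹).val.val * g.val.val) * !![s, -q; -r, p] := by rw [mul_assoc]
    _ = !![s, -q; -r, p] := by rw [h1, one_mul]

private theorem ma_conj {E : Type} [Field E] {w : Valuation E ℤᵐ⁰} (g B : Gw w) (p q r s : E)
    (h1 : g.val.val = !![p, q; r, s]) (h2 : (g⁻¹).val.val = !![s, -q; -r, p]) :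
    ent (g⁻¹ * B * g) 0 0 = (s * ent B 0 0 - q * ent B 1 0) * p + (s * ent B 0 1 - q * ent B 1 1) * r ∧
    ent (g⁻¹ * B * g) 0 1 = (s * ent B 0 0 - q * ent B 1 0) * q + (s * ent B 0 1 - q * ent B 1 1) * s ∧
    ent (g⁻¹ * B * g) 1 0 = (p * ent B 1 0 - r * ent B 0 0) * p + (p * ent B 1 1 - r * ent B 0 1) * r ∧
    ent (g⁻¹ * B * g) 1 1 = (p * ent B 1 0 - r * ent B 0 0) * q + (p * ent B 1 1 - r * ent B 0 1) * s := by
  have e : (g⁻¹ * B * g).val.val = (g⁻¹).val.val * B.val.val * g.val.val := rfl
  unfold ent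
  rw [e, h1, h2, Matrix.eta_fin_two B.val.val, Matrix.mul_fin_two, Matrix.mul_fin_two]
  simp only [Matrix.of_apply, Matrix.cons_val', Matrix.cons_val_zero, Matrix.cons_val_one,
    Matrix.cons_val_fin_one]
  refine ⟨by ring, by ring, by ring, by ring⟩

theorem p_ma (hfx : S_fx) : S_ma := by
  intro E _ w hw B h N hN hdet hB
  by_cases hsec : w (ent B 1 0) < WithZero.exp (N - h) ∧ w (ent B 1 1) < WithZero.exp N
  · refine ⟨1, one_smul _ _, ?_, ?_, ?_⟩
    · rwa [inv_one, one_mul, mul_one]
    · rw [inv_one, one_mul, mul_one]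
      exact hsec.1
    · rw [inv_one, one_mul, mul_one]
      exact hsec.2
  obtain ⟨b00, b01, b10, b11⟩ := hB
  have hdet' : ent B 0 0 * ent B 1 1 - ent B 0 1 * ent B 1 0 = 1 := by
    rw [Matrix.det_fin_two] at hdet
    exact hdet
  by_cases hfir : w (ent B 0 0) < WithZero.exp N ∧ w (ent B 0 1) < WithZero.exp (N + h)
  · obtain ⟨y, hy⟩ := hw (WithZero.exp h)
    have hy0 : y ≠ 0 := by
      rintro rfl
      rw [map_zero] at hy
      exact WithZero.exp_ne_zero hy.symm
    obtain ⟨g, hg1, hg2⟩ := ma_mk (w := w) 0 y (-y⁻¹) 0 (by field_simp; ring)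
    obtain ⟨c00, c01, c10, c11⟩ := ma_conj g B 0 y (-y⁻¹) 0 hg1 hg2
    have d00 : ent (g⁻¹ * B * g) 0 0 = ent B 1 1 := by
      rw [c00]; field_simp; ring
    have d01 : ent (g⁻¹ * B * g) 0 1 = -(y * y * ent B 1 0) := by
      rw [c01]; ring
    have d10 : ent (g⁻¹ * B * g) 1 0 = -(y⁻¹ * y⁻¹ * ent B 0 1) := by
      rw [c10]; ring
    have d11 : ent (g⁻¹ * B * g) 1 1 = ent B 0 0 := by
      rw [c11]; field_simp; ring
    have hy' : w y⁻¹ = WithZero.exp (-h) := by rw [map_inv₀, hy, WithZero.exp_neg]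
    have k10 : w (ent (g⁻¹ * B * g) 1 0) < WithZero.exp (N - h) := by
      rw [d10, Valuation.map_neg, map_mul, map_mul, hy', ← WithZero.exp_add]
      have : WithZero.exp (N - h) = WithZero.exp (-h + -h) * WithZero.exp (N + h) := by
        rw [← WithZero.exp_add]
        congr 1
        ring
      rw [this]
      exact mul_lt_mul_of_pos_left hfir.2 WithZero.exp_pos
    refine ⟨g, ?_, ⟨?_, ?_, k10.le, ?_⟩, k10, ?_⟩
    · rw [hfx E w hw g h]
      unfold Bd ent
      rw [hg1]
      simp only [Matrix.of_apply, Matrix.cons_val', Matrix.cons_val_zero, Matrix.cons_val_one,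
        Matrix.cons_val_fin_one]
      refine ⟨?_, ?_, ?_, ?_⟩
      · rw [map_zero]; exact zero_le'
      · rw [hy, zero_add]
      · rw [Valuation.map_neg, hy', zero_sub]
      · rw [map_zero]; exact zero_le'
    · rw [d00]; exact b11
    · rw [d01, Valuation.map_neg, map_mul, map_mul, hy, ← WithZero.exp_add]
      have : WithZero.exp (N + h) = WithZero.exp (h + h) * WithZero.exp (N - h) := by
        rw [← WithZero.exp_add]
        congr 1
        ring
      rw [this]
      exact mul_le_mul_of_nonneg_left b10 zero_le'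
    · rw [d11]; exact b00
    · rw [d11]; exact hfir.1
  · -- the general case
    have key : ∀ c' : E, w c' ≤ WithZero.exp (-h) →
        w ((ent B 1 0 - c' * ent B 0 0) + (ent B 1 1 - c' * ent B 0 1) * c') < WithZero.exp (N - h) →
        w (ent B 1 1 - c' * ent B 0 1) < WithZero.exp N →
        ∃ r : Gw w, r • mkV w h 0 = mkV w h 0 ∧ Bd w (r⁻¹ * B * r) h N ∧
          w (ent (r⁻¹ * B * r) 1 0) < WithZero.exp (N - h) ∧
          w (ent (r⁻¹ * B * r) 1 1) < WithZero.exp N := by
      intro c' hc' hs0 hs1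
      obtain ⟨g, hg1, hg2⟩ := ma_mk (w := w) 1 0 c' 1 (by ring)
      obtain ⟨c00, c01, c10, c11⟩ := ma_conj g B 1 0 c' 1 hg1 hg2
      have d00 : ent (g⁻¹ * B * g) 0 0 = ent B 0 0 + ent B 0 1 * c' := by
        rw [c00]; ring
      have d01 : ent (g⁻¹ * B * g) 0 1 = ent B 0 1 := by
        rw [c01]; ring
      have d10 : ent (g⁻¹ * B * g) 1 0 =
          (ent B 1 0 - c' * ent B 0 0) + (ent B 1 1 - c' * ent B 0 1) * c' := by
        rw [c10]; ring
      have d11 : ent (g⁻¹ * B * g) 1 1 = ent B 1 1 - c' * ent B 0 1 := by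
        rw [c11]; ring
      refine ⟨g, ?_, ⟨?_, ?_, ?_, ?_⟩, ?_, ?_⟩
      · rw [hfx E w hw g h]
        unfold Bd ent
        rw [hg1]
        simp only [Matrix.of_apply, Matrix.cons_val', Matrix.cons_val_zero, Matrix.cons_val_one,
          Matrix.cons_val_fin_one]
        refine ⟨?_, ?_, ?_, ?_⟩
        · rw [map_one, WithZero.exp_zero]
        · rw [map_zero]; exact zero_le'
        · rw [zero_sub]; exact hc'
        · rw [map_one, WithZero.exp_zero]
      · rw [d00]
        refine Valuation.map_add_le w b00 ?_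
        rw [map_mul]
        have : WithZero.exp N = WithZero.exp (N + h) * WithZero.exp (-h) := by
          rw [← WithZero.exp_add]
          congr 1
          ring
        rw [this]
        exact mul_le_mul' b01 hc'
      · rw [d01]; exact b01
      · rw [d10]; exact hs0.le
      · rw [d11]; exact hs1.le
      · rw [d10]; exact hs0
      · rw [d11]; exact hs1
    by_cases ha : w (ent B 0 0) < WithZero.exp N
    · have hb : w (ent B 0 1) = WithZero.exp (N + h) := by
        refine le_antisymm b01 ?_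
        by_contra hcon
        exact hfir ⟨ha, not_le.1 hcon⟩
      have hb0 : ent B 0 1 ≠ 0 := by
        intro h0
        rw [h0, map_zero] at hb
        exact WithZero.exp_ne_zero hb.symm
      have e1 : ent B 1 1 - ent B 1 1 / ent B 0 1 * ent B 0 1 = 0 := by field_simp; ring
      have e2 : ent B 1 0 - ent B 1 1 / ent B 0 1 * ent B 0 0 = -(ent B 0 1)⁻¹ := by
        field_simp
        linear_combination -hdet'
      have hbi : w (ent B 0 1)⁻¹ = WithZero.exp (-(N + h)) := by
        rw [map_inv₀, hb, WithZero.exp_neg]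
      refine key (ent B 1 1 / ent B 0 1) ?_ ?_ ?_
      · rw [div_eq_mul_inv, map_mul, hbi]
        have : WithZero.exp (-h) = WithZero.exp N * WithZero.exp (-(N + h)) := by
          rw [← WithZero.exp_add]
          congr 1
          ring
        rw [this]
        exact mul_le_mul' b11 le_rfl
      · rw [e1, e2, zero_mul, add_zero, Valuation.map_neg, hbi, WithZero.exp_lt_exp]
        omega
      · rw [e1, map_zero]
        exact WithZero.exp_pos
    · have ha' : w (ent B 0 0) = WithZero.exp N := le_antisymm b00 (not_lt.1 ha)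
      have ha0 : ent B 0 0 ≠ 0 := by
        intro h0
        rw [h0, map_zero] at ha'
        exact WithZero.exp_ne_zero ha'.symm
      have e1 : ent B 1 0 - ent B 1 0 / ent B 0 0 * ent B 0 0 = 0 := by field_simp; ring
      have e2 : ent B 1 1 - ent B 1 0 / ent B 0 0 * ent B 0 1 = (ent B 0 0)⁻¹ := by
        field_simp
        linear_combination hdet'
      have hai : w (ent B 0 0)⁻¹ = WithZero.exp (-N) := by
        rw [map_inv₀, ha', WithZero.exp_neg]
      have hc : w (ent B 1 0 / ent B 0 0) ≤ WithZero.exp (-h) := by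
        rw [div_eq_mul_inv, map_mul, hai]
        have : WithZero.exp (-h) = WithZero.exp (N - h) * WithZero.exp (-N) := by
          rw [← WithZero.exp_add]
          congr 1
          ring
        rw [this]
        exact mul_le_mul' b10 le_rfl
      refine key (ent B 1 0 / ent B 0 0) hc ?_ ?_
      · rw [e1, e2, zero_add, map_mul, hai]
        calc WithZero.exp (-N) * w (ent B 1 0 / ent B 0 0)
            ≤ WithZero.exp (-N) * WithZero.exp (-h) := mul_le_mul' le_rfl hc
          _ = WithZero.exp (-N + -h) := (WithZero.exp_add _ _).symm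
          _ < WithZero.exp (N - h) := WithZero.exp_lt_exp.2 (by omega)
      · rw [e2, hai, WithZero.exp_lt_exp]
        omega

end Pool.Agent.F2D
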