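import Pool.Agent.Lib.MP_305fdd_al.F2.D.StmB

set_option autoImplicit false

namespace Pool.Agent.F2D

open Pool.Agent.F2 Pool.Agent.F2Ch Pool.Agent.PSL2Z Pool.Agent.PSL2Z.BT
open scoped WithZero

private theorem mo_exp {x : ℤᵐ⁰} (hx : x ≠ 0) : x = WithZero.exp (WithZero.log x) :=
  (WithZero.exp_log hx).symm

theorem p_mo : S_mo := by
  intro Λ K Γ E _ _ _ _ _ _ _ T v γ w ρ hv hM
  have hne : ∀ f : K, f ≠ 0 → w (algebraMap K E f) ≠ 0 := by
    intro f hf
    rw [Ne, map_eq_zero, FaithfulSMul.algebraMap_eq_zero_iff]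
    exact hf
  have hval := hM.val
  have hγ := hM.pos
  have h1 : ∀ f : K, 0 ≤ v f ↔ w (algebraMap K E f) ≤ 1 := by
    intro f
    by_cases hf : f = 0
    · subst hf
      simp [hv.zero]
    · rw [hval f hf, mo_exp (hne f hf), ← WithZero.exp_zero, WithZero.exp_le_exp,
        WithZero.log_exp]
      have h := zsmul_le_zsmul_iff_left hγ (m := 0) (n := -WithZero.log (w (algebraMap K E f)))
      rw [zero_smul] at h
      rw [h]
      constructor <;> intro h' <;> omega
  have h3 : ∀ f g : K, f ≠ 0 → g ≠ 0 →
      (v g < v f ↔ w (algebraMap K E f) < w (algebraMap K E g)) := by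
    intro f g hf hg
    rw [hval f hf, hval g hg, mo_exp (hne f hf), mo_exp (hne g hg), WithZero.exp_lt_exp,
      WithZero.log_exp, WithZero.log_exp, zsmul_lt_zsmul_iff_left hγ]
    constructor <;> intro h' <;> omega
  refine ⟨h1, ?_, ?_, ?_⟩
  · intro f g hg
    unfold Gt
    by_cases hf : f = 0
    · subst hf
      simp only [true_or, map_zero, true_iff]
      exact zero_lt_iff.2 (hne g hg)
    · rw [h3 f g hf hg]
      exact ⟨fun h => h.resolve_left hf, Or.inr⟩
  · intro f hf
    constructor
    · intro h
      refine le_antisymm ((h1 f).1 h.ge) (not_lt.1 fun h' => ?_)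
      have h4 := (h3 f 1 hf one_ne_zero).2 (by rwa [map_one, map_one])
      have h5 : v (1 : K) = 0 := by
        have := hv.mul 1 1 one_ne_zero one_ne_zero
        rw [mul_one] at this
        simpa using this
      rw [h5, h] at h4
      exact lt_irrefl _ h4
    · intro h
      refine le_antisymm (not_lt.1 fun h' => ?_) ((h1 f).2 h.le)
      have h5 : v (1 : K) = 0 := by
        have := hv.mul 1 1 one_ne_zero one_ne_zero
        rw [mul_one] at this
        simpa using this
      have h4 := (h3 f 1 hf one_ne_zero).1 (by rwa [h5])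
      rw [map_one, map_one, h] at h4
      exact lt_irrefl _ h4
  · intro l M hl
    have h := trace_le hM.surj (ρ l) M hl
    rw [hM.tr] at h
    exact (h1 _).2 h

end Pool.Agent.F2D
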