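import Pool.Agent.Lib.MP_305fdd_al.F2.D.StmB

/-!
# MP_305fdd_al, F_2 project, section D: piece [F2D no]

Normalisation of a discrete valuation.
-/

set_option autoImplicit false

namespace Pool.Agent.F2D

open Pool.Agent.F2 Pool.Agent.F2Ch Pool.Agent.PSL2Z Pool.Agent.PSL2Z.BT
open scoped WithZero

private theorem no_le {Γ : Type} [AddCommGroup Γ] [LinearOrder Γ] [IsOrderedAddMonoid Γ] {γ : Γ}
    (hγ : 0 < γ) {a b : ℤ} : a • γ ≤ b • γ ↔ a ≤ b := by
  constructor
  · intro h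
    by_contra hc
    rw [not_le] at hc
    have h1 : 0 < (a - b) • γ := zsmul_pos hγ (by omega)
    rw [sub_zsmul, ← sub_eq_add_neg] at h1
    exact absurd h (not_le.2 (sub_pos.1 h1))
  · intro h
    have h1 : 0 ≤ (b - a) • γ := zsmul_nonneg hγ.le (by omega)
    rw [sub_zsmul, ← sub_eq_add_neg] at h1
    exact sub_nonneg.1 h1

private theorem no_inj {Γ : Type} [AddCommGroup Γ] [LinearOrder Γ] [IsOrderedAddMonoid Γ] {γ : Γ}
    (hγ : 0 < γ) {a b : ℤ} (h : a • γ = b • γ) : a = b :=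
  le_antisymm ((no_le hγ).1 h.le) ((no_le hγ).1 h.ge)

/-- the values are the multiples of one positive element, all of them occur -/
private theorem no_gen {K Γ : Type} [Field K] [AddCommGroup Γ] [LinearOrder Γ]
    [IsOrderedAddMonoid Γ] (v : K → Γ) (hv : IsV v) (hd : Disc v) (hn : ∃ f0, v f0 < 0) :
    ∃ γ : Γ, 0 < γ ∧ (∀ f, f ≠ 0 → ∃ n : ℤ, v f = n • γ) ∧
      ∀ n : ℤ, ∃ f, f ≠ 0 ∧ v f = n • γ := by
  obtain ⟨γ0, h0, hN⟩ := hd
  obtain ⟨f0, hf0⟩ := hn
  have hf0' : f0 ≠ 0 := by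
    rintro rfl
    rw [hv.zero] at hf0
    exact lt_irrefl _ hf0
  have hone : v 1 = 0 := by
    have := hv.mul 1 1 one_ne_zero one_ne_zero
    rw [mul_one] at this
    exact left_eq_add.1 this
  have hinv : ∀ f, f ≠ 0 → v f⁻¹ = - v f := by
    intro f hf
    have := hv.mul f f⁻¹ hf (inv_ne_zero hf)
    rw [mul_inv_cancel₀ hf, hone] at this
    exact (neg_eq_of_add_eq_zero_right this.symm).symm
  let H : AddSubgroup ℤ :=
    { carrier := {n | ∃ f, f ≠ 0 ∧ v f = n • γ0}
      add_mem' := by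
        rintro a b ⟨f, hf, ha⟩ ⟨g, hg, hb⟩
        exact ⟨f * g, mul_ne_zero hf hg, by rw [hv.mul f g hf hg, ha, hb, add_zsmul]⟩
      zero_mem' := ⟨1, one_ne_zero, by rw [hone, zero_zsmul]⟩
      neg_mem' := by
        rintro a ⟨f, hf, ha⟩
        exact ⟨f⁻¹, inv_ne_zero hf, by rw [hinv f hf, ha, neg_zsmul]⟩ }
  have hH : ∀ n : ℤ, n ∈ H ↔ ∃ f, f ≠ 0 ∧ v f = n • γ0 := fun n => Iff.rfl
  obtain ⟨a, ha⟩ := Int.subgroup_cyclic H
  have hmem : ∀ n : ℤ, n ∈ H ↔ a ∣ n := by
    intro n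
    rw [ha, ← AddSubgroup.zmultiples_eq_closure, Int.mem_zmultiples_iff]
  have ha0 : a ≠ 0 := by
    rintro rfl
    obtain ⟨n, hn⟩ := hN f0 hf0'
    have h1 : n ∈ H := ⟨f0, hf0', hn⟩
    rw [hmem, zero_dvd_iff] at h1
    rw [hn, h1, zero_zsmul] at hf0
    exact lt_irrefl _ hf0
  refine ⟨|a| • γ0, zsmul_pos h0 (abs_pos.2 ha0), ?_, ?_⟩
  · intro f hf
    obtain ⟨n, hn⟩ := hN f hf
    have h1 : n ∈ H := ⟨f, hf, hn⟩
    rw [hmem, ← abs_dvd] at h1
    obtain ⟨m, hm⟩ := h1
    exact ⟨m, by rw [hn, hm, mul_comm, mul_zsmul]⟩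
  · intro n
    have h1 : n * |a| ∈ H := by
      rw [hmem]
      exact Dvd.dvd.mul_left ((dvd_abs a a).2 dvd_rfl) n
    obtain ⟨f, hf, hfn⟩ := (hH _).1 h1
    exact ⟨f, hf, by rw [hfn, mul_zsmul]⟩

theorem p_no : S_no := by
  intro K Γ _ _ _ _ v hv hd hn
  obtain ⟨γ, hγ, h1, h2⟩ := no_gen v hv hd hn
  classical
  have h3 : ∀ f : K, ∃ n : ℤ, f ≠ 0 → v f = n • γ := by
    intro f
    by_cases hf : f = 0
    · exact ⟨0, fun h => absurd hf h⟩
    · obtain ⟨n, hn⟩ := h1 f hf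
      exact ⟨n, fun _ => hn⟩
  choose n hn using h3
  have hone : v 1 = 0 := by
    have := hv.mul 1 1 one_ne_zero one_ne_zero
    rw [mul_one] at this
    exact left_eq_add.1 this
  have n1 : n 1 = 0 := no_inj hγ (by rw [← hn 1 one_ne_zero, hone, zero_zsmul])
  have nmul : ∀ x y, x ≠ 0 → y ≠ 0 → n (x * y) = n x + n y := by
    intro x y hx hy
    apply no_inj hγ
    rw [← hn _ (mul_ne_zero hx hy), hv.mul x y hx hy, hn x hx, hn y hy, add_zsmul]
  have nadd : ∀ x y, x ≠ 0 → y ≠ 0 → x + y ≠ 0 → min (n x) (n y) ≤ n (x + y) := by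
    intro x y hx hy hxy
    have h4 := hv.add x y hx hy hxy
    rw [hn x hx, hn y hy, hn _ hxy] at h4
    rcases le_total (n x) (n y) with h5 | h5
    · rw [min_eq_left h5]
      rw [min_eq_left ((no_le hγ).2 h5)] at h4
      exact (no_le hγ).1 h4
    · rw [min_eq_right h5]
      rw [min_eq_right ((no_le hγ).2 h5)] at h4
      exact (no_le hγ).1 h4
  let w0 : Valuation K ℤᵐ⁰ :=
    { toFun := fun f => if f = 0 then 0 else WithZero.exp (-(n f))
      map_zero' := if_pos rfl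
      map_one' := by rw [if_neg one_ne_zero, n1, neg_zero, WithZero.exp_zero]
      map_mul' := by
        intro x y
        by_cases hx : x = 0
        · simp [hx]
        by_cases hy : y = 0
        · simp [hy]
        rw [if_neg hx, if_neg hy, if_neg (mul_ne_zero hx hy), nmul x y hx hy, ← WithZero.exp_add]
        congr 1
        ring
      map_add_le_max' := by
        intro x y
        by_cases hx : x = 0
        · simp [hx]
        by_cases hy : y = 0
        · simp [hy]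
        by_cases hxy : x + y = 0
        · rw [if_pos hxy]
          exact zero_le
        rw [if_neg hx, if_neg hy, if_neg hxy, le_max_iff, WithZero.exp_le_exp,
          WithZero.exp_le_exp]
        rcases min_le_iff.1 (nadd x y hx hy hxy) with h | h
        · left; omega
        · right; omega }
  have hw : ∀ f, f ≠ 0 → w0 f = WithZero.exp (-(n f)) := fun f hf => if_neg hf
  refine ⟨γ, w0, hγ, ?_, ?_⟩
  · intro x
    by_cases hx : x = 0
    · exact ⟨0, by rw [hx, map_zero]⟩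
    · obtain ⟨f, hf, hfn⟩ := h2 (-(WithZero.log x))
      refine ⟨f, ?_⟩
      have : n f = -(WithZero.log x) := no_inj hγ (by rw [← hn f hf, hfn])
      rw [hw f hf, this, neg_neg, WithZero.exp_log hx]
  · intro f hf
    rw [hw f hf, WithZero.log_exp, neg_neg]
    exact hn f hf

end Pool.Agent.F2D
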