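import Pool.Agent.Lib.MP_305fdd_al.F2.D.StmB

/-!
# MP_305fdd_al, F_2 project, section D: piece [F2D ra]
-/

set_option autoImplicit false

namespace Pool.Agent.F2D

open Pool.Agent.F2 Pool.Agent.F2Ch Pool.Agent.PSL2Z Pool.Agent.PSL2Z.BT
open scoped WithZero

section

variable {Λ E : Type} [Group Λ] [Field E] {T : Λ → E}

private theorem ra_one (hT : PC T) (x c : Λ) : T (x * c) + T (x⁻¹ * c) = T x * T c := by
  have h := hT.rel c x
  rw [hT.comm c x, hT.comm c x⁻¹] at h
  rw [h, mul_comm]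

private theorem ra_tri (hT : PC T) (g h c : Λ) :
    T (g * h * c) + T (h * g * c) = T g * T (h * c) + T h * T (g * c) +
      (T (g * h) - T g * T h) * T c := by
  have e1 := ra_one hT (g * h) c
  have e2 := ra_one hT h (g⁻¹ * c)
  have e3 := ra_one hT g c
  have e4 := ra_one hT g (c * h)
  have e5 : T ((g * h)⁻¹ * c) = T (h⁻¹ * (g⁻¹ * c)) := by
    congr 1
    group
  have e6 : T (g⁻¹ * (c * h)) = T (h * (g⁻¹ * c)) := by
    rw [← mul_assoc, hT.comm]
  have e7 : T (g * (c * h)) = T (h * g * c) := by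
    rw [← mul_assoc, hT.comm, ← mul_assoc]
  have e8 : T (c * h) = T (h * c) := hT.comm c h
  rw [e5] at e1
  rw [e6, e7, e8] at e4
  linear_combination e1 - e2 - T h * e3 + e4

end

section

variable {Λ E M : Type} [Group Λ] [Field E] [AddCommGroup M] [Module E M]
  (R : Λ →* Module.End E M) (v0 : M) (l0 : M →ₗ[E] E)

/-- the algebra -/
private abbrev ra_A : Subalgebra E (Module.End E M) := Algebra.adjoin E (Set.range R)

/-- the map from the group -/
private def ra_j : Λ →* ra_A R where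
  toFun g := ⟨R g, Algebra.subset_adjoin ⟨g, rfl⟩⟩
  map_one' := Subtype.ext (map_one R)
  map_mul' g h := Subtype.ext (map_mul R g h)

/-- the trace -/
private def ra_t : ra_A R →ₗ[E] E where
  toFun a := l0 (a.1 v0)
  map_add' a b := by
    change l0 (a.1 v0 + b.1 v0) = _
    rw [map_add]
  map_smul' c a := by
    change l0 (c • a.1 v0) = _
    rw [map_smul]
    rfl

private theorem ra_span : Submodule.span E (Set.range (ra_j R)) = ⊤ := by
  rw [eq_top_iff]
  rintro ⟨a, ha⟩ -
  induction ha using Algebra.adjoin_induction with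
  | mem x hx =>
    obtain ⟨g, rfl⟩ := hx
    exact Submodule.subset_span ⟨g, rfl⟩
  | algebraMap r =>
    have h1 : (⟨algebraMap E _ r, Subalgebra.algebraMap_mem _ r⟩ : ra_A R) =
        r • ra_j R 1 := by
      rw [map_one, ← Algebra.algebraMap_eq_smul_one]
      rfl
    rw [h1]
    exact Submodule.smul_mem _ _ (Submodule.subset_span ⟨1, rfl⟩)
  | add x y hx hy h1 h2 =>
    exact Submodule.add_mem _ h1 h2
  | mul x y hx hy h1 h2 =>
    have h3 := Submodule.mul_mem_mul h1 h2
    rw [Submodule.span_mul_span] at h3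
    refine Submodule.span_mono ?_ h3
    rintro _ ⟨_, ⟨g, rfl⟩, _, ⟨h, rfl⟩, rfl⟩
    exact ⟨g * h, map_mul _ _ _⟩

private theorem ra_ind {P : ra_A R → Prop} (h0 : ∀ g, P (ra_j R g)) (hz : P 0)
    (ha : ∀ a b, P a → P b → P (a + b)) (hs : ∀ (c : E) a, P a → P (c • a)) (a : ra_A R) :
    P a := by
  have h1 : a ∈ Submodule.span E (Set.range (ra_j R)) := by
    rw [ra_span R]
    exact Submodule.mem_top
  induction h1 using Submodule.span_induction with
  | mem y hy =>
    obtain ⟨g, rfl⟩ := hy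
    exact h0 g
  | zero => exact hz
  | add y z _ _ hy hz => exact ha _ _ hy hz
  | smul c y _ hy => exact hs _ _ hy

variable {T : Λ → E} (hT : PC T) (hRT : ∀ g, l0 (R g v0) = T g)
include hT hRT

omit hT in
private theorem ra_tj (g : Λ) : ra_t R v0 l0 (ra_j R g) = T g := hRT g

private theorem ra_comm (a b : ra_A R) : ra_t R v0 l0 (a * b) = ra_t R v0 l0 (b * a) := by
  refine ra_ind R (P := fun a => ra_t R v0 l0 (a * b) = ra_t R v0 l0 (b * a)) (fun g => ?_) ?_
    (fun x y hx hy => ?_) (fun c x hx => ?_) a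
  · refine ra_ind R (P := fun b => ra_t R v0 l0 (ra_j R g * b) = ra_t R v0 l0 (b * ra_j R g))
      (fun h => ?_) ?_ (fun x y hx hy => ?_) (fun c x hx => ?_) b
    · rw [← map_mul, ← map_mul, ra_tj R v0 l0 hRT, ra_tj R v0 l0 hRT, hT.comm]
    · rw [mul_zero, zero_mul]
    · rw [mul_add, add_mul, map_add, map_add, hx, hy]
    · rw [mul_smul_comm, smul_mul_assoc, map_smul, map_smul, hx]
  · rw [mul_zero, zero_mul]
  · rw [mul_add, add_mul, map_add, map_add, hx, hy]
  · rw [mul_smul_comm, smul_mul_assoc, map_smul, map_smul, hx]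

private theorem ra_nd (hsp : Submodule.span E (Set.range fun g => R g v0) = ⊤)
    (hsep : ∀ m, (∀ c, l0 (R c m) = 0) → m = 0) (a : ra_A R)
    (ha : ∀ b, ra_t R v0 l0 (a * b) = 0) : a = 0 := by
  apply Subtype.ext
  refine LinearMap.ext_on_range hsp fun g => ?_
  change a.1 (R g v0) = 0
  apply hsep
  intro c
  have h1 : ra_t R v0 l0 (ra_j R c * (a * ra_j R g)) = 0 := by
    rw [ra_comm R v0 l0 hT hRT, mul_assoc, ha]
  exact h1

private theorem ra_pch_aux (a b c : ra_A R) :
    ra_t R v0 l0 (a * b * c) + ra_t R v0 l0 (b * a * c) =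
      ra_t R v0 l0 a * ra_t R v0 l0 (b * c) + ra_t R v0 l0 b * ra_t R v0 l0 (a * c) +
        (ra_t R v0 l0 (a * b) - ra_t R v0 l0 a * ra_t R v0 l0 b) * ra_t R v0 l0 c := by
  refine ra_ind R (P := fun a => ra_t R v0 l0 (a * b * c) + ra_t R v0 l0 (b * a * c) =
    ra_t R v0 l0 a * ra_t R v0 l0 (b * c) + ra_t R v0 l0 b * ra_t R v0 l0 (a * c) +
      (ra_t R v0 l0 (a * b) - ra_t R v0 l0 a * ra_t R v0 l0 b) * ra_t R v0 l0 c) (fun g => ?_) ?_
    (fun x y hx hy => ?_) (fun r x hx => ?_) a
  · refine ra_ind R (P := fun b => ra_t R v0 l0 (ra_j R g * b * c) +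
      ra_t R v0 l0 (b * ra_j R g * c) =
      ra_t R v0 l0 (ra_j R g) * ra_t R v0 l0 (b * c) +
        ra_t R v0 l0 b * ra_t R v0 l0 (ra_j R g * c) +
        (ra_t R v0 l0 (ra_j R g * b) - ra_t R v0 l0 (ra_j R g) * ra_t R v0 l0 b) *
          ra_t R v0 l0 c)
      (fun h => ?_) ?_ (fun x y hx hy => ?_) (fun r x hx => ?_) b
    · refine ra_ind R (P := fun c => ra_t R v0 l0 (ra_j R g * ra_j R h * c) +
        ra_t R v0 l0 (ra_j R h * ra_j R g * c) =
        ra_t R v0 l0 (ra_j R g) * ra_t R v0 l0 (ra_j R h * c) +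
          ra_t R v0 l0 (ra_j R h) * ra_t R v0 l0 (ra_j R g * c) +
          (ra_t R v0 l0 (ra_j R g * ra_j R h) -
            ra_t R v0 l0 (ra_j R g) * ra_t R v0 l0 (ra_j R h)) * ra_t R v0 l0 c)
        (fun k => ?_) ?_ (fun x y hx hy => ?_) (fun r x hx => ?_) c
      · simp only [← map_mul, ra_tj R v0 l0 hRT]
        exact ra_tri hT g h k
      · simp only [mul_zero, map_zero, add_zero]
      · simp only [mul_add, map_add] at hx hy ⊢
        linear_combination hx + hy
      · simp only [mul_smul_comm, map_smul, smul_eq_mul] at hx ⊢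
        linear_combination r * hx
    · simp only [mul_zero, zero_mul, map_zero, add_zero, sub_zero]
    · simp only [mul_add, add_mul, map_add] at hx hy ⊢
      linear_combination hx + hy
    · simp only [mul_smul_comm, smul_mul_assoc, map_smul, smul_eq_mul] at hx ⊢
      linear_combination r * hx
  · simp only [mul_zero, zero_mul, map_zero, add_zero, sub_zero]
  · simp only [mul_add, add_mul, map_add] at hx hy ⊢
    linear_combination hx + hy
  · simp only [mul_smul_comm, smul_mul_assoc, map_smul, smul_eq_mul] at hx ⊢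
    linear_combination r * hx

private theorem ra_pch (hsp : Submodule.span E (Set.range fun g => R g v0) = ⊤)
    (hsep : ∀ m, (∀ c, l0 (R c m) = 0) → m = 0) (a b : ra_A R) :
    a * b + b * a = ra_t R v0 l0 a • b + ra_t R v0 l0 b • a +
      (ra_t R v0 l0 (a * b) - ra_t R v0 l0 a * ra_t R v0 l0 b) • (1 : ra_A R) := by
  rw [← sub_eq_zero]
  apply ra_nd R v0 l0 hT hRT hsp hsep
  intro c
  have h1 := ra_pch_aux R v0 l0 hT hRT a b c
  rw [sub_mul, add_mul, add_mul, add_mul, smul_mul_assoc, smul_mul_assoc, smul_mul_assoc,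
    one_mul, map_sub, map_add, map_add, map_add, map_smul, map_smul, map_smul, smul_eq_mul,
    smul_eq_mul, smul_eq_mul, h1, sub_self]

private theorem ra_exists (hsp : Submodule.span E (Set.range fun g => R g v0) = ⊤)
    (hsep : ∀ m, (∀ c, l0 (R c m) = 0) → m = 0) :
    ∃ (𝒜 : Type) (_ : Ring 𝒜) (_ : Algebra E 𝒜) (j : Λ →* 𝒜) (t : 𝒜 →ₗ[E] E), PAlg T j t :=
  ⟨ra_A R, inferInstance, inferInstance, ra_j R, ra_t R v0 l0, ra_tj R v0 l0 hRT,
    ra_comm R v0 l0 hT hRT, ra_nd R v0 l0 hT hRT hsp hsep, ra_pch R v0 l0 hT hRT hsp hsep,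
    ra_span R⟩

end

section

variable {Λ E : Type} [Group Λ] [Field E] {T : Λ → E}

/-- the functions `c ↦ T (g c)` -/
private def ra_phi (T : Λ → E) (g : Λ) : Λ → E := fun c => T (g * c)

/-- the space spanned by them -/
private def ra_V (T : Λ → E) : Submodule E (Λ → E) := Submodule.span E (Set.range (ra_phi T))

/-- right translation -/
private def ra_R0 (g : Λ) : (Λ → E) →ₗ[E] (Λ → E) where
  toFun f := fun c => f (c * g)
  map_add' _ _ := rfl
  map_smul' _ _ := rfl

private theorem ra_R0_phi (hT : PC T) (g h : Λ) : ra_R0 h (ra_phi T g) = ra_phi T (h * g) := by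
  funext c
  change T (g * (c * h)) = T (h * g * c)
  rw [← mul_assoc, hT.comm, ← mul_assoc]

private theorem ra_stab (hT : PC T) (h : Λ) : ∀ v ∈ ra_V T, ra_R0 h v ∈ ra_V T := by
  intro v hv
  induction hv using Submodule.span_induction with
  | mem y hy =>
    obtain ⟨g, rfl⟩ := hy
    rw [ra_R0_phi hT]
    exact Submodule.subset_span ⟨_, rfl⟩
  | zero => rw [map_zero]; exact Submodule.zero_mem _
  | add y z _ _ hy hz => rw [map_add]; exact Submodule.add_mem _ hy hz
  | smul a y _ hy => rw [map_smul]; exact Submodule.smul_mem _ _ hy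

/-- the action on `V` -/
private def ra_R (hT : PC T) : Λ →* Module.End E (ra_V T) where
  toFun g := (ra_R0 g).restrict (ra_stab hT g)
  map_one' := by
    ext v c
    change (v : Λ → E) (c * 1) = (v : Λ → E) c
    rw [mul_one]
  map_mul' g h := by
    ext v c
    change (v : Λ → E) (c * (g * h)) = (v : Λ → E) (c * g * h)
    rw [mul_assoc]

/-- the function `T` in `V` -/
private def ra_v (T : Λ → E) : ra_V T := ⟨ra_phi T 1, Submodule.subset_span ⟨1, rfl⟩⟩

/-- evaluation at `1` -/
private def ra_l (T : Λ → E) : ra_V T →ₗ[E] E where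
  toFun v := (v : Λ → E) 1
  map_add' _ _ := rfl
  map_smul' _ _ := rfl

end

theorem p_ra : S_ra := by
  intro Λ E _ _ T hT
  refine ra_exists (ra_R hT) (ra_v T) (ra_l T) hT (fun g => ?_) ?_ ?_
  · change T (1 * (1 * g)) = T g
    rw [one_mul, one_mul]
  · have h1 : ∀ g, ra_R hT g (ra_v T) = ⟨ra_phi T g, Submodule.subset_span ⟨g, rfl⟩⟩ := by
      intro g
      apply Subtype.ext
      change ra_R0 g (ra_phi T 1) = ra_phi T g
      rw [ra_R0_phi hT, mul_one]
    rw [eq_top_iff]
    rintro ⟨v, hv⟩ -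
    induction hv using Submodule.span_induction with
    | mem y hy =>
      obtain ⟨g, rfl⟩ := hy
      exact Submodule.subset_span ⟨g, h1 g⟩
    | zero => exact Submodule.zero_mem _
    | add y z hy hz h2 h3 => exact Submodule.add_mem _ h2 h3
    | smul c y hy h2 => exact Submodule.smul_mem _ c h2
  · intro m hm
    apply Subtype.ext
    funext c
    have h1 := hm c
    change (m : Λ → E) (1 * c) = 0 at h1
    rw [one_mul] at h1
    exact h1

end Pool.Agent.F2D
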