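import Pool.Agent.Lib.MP_305fdd_al.F2.D.StmB

/-!
# MP_305fdd_al, F_2 project, section D: piece [F2D rb]
-/

set_option autoImplicit false

namespace Pool.Agent.F2D

open Pool.Agent.F2 Pool.Agent.F2Ch Pool.Agent.PSL2Z Pool.Agent.PSL2Z.BT
open scoped WithZero

section

variable {E 𝒜 : Type} [Field E] [Ring 𝒜] [Algebra E 𝒜] {t : 𝒜 →ₗ[E] E}

private theorem rb_corner (hcomm : ∀ a b, t (a * b) = t (b * a))
    (hpch : ∀ a b, a * b + b * a = t a • b + t b • a + (t (a * b) - t a * t b) • (1 : 𝒜))
    {f : 𝒜} (hf : f * f = f) (htf : t f = 1) (a : 𝒜) : f * a * f = t (f * a) • f := by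
  have h1 := hpch (f * a * f) f
  have h2 : f * a * f * f = f * a * f := by rw [mul_assoc, hf]
  have h3 : f * (f * a * f) = f * a * f := by rw [← mul_assoc, ← mul_assoc, hf]
  have h4 : t (f * a * f) = t (f * a) := by rw [hcomm, ← mul_assoc, hf]
  rw [h2, h3, htf, one_smul, mul_one, h4, sub_self, zero_smul, add_zero] at h1
  exact add_right_cancel h1

end

theorem p_rb : S_rb := by
  intro E 𝒜 _ _ _ t h1 hcomm hpch ε u u' hε htε hεu huε hu'ε hεu' htuu'
  obtain ⟨ε', hε'⟩ : ∃ ε' : 𝒜, ε' = 1 - ε := ⟨_, rfl⟩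
  have hee : ε + ε' = 1 := by rw [hε', add_sub_cancel]
  have hε2 : ε' * ε' = ε' := by
    simp only [hε', mul_sub, sub_mul, hε, mul_one, one_mul, sub_self, sub_zero]
  have htε' : t ε' = 1 := by
    rw [hε', map_sub, h1, htε]
    norm_num
  have hεε' : ε * ε' = 0 := by rw [hε', mul_sub, mul_one, hε, sub_self]
  have hε'ε : ε' * ε = 0 := by rw [hε', sub_mul, one_mul, hε, sub_self]
  have huε' : u * ε' = u := by rw [hε', mul_sub, mul_one, huε, sub_zero]
  have hε'u : ε' * u = 0 := by rw [hε', sub_mul, one_mul, hεu, sub_self]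
  have hε'u' : ε' * u' = u' := by rw [hε', sub_mul, one_mul, hεu', sub_zero]
  have hu'ε' : u' * ε' = 0 := by rw [hε', mul_sub, mul_one, hu'ε, sub_self]
  have ca := rb_corner hcomm hpch hε htε
  have ca' := rb_corner hcomm hpch hε2 htε'
  have huu' : u * u' = ε := by
    have h2 := ca (u * u')
    rw [← mul_assoc, hεu, mul_assoc, hu'ε, htuu', one_smul] at h2
    exact h2
  have hu'u : u' * u = ε' := by
    have h2 := ca' (u' * u)
    rw [← mul_assoc, hε'u', mul_assoc, huε', hcomm u' u, htuu', one_smul] at h2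
    exact h2
  have cc : ∀ a, ε * a * ε' = t (u' * a) • u := by
    intro a
    have h2 := ca (a * u')
    have h3 : ε * (a * u') * ε = ε * a * u' := by
      rw [mul_assoc, mul_assoc, hu'ε, mul_assoc]
    have h4 : t (ε * (a * u')) = t (u' * a) := by
      rw [← mul_assoc, hcomm, ← mul_assoc, hu'ε]
    rw [h3, h4] at h2
    calc ε * a * ε' = ε * a * u' * u := by rw [← hu'u, ← mul_assoc]
      _ = t (u' * a) • u := by rw [h2, smul_mul_assoc, hεu]
  have cd : ∀ a, ε' * a * ε = t (u * a) • u' := by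
    intro a
    have h2 := ca (u * a)
    rw [← mul_assoc, hεu] at h2
    calc ε' * a * ε = u' * (u * a * ε) := by rw [← hu'u]; simp only [mul_assoc]
      _ = t (u * a) • u' := by rw [h2, mul_smul_comm, hu'ε]
  have hins : ∀ a b : 𝒜, a * b = a * ε * b + a * ε' * b := by
    intro a b
    rw [← add_mul, ← mul_add, hee, mul_one]
  have htu : t u = 0 := by rw [← hεu, hcomm, huε, map_zero]
  have htu' : t u' = 0 := by rw [← hu'ε, hcomm, hεu', map_zero]
  -- multiplicativity of the four entries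
  have m00 : ∀ a b, t (ε * (a * b)) = t (ε * a) * t (ε * b) + t (u' * a) * t (u * b) := by
    intro a b
    rw [← mul_assoc, hins (ε * a) b, map_add, ca, cc, smul_mul_assoc, smul_mul_assoc, map_smul,
      map_smul, smul_eq_mul, smul_eq_mul]
  have m01 : ∀ a b, t (u' * (a * b)) = t (ε * a) * t (u' * b) + t (u' * a) * t (ε' * b) := by
    intro a b
    have h2 : u' * (a * b) = u' * (ε * a * b) := by
      rw [← mul_assoc, ← mul_assoc, ← mul_assoc, hu'ε]
    rw [h2, hins (ε * a) b, mul_add, map_add, ca, cc, smul_mul_assoc, smul_mul_assoc,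
      mul_smul_comm, mul_smul_comm, map_smul, map_smul, smul_eq_mul, smul_eq_mul, ← mul_assoc,
      hu'ε, ← mul_assoc, hu'u]
  have m10 : ∀ a b, t (u * (a * b)) = t (u * a) * t (ε * b) + t (ε' * a) * t (u * b) := by
    intro a b
    have h2 : u * (a * b) = u * (ε' * a * b) := by
      rw [← mul_assoc, ← mul_assoc, ← mul_assoc, huε']
    rw [h2, hins (ε' * a) b, mul_add, map_add, cd, ca', smul_mul_assoc, smul_mul_assoc,
      mul_smul_comm, mul_smul_comm, map_smul, map_smul, smul_eq_mul, smul_eq_mul, ← mul_assoc,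
      huu', ← mul_assoc, huε']
  have m11 : ∀ a b, t (ε' * (a * b)) = t (u * a) * t (u' * b) + t (ε' * a) * t (ε' * b) := by
    intro a b
    rw [← mul_assoc, hins (ε' * a) b, map_add, cd, ca', smul_mul_assoc, smul_mul_assoc, map_smul,
      map_smul, smul_eq_mul, smul_eq_mul]
  let L : 𝒜 →ₗ[E] Matrix (Fin 2) (Fin 2) E :=
    { toFun := fun a => !![t (ε * a), t (u' * a); t (u * a), t (ε' * a)]
      map_add' := fun a b => by
        ext i j
        fin_cases i <;> fin_cases j <;> simp [mul_add]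
      map_smul' := fun c a => by
        ext i j
        fin_cases i <;> fin_cases j <;> simp }
  have hL : ∀ a, L a = !![t (ε * a), t (u' * a); t (u * a), t (ε' * a)] := fun a => rfl
  have hL1 : L 1 = 1 := by
    rw [hL, mul_one, mul_one, mul_one, mul_one, htε, htu', htu, htε', Matrix.one_fin_two]
  have hLm : ∀ a b, L (a * b) = L a * L b := by
    intro a b
    rw [hL, hL, hL, m00, m01, m10, m11, Matrix.mul_fin_two]
  refine ⟨AlgHom.ofLinearMap L hL1 hLm, ?_, ?_⟩
  · intro M
    have e0 : L ε = !![1, 0; 0, 0] := by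
      rw [hL, hε, hu'ε, huε, hε'ε, htε, htu', map_zero]
    have e1 : L u = !![0, 1; 0, 0] := by
      have h2 : u * u = 0 := by
        calc u * u = u * (ε * u) := by rw [hεu]
          _ = 0 := by rw [← mul_assoc, huε, zero_mul]
      rw [hL, hεu, htu, hu'u, htε', h2, hε'u, map_zero]
    have e2 : L u' = !![0, 0; 1, 0] := by
      have h2 : u' * u' = 0 := by
        calc u' * u' = u' * ε * u' := by rw [hu'ε]
          _ = 0 := by rw [mul_assoc, hεu', mul_zero]
      rw [hL, hεu', h2, htuu', hε'u', htu', map_zero]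
    have e3 : L ε' = !![0, 0; 0, 1] := by
      rw [hL, hεε', hu'ε', huε', htu, hε2, htε', map_zero]
    refine ⟨M 0 0 • ε + M 0 1 • u + M 1 0 • u' + M 1 1 • ε', ?_⟩
    change L (M 0 0 • ε + M 0 1 • u + M 1 0 • u' + M 1 1 • ε') = M
    rw [map_add, map_add, map_add, map_smul, map_smul, map_smul, map_smul, e0, e1, e2, e3]
    ext i j
    fin_cases i <;> fin_cases j <;> simp
  · intro a
    change (L a).trace = t a
    rw [hL, Matrix.trace_fin_two_of, ← map_add, ← add_mul, hee, one_mul]

end Pool.Agent.F2D
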