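import Pool.Agent.Lib.MP_305fdd_al.F2.D.StmB

/-!
# MP_305fdd_al, F_2 project, section D: piece [F2D rc]
-/

set_option autoImplicit false

namespace Pool.Agent.F2D

open Pool.Agent.F2 Pool.Agent.F2Ch Pool.Agent.PSL2Z Pool.Agent.PSL2Z.BT
open scoped WithZero

section

variable {E 𝒜 : Type} [Field E] [Ring 𝒜] [Algebra E 𝒜] {t : 𝒜 →ₗ[E] E}

private theorem rc_corner (hcomm : ∀ a b, t (a * b) = t (b * a))
    (hpch : ∀ a b, a * b + b * a = t a • b + t b • a + (t (a * b) - t a * t b) • (1 : 𝒜))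
    {f : 𝒜} (hf : f * f = f) (htf : t f = 1) (a : 𝒜) : f * a * f = t (f * a) • f := by
  have h1 := hpch (f * a * f) f
  have h2 : f * a * f * f = f * a * f := by rw [mul_assoc, hf]
  have h3 : f * (f * a * f) = f * a * f := by rw [← mul_assoc, ← mul_assoc, hf]
  have h4 : t (f * a * f) = t (f * a) := by rw [hcomm, ← mul_assoc, hf]
  rw [h2, h3, htf, one_smul, mul_one, h4, sub_self, zero_smul, add_zero] at h1
  exact add_right_cancel h1

private theorem rc_idem {g : 𝒜} {lam μ : E} (hlm : lam * μ = 1) (hne : lam - μ ≠ 0)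
    (hg : g * g = (lam + μ) • g - 1) :
    ((lam - μ)⁻¹ • (g - μ • (1 : 𝒜))) * ((lam - μ)⁻¹ • (g - μ • (1 : 𝒜))) =
      (lam - μ)⁻¹ • (g - μ • (1 : 𝒜)) := by
  have h1 : (g - μ • (1 : 𝒜)) * (g - μ • (1 : 𝒜)) = (lam - μ) • (g - μ • (1 : 𝒜)) := by
    have h2 : (1 : 𝒜) = (lam * μ) • (1 : 𝒜) := by rw [hlm, one_smul]
    rw [sub_mul, mul_sub, mul_sub, hg, smul_mul_assoc, one_mul, mul_smul_comm, mul_one,
      smul_mul_assoc, mul_smul_comm, mul_one]
    conv_lhs => rw [h2]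
    simp only [smul_smul]
    rw [← sub_eq_zero]
    have h3 : (lam + μ) • g - (lam * μ) • (1 : 𝒜) - μ • g - (μ • g - (μ * μ * (lam * μ)) • (1 : 𝒜)) -
        (lam - μ) • (g - μ • (1 : 𝒜)) = (μ * μ * (lam * μ) - μ * μ) • (1 : 𝒜) := by
      module
    rw [hlm] at *
    simp only [mul_one, sub_self, zero_smul] at h3 ⊢
    exact h3
  rw [smul_mul_assoc, mul_smul_comm, h1, smul_smul, smul_smul, mul_assoc, inv_mul_cancel₀ hne,
    mul_one]

end

private theorem rc_det {E : Type} [Field E] (A B : Matrix (Fin 2) (Fin 2) E) (hAB : A * B = 1)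
    (h : A + B = A.trace • (1 : Matrix (Fin 2) (Fin 2) E)) : A.det = 1 := by
  have h1 : B = A.trace • (1 : Matrix (Fin 2) (Fin 2) E) - A := by
    rw [← h, add_sub_cancel_left]
  rw [h1] at hAB
  have h2 := congrFun (congrFun hAB 0) 0
  rw [Matrix.mul_apply, Fin.sum_univ_two] at h2
  simp [Matrix.trace_fin_two] at h2
  rw [Matrix.det_fin_two]
  linear_combination h2

theorem p_rc (hra : S_ra) (hrb : S_rb) : S_rc := by
  intro Λ E _ _ T hT hirr g0 lam hlam hlne hTg0
  obtain ⟨𝒜, _, _, j, t, hP⟩ := hra Λ E T hT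
  have ht1 : t 1 = 2 := by rw [← map_one j, hP.tj, hT.one]
  have hind : ∀ (P : 𝒜 → Prop), (∀ g, P (j g)) → P 0 → (∀ a b, P a → P b → P (a + b)) →
      (∀ (c : E) a, P a → P (c • a)) → ∀ a, P a := by
    intro P h0 hz ha hs a
    have h1 : a ∈ Submodule.span E (Set.range j) := by
      rw [hP.span]
      exact Submodule.mem_top
    induction h1 using Submodule.span_induction with
    | mem y hy =>
      obtain ⟨g, rfl⟩ := hy
      exact h0 g
    | zero => exact hz
    | add y z _ _ hy hz => exact ha _ _ hy hz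
    | smul c y _ hy => exact hs _ _ hy
  have hinv : ∀ l, j l + j l⁻¹ = T l • (1 : 𝒜) := by
    intro l
    rw [← sub_eq_zero]
    apply hP.nd
    refine hind _ (fun c => ?_) ?_ (fun a b ha hb => ?_) (fun c a ha => ?_)
    · rw [sub_mul, add_mul, ← map_mul, ← map_mul, smul_mul_assoc, one_mul, map_sub, map_add,
        map_smul, hP.tj, hP.tj, hP.tj, smul_eq_mul]
      have h := hT.rel c l
      rw [hT.comm c l, hT.comm c l⁻¹] at h
      rw [h]
      ring
    · rw [mul_zero, map_zero]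
    · rw [mul_add, map_add, ha, hb, add_zero]
    · rw [mul_smul_comm, map_smul, ha, smul_zero]
  have hjinv : ∀ l, j l * j l⁻¹ = 1 := fun l => by rw [← map_mul, mul_inv_cancel, map_one]
  have hlm : lam * lam⁻¹ = 1 := mul_inv_cancel₀ hlam
  have hne : lam - lam⁻¹ ≠ 0 := sub_ne_zero.2 hlne
  have hg2 : j g0 * j g0 = (lam + lam⁻¹) • j g0 - 1 := by
    have h1 : j g0 * (j g0 + j g0⁻¹) = j g0 * (T g0 • (1 : 𝒜)) := congrArg _ (hinv g0)
    rw [mul_add, hjinv, mul_smul_comm, mul_one, hTg0] at h1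
    exact eq_sub_of_add_eq h1
  obtain ⟨ε, hεdef⟩ : ∃ ε : 𝒜, ε = (lam - lam⁻¹)⁻¹ • (j g0 - lam⁻¹ • (1 : 𝒜)) := ⟨_, rfl⟩
  have hε : ε * ε = ε := by
    rw [hεdef]
    exact rc_idem hlm hne hg2
  have htε : t ε = 1 := by
    rw [hεdef, map_smul, map_sub, map_smul, hP.tj, hTg0, ht1, smul_eq_mul, smul_eq_mul]
    have : lam + lam⁻¹ - lam⁻¹ * 2 = lam - lam⁻¹ := by ring
    rw [this, inv_mul_cancel₀ hne]
  obtain ⟨ε', hε'⟩ : ∃ ε' : 𝒜, ε' = 1 - ε := ⟨_, rfl⟩
  have hee : ε + ε' = 1 := by rw [hε', add_sub_cancel]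
  have hε2 : ε' * ε' = ε' := by
    simp only [hε', mul_sub, sub_mul, hε, mul_one, one_mul, sub_self, sub_zero]
  have htε' : t ε' = 1 := by
    rw [hε', map_sub, ht1, htε]
    norm_num
  have hεε' : ε * ε' = 0 := by rw [hε', mul_sub, mul_one, hε, sub_self]
  have hε'ε : ε' * ε = 0 := by rw [hε', sub_mul, one_mul, hε, sub_self]
  have ca := rc_corner hP.comm hP.pch hε htε
  have ca' := rc_corner hP.comm hP.pch hε2 htε'
  have hins : ∀ a b : 𝒜, a * b = a * ε * b + a * ε' * b := by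
    intro a b
    rw [← add_mul, ← mul_add, hee, mul_one]
  obtain ⟨x, y, hd⟩ : ∃ x y : Λ, t (ε * j x * ε' * j y) ≠ 0 := by
    by_contra hcon
    push Not at hcon
    have hχ : ∀ x y, t (ε * j (x * y)) = t (ε * j x) * t (ε * j y) := by
      intro x y
      rw [map_mul j, ← mul_assoc, hins (ε * j x) (j y), map_add, hcon, add_zero, ca,
        smul_mul_assoc, map_smul, smul_eq_mul]
    have hχ' : ∀ x y, t (ε' * j (x * y)) = t (ε' * j x) * t (ε' * j y) := by
      intro x y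
      have h1 : t (ε' * j x * ε * j y) = 0 := by
        have h2 : t (ε' * j x * ε * j y) = t (ε * j y * ε' * j x) := by
          rw [mul_assoc (ε' * j x), hP.comm, ← mul_assoc]
        rw [h2, hcon]
      rw [map_mul j, ← mul_assoc, hins (ε' * j x) (j y), map_add, h1, zero_add, ca',
        smul_mul_assoc, map_smul, smul_eq_mul]
    have hχ1 : t (ε * j 1) = 1 := by rw [map_one, mul_one, htε]
    have hχ1' : t (ε' * j 1) = 1 := by rw [map_one, mul_one, htε']
    have hcm : ∀ χ : Λ → E, χ 1 = 1 → (∀ x y, χ (x * y) = χ x * χ y) → ∀ g h,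
        χ (g * h * g⁻¹ * h⁻¹) = 1 := by
      intro χ h1 hm g h
      have hg : χ g * χ g⁻¹ = 1 := by rw [← hm, mul_inv_cancel, h1]
      have hh : χ h * χ h⁻¹ = 1 := by rw [← hm, mul_inv_cancel, h1]
      rw [hm, hm, hm]
      linear_combination χ h * χ h⁻¹ * hg + hh
    obtain ⟨g, h, hgh⟩ := hirr
    apply hgh
    have e1 := hcm (fun x => t (ε * j x)) hχ1 hχ g h
    have e2 := hcm (fun x => t (ε' * j x)) hχ1' hχ' g h
    have e3 : T (g * h * g⁻¹ * h⁻¹) = t (ε * j (g * h * g⁻¹ * h⁻¹)) +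
        t (ε' * j (g * h * g⁻¹ * h⁻¹)) := by
      rw [← map_add, ← add_mul, hee, one_mul, hP.tj]
    rw [e3, e1, e2]
    norm_num
  obtain ⟨R, hRs, hRt⟩ := hrb E 𝒜 t ht1 hP.comm hP.pch ε (ε * j x * ε')
    ((t (ε * j x * ε' * j y))⁻¹ • (ε' * j y * ε)) hε htε
    (by rw [← mul_assoc, ← mul_assoc, hε])
    (by rw [mul_assoc, hε'ε, mul_zero])
    (by rw [smul_mul_assoc, mul_assoc (ε' * j y), hε])
    (by rw [mul_smul_comm, ← mul_assoc, ← mul_assoc, hεε', zero_mul, zero_mul, smul_zero])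
    (by
      rw [mul_smul_comm, map_smul, smul_eq_mul]
      have h1 : t (ε * j x * ε' * (ε' * j y * ε)) = t (ε * j x * ε' * j y) := by
        have h2 : ε * j x * ε' * (ε' * j y * ε) = (ε * j x * ε' * j y) * ε := by
          rw [← mul_assoc, ← mul_assoc, mul_assoc (ε * j x), hε2]
        rw [h2, hP.comm, ← mul_assoc, ← mul_assoc, ← mul_assoc, hε]
      rw [h1, inv_mul_cancel₀ hd])
  refine ⟨((R : 𝒜 →* Matrix (Fin 2) (Fin 2) E).comp j).toHomUnits, ?_, ?_, ?_⟩
  · intro l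
    change (R (j l)).det = 1
    refine rc_det _ (R (j l⁻¹)) ?_ ?_
    · rw [← map_mul, hjinv, map_one]
    · rw [← map_add, hinv, map_smul, map_one, hRt, hP.tj]
  · intro l
    change (R (j l)).trace = T l
    rw [hRt, hP.tj]
  · intro A hA
    have h1 : ∀ a : 𝒜, (A * R a).trace = 0 := by
      refine hind _ (fun c => hA c) ?_ (fun a b ha hb => ?_) (fun c a ha => ?_)
      · rw [map_zero, mul_zero, Matrix.trace_zero]
      · rw [map_add, mul_add, Matrix.trace_add, ha, hb, add_zero]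
      · rw [map_smul, mul_smul_comm, Matrix.trace_smul, ha, smul_zero]
    have h2 : ∀ X : Matrix (Fin 2) (Fin 2) E, (A * X).trace = 0 := by
      intro X
      obtain ⟨a, rfl⟩ := hRs X
      exact h1 a
    have e00 := h2 !![1, 0; 0, 0]
    have e01 := h2 !![0, 0; 1, 0]
    have e10 := h2 !![0, 1; 0, 0]
    have e11 := h2 !![0, 0; 0, 1]
    simp [Matrix.trace_fin_two, Matrix.mul_apply] at e00 e01 e10 e11
    ext i j
    fin_cases i <;> fin_cases j
    · exact e00
    · exact e01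
    · exact e10
    · exact e11

end Pool.Agent.F2D
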