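import Pool.Agent.Lib.MP_305fdd_al.F2.D.StmB

set_option autoImplicit false

namespace Pool.Agent.F2D

open Pool.Agent.F2 Pool.Agent.F2Ch Pool.Agent.PSL2Z Pool.Agent.PSL2Z.BT
open scoped WithZero

private theorem rt_zero {E : Type} [Field E] (w : Valuation E ℤᵐ⁰) (z : E)
    (h : ∀ n : ℕ, w z ≤ WithZero.exp (-(n : ℤ))) : z = 0 := by
  by_contra hz
  have hwz : w z ≠ 0 := (Valuation.ne_zero_iff w).2 hz
  have h1 := h (-(WithZero.log (w z)) + 1).toNat
  rw [← WithZero.exp_log hwz, WithZero.exp_le_exp] at h1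
  rw [WithZero.log_exp] at h1
  omega

/-- the approximations -/
private def rt_c {E : Type} [Field E] (t0 : E) : ℕ → E
  | 0 => t0
  | n + 1 => t0 - (rt_c t0 n)⁻¹

theorem p_rt : S_rt := by
  intro E _ w hcomp t0 s hs ht0
  have hval : ∀ n, w (rt_c t0 n) = WithZero.exp s := by
    intro n
    induction n with
    | zero => exact ht0
    | succ n ih =>
      have h1 : w (rt_c t0 n)⁻¹ < w t0 := by
        rw [map_inv₀, ih, ht0, ← WithZero.exp_neg, WithZero.exp_lt_exp]
        omega
      show w (t0 - (rt_c t0 n)⁻¹) = _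
      rw [Valuation.map_sub_eq_of_lt_left w h1, ht0]
  have hne : ∀ n, rt_c t0 n ≠ 0 := by
    intro n
    rw [← Valuation.ne_zero_iff w, hval n]
    exact WithZero.exp_ne_zero
  have hstep : ∀ n : ℕ, w (rt_c t0 (n + 1) - rt_c t0 n) ≤ WithZero.exp (-(n : ℤ)) := by
    intro n
    induction n with
    | zero =>
      have h1 : rt_c t0 (0 + 1) - rt_c t0 0 = -(t0)⁻¹ := by
        show (t0 - (t0)⁻¹) - t0 = _
        ring
      rw [h1, Valuation.map_neg, map_inv₀, ht0, ← WithZero.exp_neg, WithZero.exp_le_exp]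
      push_cast
      omega
    | succ n ih =>
      have h1 : rt_c t0 (n + 1 + 1) - rt_c t0 (n + 1) =
          (rt_c t0 (n + 1) - rt_c t0 n) * (rt_c t0 n)⁻¹ * (rt_c t0 (n + 1))⁻¹ := by
        have h2 : rt_c t0 (n + 1 + 1) - rt_c t0 (n + 1) =
            (rt_c t0 n)⁻¹ - (rt_c t0 (n + 1))⁻¹ := by
          show (t0 - (rt_c t0 (n + 1))⁻¹) - (t0 - (rt_c t0 n)⁻¹) = _
          ring
        rw [h2]
        have h3 := hne n
        have h4 := hne (n + 1)
        field_simp
      rw [h1, map_mul, map_mul, map_inv₀, map_inv₀, hval, hval, ← WithZero.exp_neg]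
      calc w (rt_c t0 (n + 1) - rt_c t0 n) * WithZero.exp (-s) * WithZero.exp (-s)
          ≤ WithZero.exp (-(n : ℤ)) * WithZero.exp (-s) * WithZero.exp (-s) := by gcongr
        _ = WithZero.exp (-(n : ℤ) + -s + -s) := by rw [WithZero.exp_add, WithZero.exp_add]
        _ ≤ WithZero.exp (-((n + 1 : ℕ) : ℤ)) := by
          rw [WithZero.exp_le_exp]
          push_cast
          omega
  obtain ⟨y, hy⟩ := hcomp (rt_c t0) hstep
  have hwy : w y = WithZero.exp s := by
    have h1 : w (y - rt_c t0 0) < w (rt_c t0 0) := by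
      refine lt_of_le_of_lt (hy 0) ?_
      rw [hval 0, WithZero.exp_lt_exp]
      push_cast
      omega
    have h2 := Valuation.map_add_eq_of_lt_right w h1
    rw [sub_add_cancel, hval 0] at h2
    exact h2
  have hy0 : y ≠ 0 := by
    rw [← Valuation.ne_zero_iff w, hwy]
    exact WithZero.exp_ne_zero
  refine ⟨y, hy0, hwy, ?_⟩
  rw [← sub_eq_zero]
  refine rt_zero w _ fun n => ?_
  have h1 : y + y⁻¹ - t0 = (y - rt_c t0 (n + 1)) +
      (-(y - rt_c t0 n)) * y⁻¹ * (rt_c t0 n)⁻¹ := by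
    have h2 : rt_c t0 (n + 1) = t0 - (rt_c t0 n)⁻¹ := rfl
    rw [h2]
    have h3 := hne n
    field_simp
    ring
  rw [h1]
  refine Valuation.map_add_le w ?_ ?_
  · refine (hy (n + 1)).trans ?_
    rw [WithZero.exp_le_exp]
    push_cast
    omega
  · rw [map_mul, map_mul, map_inv₀, map_inv₀, Valuation.map_neg, hval, hwy, ← WithZero.exp_neg]
    calc w (y - rt_c t0 n) * WithZero.exp (-s) * WithZero.exp (-s)
        ≤ WithZero.exp (-(n : ℤ)) * WithZero.exp (-s) * WithZero.exp (-s) := by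
          gcongr
          exact hy n
      _ = WithZero.exp (-(n : ℤ) + -s + -s) := by rw [WithZero.exp_add, WithZero.exp_add]
      _ ≤ WithZero.exp (-(n : ℤ)) := by
        rw [WithZero.exp_le_exp]
        omega

end Pool.Agent.F2D
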