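import Pool.Agent.Lib.MP_305fdd_al.F2.D.StmB

set_option autoImplicit false

/-!
# MP_305fdd_al, F_2 project, piece [F2D sd]
-/

namespace Pool.Agent.F2D

open Pool.Agent.F2 Pool.Agent.F2Ch Pool.Agent.PSL2Z Pool.Agent.PSL2Z.BT
open scoped WithZero

private lemma sd_mul {E : Type} [Field E] {w : Valuation E ℤᵐ⁰} {x y : E} {m n : ℤ}
    (hx : w x ≤ WithZero.exp m) (hy : w y < WithZero.exp n) : w (x * y) < WithZero.exp (m + n) := by
  rw [map_mul, WithZero.exp_add]
  calc w x * w y ≤ WithZero.exp m * w y := mul_le_mul_left hx _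
    _ < WithZero.exp m * WithZero.exp n := mul_lt_mul_of_pos_left hy WithZero.exp_pos

/-- cancel a factor of known value -/
private lemma sd_cancel {E : Type} [Field E] {w : Valuation E ℤᵐ⁰} {x z : E} {a b : ℤ}
    (hz : w z = WithZero.exp b) (h : w (x * z) ≤ WithZero.exp a) :
    w x ≤ WithZero.exp (a - b) := by
  rw [map_mul, hz] at h
  by_contra hc
  rw [not_le] at hc
  have h1 : WithZero.exp (a - b) * WithZero.exp b < w x * WithZero.exp b :=
    mul_lt_mul_of_pos_right hc WithZero.exp_pos
  rw [← WithZero.exp_add, sub_add_cancel] at h1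
  exact absurd h (not_le.2 h1)

theorem p_sd : S_sd := by
  intro E _ w hw B h N hN hor h10 h11
  rintro ⟨n, hn⟩
  set M' := B • mkV w h 0 with hM'
  have e1 : M' = mkV w (ht M') (pos M') := eq_mkV M'
  set h' := ht M' with hh'
  set y := pos M' with hy
  rw [e1, iterate_up_mkV hw, mkV_eq_iff hw] at hn
  obtain ⟨hn1, hn2⟩ := hn
  rw [sub_zero, hn1] at hn2
  -- images of vectors
  have key : ∀ v ∈ S w ((h + 1) / 2) (-(h / 2)) 0,
      B.val.val.mulVec v ∈ S w ((h' + 1) / 2) (-(h' / 2)) y := by
    intro v hv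
    have h1 : v ∈ (mkV w h 0).1 := hv
    have h2 := (mulVec_mem (g := B)).2 h1
    rw [← hM', e1] at h2
    exact h2
  obtain ⟨x, hx⟩ := hw (WithZero.exp ((h + 1) / 2))
  obtain ⟨z, hz⟩ := hw (WithZero.exp (-(h / 2)))
  have k1 := (key ![x, 0] (by simp [mem_S, hx])).1
  have k2 := (key ![0, z] (by simp [mem_S, hz])).1
  simp only [Matrix.mulVec, dotProduct, Fin.sum_univ_two, Matrix.cons_val_zero,
    Matrix.cons_val_one, mul_zero, add_zero, zero_add] at k1 k2
  have k1' : w ((ent B 0 0 - y * ent B 1 0) * x) ≤ WithZero.exp ((h + 1) / 2) := by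
    have e : (ent B 0 0 - y * ent B 1 0) * x =
      B.val.val 0 0 * x - y * (B.val.val 1 0 * x) := by unfold ent; ring
    rw [e]
    exact k1.trans (WithZero.exp_le_exp.2 (by omega))
  have k2' : w ((ent B 0 1 - y * ent B 1 1) * z) ≤ WithZero.exp ((h + 1) / 2) := by
    have e : (ent B 0 1 - y * ent B 1 1) * z =
      B.val.val 0 1 * z - y * (B.val.val 1 1 * z) := by unfold ent; ring
    rw [e]
    exact k2.trans (WithZero.exp_le_exp.2 (by omega))
  have c1 := sd_cancel hx k1'
  have c2 := sd_cancel hz k2'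
  have d1 : w (y * ent B 1 0) < WithZero.exp N := by
    have := sd_mul hn2 h10
    rwa [show h + (N - h) = N by ring] at this
  have d2 : w (y * ent B 1 1) < WithZero.exp (N + h) := by
    have := sd_mul hn2 h11
    rwa [show h + N = N + h by ring] at this
  rcases hor with h00 | h01
  · have e : ent B 0 0 = (ent B 0 0 - y * ent B 1 0) + y * ent B 1 0 := by ring
    have g : w (ent B 0 0) < WithZero.exp N := by
      rw [e]
      exact Valuation.map_add_lt w (c1.trans_lt (WithZero.exp_lt_exp.2 (by omega))) d1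
    exact absurd h00 g.ne
  · have e : ent B 0 1 = (ent B 0 1 - y * ent B 1 1) + y * ent B 1 1 := by ring
    have g : w (ent B 0 1) < WithZero.exp (N + h) := by
      rw [e]
      exact Valuation.map_add_lt w (c2.trans_lt (WithZero.exp_lt_exp.2 (by omega))) d2
    exact absurd h01 g.ne

end Pool.Agent.F2D
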