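import Pool.Agent.Lib.MP_305fdd_al.F2.D.StmB

set_option autoImplicit false

namespace Pool.Agent.F2D

open Pool.Agent.F2 Pool.Agent.F2Ch Pool.Agent.PSL2Z Pool.Agent.PSL2Z.BT
open scoped WithZero

theorem p_se (hrc : S_rc) (hcp : S_cp) (hrt : S_rt) (hno : S_no) : S_se := by
  intro Λ K Γ _ _ _ _ _ T v hPC hIrr hv hD hex
  obtain ⟨g0, hg0⟩ := hex
  obtain ⟨γ, w0, hγ, hw0, hval⟩ := hno K Γ v hv hD ⟨T g0, hg0⟩
  obtain ⟨E, _, _, w, hext, hdense, hcomp⟩ := hcp K w0 hw0
  have hT0 : T g0 ≠ 0 := by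
    intro h
    rw [h, hv.zero] at hg0
    exact lt_irrefl _ hg0
  have hw00 : w0 (T g0) ≠ 0 := (Valuation.ne_zero_iff w0).2 hT0
  set s := WithZero.log (w0 (T g0)) with hs
  have hs1 : 1 ≤ s := by
    by_contra hlt
    have h1 : (0 : ℤ) ≤ -s := by omega
    have h2 : 0 ≤ (-s) • γ := zsmul_nonneg hγ.le h1
    rw [hval _ hT0] at hg0
    exact absurd hg0 (not_lt.2 h2)
  have hwT : w (algebraMap K E (T g0)) = WithZero.exp s := by
    rw [hext, hs, WithZero.exp_log hw00]
  obtain ⟨y, hy0, hyv, hyt⟩ := hrt E w hcomp _ s hs1 hwT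
  have hne : y ≠ y⁻¹ := by
    intro h
    have h1 : w y = w y⁻¹ := congrArg w h
    rw [map_inv₀, hyv, ← WithZero.exp_neg] at h1
    have h2 := WithZero.exp_injective h1
    omega
  have hPC' : PC (fun l => algebraMap K E (T l)) := by
    refine ⟨?_, ?_, ?_⟩
    · simp only [hPC.one]
      exact map_ofNat _ 2
    · intro g h
      simp only [hPC.comm g h]
    · intro g h
      change algebraMap K E (T (g * h)) + algebraMap K E (T (g * h⁻¹)) =
        algebraMap K E (T g) * algebraMap K E (T h)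
      rw [← map_add, ← map_mul, hPC.rel]
  have hIrr' : Irr (fun l => algebraMap K E (T l)) := by
    obtain ⟨g, h, hgh⟩ := hIrr
    refine ⟨g, h, fun he => hgh ?_⟩
    apply (algebraMap K E).injective
    simp only at he
    rw [he]
    exact (map_ofNat _ 2).symm
  obtain ⟨ρ, hdet, htr, hsp⟩ := hrc Λ E _ hPC' hIrr' g0 y hy0 hne hyt.symm
  have hmem : ∀ l, ρ l ∈ Gw w := by
    intro l
    change w (ρ l).val.det = 1
    rw [hdet l, map_one]
  refine ⟨E, inferInstance, inferInstance, w, γ, ρ.codRestrict (Gw w) hmem, ?_⟩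
  refine ⟨?_, hdet, htr, hsp, hγ, ?_, hdense⟩
  · intro c
    obtain ⟨a, ha⟩ := hw0 c
    exact ⟨algebraMap K E a, by rw [hext, ha]⟩
  · intro f hf
    rw [hext]
    exact hval f hf

end Pool.Agent.F2D
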