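import Pool.Agent.Lib.MP_305fdd_al.F2.D.StmT

/-!
# MP_305fdd_al, F_2 project, section D: piece t1
-/

set_option autoImplicit false

namespace Pool.Agent.F2D

open Pool.Agent.F2 Pool.Agent.F2Ch Pool.Agent.PSL2Z Pool.Agent.PSL2Z.BT
open scoped WithZero

theorem p_t1 : S_t1 := by
  intro V X hconn hcut
  refine ⟨hconn, ?_⟩
  rw [SimpleGraph.isAcyclic_iff_forall_adj_isBridge]
  intro u v huv
  obtain ⟨S, hu, hv, hS⟩ := hcut u v huv
  rw [SimpleGraph.isBridge_iff]
  intro hr
  obtain ⟨p⟩ := hr.symm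
  have key : ∀ (a b : V), (X \ SimpleGraph.fromEdgeSet {s(u, v)}).Walk a b → a ∈ S → b ∈ S := by
    intro a b q
    induction q with
    | nil => exact id
    | @cons a b c h q ih =>
      intro ha
      apply ih
      by_contra hb
      rw [SimpleGraph.sdiff_adj] at h
      obtain ⟨h1, h2⟩ := h
      obtain ⟨e1, e2⟩ := hS b a h1.symm hb ha
      apply h2
      rw [SimpleGraph.fromEdgeSet_adj]
      refine ⟨?_, h1.ne⟩
      rw [Set.mem_singleton_iff, e1, e2]
      exact Sym2.eq_swap
  exact hu (key v u p hv)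

end Pool.Agent.F2D
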