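import Pool.Agent.Lib.MP_305fdd_al.F2.D.StmT

set_option autoImplicit false

namespace Pool.Agent.F2D

open Pool.Agent.F2 Pool.Agent.F2Ch Pool.Agent.PSL2Z Pool.Agent.PSL2Z.BT
open scoped WithZero

theorem p_t2 : S_t2 := by
  intro V X hX u v huv
  have hbr : X.IsBridge s(u, v) :=
    SimpleGraph.isAcyclic_iff_forall_adj_isBridge.1 hX.isAcyclic huv
  rw [SimpleGraph.isBridge_iff] at hbr
  refine ⟨{x | (X.deleteEdges {s(u, v)}).Reachable v x}, fun h => hbr h.symm,
    SimpleGraph.Reachable.refl v, ?_⟩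
  intro a b hab ha hb
  have hs : s(a, b) = s(u, v) := by
    by_contra hne
    refine ha (SimpleGraph.Reachable.trans hb (SimpleGraph.Adj.reachable ?_))
    rw [SimpleGraph.deleteEdges_adj]
    refine ⟨hab.symm, fun h => hne ?_⟩
    rw [Set.mem_singleton_iff] at h
    rw [← h, Sym2.eq_swap]
  rcases Sym2.eq_iff.1 hs with h | h
  · exact h
  · exact absurd (by rw [h.1]; exact SimpleGraph.Reachable.refl v) ha

end Pool.Agent.F2D
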