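import Pool.Agent.Lib.MP_305fdd_al.F2.D.StmT

set_option autoImplicit false

namespace Pool.Agent.F2D

open Pool.Agent.F2 Pool.Agent.F2Ch Pool.Agent.PSL2Z Pool.Agent.PSL2Z.BT
open scoped WithZero

private def t3_wp {V F : Type} [Group F] {X : SimpleGraph V} (c : V → V → F) :
    {u v : V} → X.Walk u v → F
  | _, _, .nil => 1
  | a, _, .cons (v := b) _ q => c a b * t3_wp c q

private theorem t3_append {V F : Type} [Group F] {X : SimpleGraph V} (c : V → V → F) {u v w : V}
    (p : X.Walk u v) (q : X.Walk v w) : t3_wp c (p.append q) = t3_wp c p * t3_wp c q := by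
  induction p with
  | nil => simp [t3_wp]
  | cons h p ih => simp [t3_wp, ih, mul_assoc]

private theorem t3_single {V F : Type} [Group F] {X : SimpleGraph V} (c : V → V → F) {u v : V}
    (h : X.Adj u v) : t3_wp c (SimpleGraph.Walk.cons h SimpleGraph.Walk.nil) = c u v := by
  simp [t3_wp]

theorem p_t3 : S_t3 := by
  classical
  intro V F _ X hX c hc
  obtain ⟨v0⟩ := hX.isConnected.nonempty
  have hu : ∀ {a b : V} (p q : X.Walk a b), p.IsPath → q.IsPath → p = q := by
    intro a b p q hp hq
    have := hX.isAcyclic.path_unique ⟨p, hp⟩ ⟨q, hq⟩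
    exact congrArg Subtype.val this
  choose p hp hp' using fun v => hX.existsUnique_path v0 v
  refine ⟨fun v => t3_wp c (p v), ?_⟩
  intro u v h
  show t3_wp c (p v) = t3_wp c (p u) * c u v
  by_cases hv : v ∈ (p u).support
  · have h1 : (p u).takeUntil v hv = p v := hu _ _ ((hp u).takeUntil hv) (hp v)
    have h2 : (p u).dropUntil v hv = SimpleGraph.Walk.cons h.symm SimpleGraph.Walk.nil := by
      refine hu _ _ ((hp u).dropUntil hv) ?_
      simp [SimpleGraph.Walk.cons_isPath_iff, h.ne']
    have h3 : t3_wp c (p u) = t3_wp c (p v) * c v u := by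
      rw [← (p u).take_spec hv, t3_append, h1, h2, t3_single]
    rw [h3, hc u v h]
    simp
  · have h1 : (p u).concat h = p v := hu _ _ ((hp u).concat hv h) (hp v)
    rw [← h1, SimpleGraph.Walk.concat_eq_append, t3_append, t3_single]

end Pool.Agent.F2D
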