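import Pool.Agent.Lib.MP_305fdd_al.F2.D.StmT

set_option autoImplicit false

namespace Pool.Agent.F2D

open Pool.Agent.F2 Pool.Agent.F2Ch Pool.Agent.PSL2Z Pool.Agent.PSL2Z.BT
open scoped WithZero

private theorem t4_dpd (x : Multiplicative (ℤ × ℤ)) (a b : ℤ) : Dpd (x ^ a) (x ^ b) := by
  unfold Dpd
  rw [toAdd_zpow, toAdd_zpow]
  simp only [Prod.smul_fst, Prod.smul_snd, smul_eq_mul]
  ring

private theorem t4_cyc {ι : Type} [Subsingleton ι] (i : ι) (x : FreeGroup ι) :
    ∃ a : ℤ, x = FreeGroup.of i ^ a := by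
  induction x using FreeGroup.induction_on with
  | C1 => exact ⟨0, by simp⟩
  | of j => exact ⟨1, by rw [zpow_one, Subsingleton.elim j i]⟩
  | inv_of j _ => exact ⟨-1, by rw [zpow_neg, zpow_one, Subsingleton.elim j i]⟩
  | mul a b ha hb =>
    obtain ⟨m, hm⟩ := ha
    obtain ⟨n, hn⟩ := hb
    exact ⟨m + n, by rw [hm, hn, zpow_add]⟩

theorem p_t4 : S_t4 := by
  classical
  intro Λ S _ φ χ g1 g2 hdep
  obtain ⟨ι, ⟨b⟩⟩ := (inferInstance : IsFreeGroup φ.range)
  let e : φ.range ≃* FreeGroup ι := b.repr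
  let ψ : Λ →* FreeGroup ι := e.toMonoidHom.comp φ.rangeRestrict
  have hψ : Function.Surjective ψ := e.surjective.comp φ.rangeRestrict_surjective
  let χ' : FreeGroup ι →* Multiplicative (ℤ × ℤ) :=
    (χ.comp φ.range.subtype).comp e.symm.toMonoidHom
  have hχ : ∀ l, χ' (ψ l) = χ (φ l) := by
    intro l
    show χ (φ.range.subtype (e.symm (e (φ.rangeRestrict l)))) = χ (φ l)
    rw [e.symm_apply_apply]
    rfl
  by_cases hι : ∃ s t : ι, s ≠ t
  · obtain ⟨s, t, hst⟩ := hι
    let θ : FreeGroup ι →* FreeGroup (Fin 2) := FreeGroup.lift fun i =>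
      if i = s then FreeGroup.of 0 else if i = t then FreeGroup.of 1 else 1
    have hθ : Function.Surjective θ := by
      rw [← MonoidHom.range_eq_top, eq_top_iff, ← FreeGroup.closure_range_of, Subgroup.closure_le]
      rintro _ ⟨j, rfl⟩
      fin_cases j
      · refine ⟨FreeGroup.of s, ?_⟩
        show θ (FreeGroup.of s) = FreeGroup.of 0
        rw [FreeGroup.lift_apply_of, if_pos rfl]
      · refine ⟨FreeGroup.of t, ?_⟩
        show θ (FreeGroup.of t) = FreeGroup.of 1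
        rw [FreeGroup.lift_apply_of, if_neg (Ne.symm hst), if_pos rfl]
    exact ⟨θ.comp ψ, hθ.comp hψ⟩
  · exfalso
    have hsub : Subsingleton ι := ⟨fun s t => by
      by_contra h
      exact hι ⟨s, t, h⟩⟩
    apply hdep
    rw [← hχ, ← hχ]
    rcases isEmpty_or_nonempty ι with he | ⟨⟨i⟩⟩
    · have h1 : ψ g1 = 1 := Subsingleton.elim _ _
      have h2 : ψ g2 = 1 := Subsingleton.elim _ _
      rw [h1, h2, map_one]
      have := t4_dpd 1 0 0
      simpa using this
    · obtain ⟨m, hm⟩ := t4_cyc i (ψ g1)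
      obtain ⟨n, hn⟩ := t4_cyc i (ψ g2)
      rw [hm, hn, map_zpow, map_zpow]
      exact t4_dpd _ _ _

end Pool.Agent.F2D
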