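import Pool.Agent.Lib.MP_305fdd_al.F2.D.StmT

/-!
# MP_305fdd_al, F_2 project, section D: piece t5
-/

set_option autoImplicit false

namespace Pool.Agent.F2D

open Pool.Agent.F2 Pool.Agent.F2Ch Pool.Agent.PSL2Z Pool.Agent.PSL2Z.BT
open scoped WithZero

private theorem t5_snd {V : Type} {X : SimpleGraph V} {v u w : V} (p : X.Walk v u) (h : X.Adj u w)
    (hne : u ≠ v) : (p.concat h).snd = p.snd := by
  cases p with
  | nil => exact absurd rfl hne
  | cons h' q =>
    rw [SimpleGraph.Walk.concat_cons, SimpleGraph.Walk.snd_cons, SimpleGraph.Walk.snd_cons]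

theorem p_t5 : S_t5 := by
  intro V X hX v
  choose p hp _ using fun u => hX.existsUnique_path v u
  refine ⟨fun u => (p u).snd, fun u h => ?_, fun u u' h hu hu' => ?_⟩
  · have h1 : (SimpleGraph.Walk.cons h SimpleGraph.Walk.nil : X.Walk v u).IsPath := by
      simp [h.ne]
    have h2 := (hX.existsUnique_path v u).unique (hp u) h1
    show (p u).snd = u
    rw [h2, SimpleGraph.Walk.snd_cons]
  · show (p u).snd = (p u').snd
    by_cases h1 : u ∈ (p u').support
    · rw [hX.isAcyclic.path_concat (hp u) (hp u') h h1, t5_snd _ _ hu]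
    · have h2 := hX.isAcyclic.mem_support_of_ne_mem_support_of_adj_of_isPath (hp u) (hp u') h h1
      rw [hX.isAcyclic.path_concat (hp u') (hp u) h.symm h2, t5_snd _ _ hu']

end Pool.Agent.F2D
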