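import Pool.Agent.Lib.MP_305fdd_al.F2.D.StmT

/-!
# MP_305fdd_al, F_2 project, section D: piece t6
-/

set_option autoImplicit false

namespace Pool.Agent.F2D

open Pool.Agent.F2 Pool.Agent.F2Ch Pool.Agent.PSL2Z Pool.Agent.PSL2Z.BT
open scoped WithZero

private theorem t6_conn {V P : Type} (X : SimpleGraph V) (Y : SimpleGraph P) (a : V → V → P)
    (hX : X.Connected) (hY : Y.Connected) : (blow X Y a).Connected := by
  have hfib : ∀ v x y, (blow X Y a).Reachable (v, x) (v, y) := by
    intro v x y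
    obtain ⟨q⟩ := hY.preconnected x y
    induction q with
    | nil => exact SimpleGraph.Reachable.refl _
    | @cons x' y' z' h _ ih =>
      exact (SimpleGraph.Adj.reachable
        (show (blow X Y a).Adj (v, x') (v, y') from Or.inl ⟨rfl, h⟩)).trans ih
  have hbase : ∀ u v, X.Reachable u v → ∀ x y, (blow X Y a).Reachable (u, x) (v, y) := by
    rintro u v ⟨q⟩
    induction q with
    | nil => exact hfib _
    | @cons u v' w h _ ih =>
      intro x y
      exact (hfib u x (a u v')).trans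
        ((SimpleGraph.Adj.reachable (show (blow X Y a).Adj (u, a u v') (v', a v' u) from
          Or.inr ⟨h, rfl, rfl⟩)).trans (ih _ y))
  have : Nonempty V := hX.nonempty
  have : Nonempty P := hY.nonempty
  exact ⟨fun s t => hbase s.1 t.1 (hX.preconnected _ _) s.2 t.2⟩

theorem p_t6 (ht1 : S_t1) (ht2 : S_t2) (ht5 : S_t5) : S_t6 := by
  intro V P X Y a hX hY
  classical
  refine ht1 _ _ (t6_conn X Y a hX.connected hY.connected) ?_
  rintro ⟨u, x⟩ ⟨v, y⟩ (⟨h1, h2⟩ | ⟨h1, h2, h3⟩)
  · obtain rfl : u = v := h1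
    obtain ⟨S, hS1, hS2, hS3⟩ := ht2 P Y hY x y h2
    obtain ⟨n, hn1, hn2⟩ := ht5 V X hX u
    let ret : V × P → P := fun s => if s.1 = u then s.2 else a u (n s.1)
    have ret1 : ∀ s : V × P, s.1 = u → ret s = s.2 := fun s h => if_pos h
    have ret2 : ∀ s : V × P, s.1 ≠ u → ret s = a u (n s.1) := fun s h => if_neg h
    refine ⟨{s | ret s ∈ S}, ?_, ?_, ?_⟩
    · show ret (u, x) ∉ S
      rw [ret1 _ rfl]
      exact hS1
    · show ret (u, y) ∈ S
      rw [ret1 _ rfl]
      exact hS2
    · rintro ⟨s1, s2⟩ ⟨t1, t2⟩ (⟨e1, e2⟩ | ⟨e1, e2, e3⟩) hs ht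
      · obtain rfl : s1 = t1 := e1
        change ret (s1, s2) ∉ S at hs
        change ret (s1, t2) ∈ S at ht
        by_cases hu : s1 = u
        · rw [ret1 _ hu] at hs ht
          obtain ⟨e3, e4⟩ := hS3 s2 t2 e2 hs ht
          subst hu e3 e4
          exact ⟨rfl, rfl⟩
        · rw [ret2 _ hu] at hs ht
          exact absurd ht hs
      · change ret (s1, s2) ∉ S at hs
        change ret (t1, t2) ∈ S at ht
        change X.Adj s1 t1 at e1
        change s2 = a s1 t1 at e2
        change t2 = a t1 s1 at e3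
        have key : ret (s1, s2) = ret (t1, t2) := by
          by_cases hs1 : s1 = u
          · have ht1 : t1 ≠ u := fun h => e1.ne (hs1.trans h.symm)
            rw [ret1 _ hs1, ret2 _ ht1]
            show s2 = a u (n t1)
            rw [hn1 t1 (hs1 ▸ e1), e2, hs1]
          · by_cases ht1 : t1 = u
            · rw [ret2 _ hs1, ret1 _ ht1]
              show a u (n s1) = t2
              rw [hn1 s1 (ht1 ▸ e1.symm), e3, ht1]
            · rw [ret2 _ hs1, ret2 _ ht1]
              show a u (n s1) = a u (n t1)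
              rw [hn2 s1 t1 e1 hs1 ht1]
        exact absurd (key ▸ ht) hs
  · change X.Adj u v at h1
    change x = a u v at h2
    change y = a v u at h3
    obtain ⟨S, hS1, hS2, hS3⟩ := ht2 V X hX u v h1
    refine ⟨{s | s.1 ∈ S}, hS1, hS2, ?_⟩
    rintro ⟨s1, s2⟩ ⟨t1, t2⟩ (⟨e1, e2⟩ | ⟨e1, e2, e3⟩) hs ht
    · obtain rfl : s1 = t1 := e1
      exact absurd ht hs
    · change X.Adj s1 t1 at e1
      change s2 = a s1 t1 at e2
      change t2 = a t1 s1 at e3
      obtain ⟨e4, e5⟩ := hS3 s1 t1 e1 hs ht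
      subst e4 e5 h2 h3 e2 e3
      exact ⟨rfl, rfl⟩

end Pool.Agent.F2D
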