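import Pool.Agent.Lib.MP_305fdd_al.F2.D.StmB

set_option autoImplicit false

namespace Pool.Agent.F2D

open Pool.Agent.F2 Pool.Agent.F2Ch Pool.Agent.PSL2Z Pool.Agent.PSL2Z.BT
open scoped WithZero

section

variable {E : Type} [Field E] (w : Valuation E ℤᵐ⁰)

/-- the maximal ideal -/
private def va_I : Ideal w.integer where
  carrier := {x | w (x : E) < 1}
  add_mem' := by
    intro a b ha hb
    exact w.map_add_lt ha hb
  zero_mem' := by
    change w ((0 : w.integer) : E) < 1
    rw [ZeroMemClass.coe_zero, map_zero]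
    exact zero_lt_one
  smul_mem' := by
    intro c x hx
    change w ((c : E) * (x : E)) < 1
    rw [map_mul]
    exact lt_of_le_of_lt (mul_le_of_le_one_left' c.2) hx

private theorem va_mem (x : w.integer) : x ∈ va_I w ↔ w (x : E) < 1 := Iff.rfl

private theorem va_max : (va_I w).IsMaximal := by
  rw [Ideal.isMaximal_iff]
  refine ⟨?_, ?_⟩
  · rw [va_mem]
    simp
  · intro J x _ hx hxJ
    rw [va_mem, not_lt] at hx
    have h1 : w (x : E) = 1 := le_antisymm x.2 hx
    have h0 : (x : E) ≠ 0 := by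
      intro h
      rw [h, map_zero] at h1
      exact zero_ne_one h1
    have h2 : w ((x : E)⁻¹) ≤ 1 := by
      rw [map_inv₀, h1, inv_one]
    have h3 : (⟨(x : E)⁻¹, h2⟩ : w.integer) * x = 1 := Subtype.ext (inv_mul_cancel₀ h0)
    rw [← h3]
    exact J.mul_mem_left _ hxJ

/-- existence of the residue field -/
private theorem va_res : ∃ (κ : Type) (_ : Field κ) (red : E → κ), IsRed w red := by
  classical
  have hmax := va_max w
  let F : Field (w.integer ⧸ va_I w) := Ideal.Quotient.field (va_I w)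
  refine ⟨w.integer ⧸ va_I w, F,
    fun x => if h : w x ≤ 1 then Ideal.Quotient.mk (va_I w) ⟨x, h⟩ else 0, ?_, ?_, ?_, ?_, ?_⟩
  · have h : w (1 : E) ≤ 1 := by rw [map_one]
    rw [dif_pos h]
    exact map_one (Ideal.Quotient.mk (va_I w))
  · intro x y hx hy
    have h : w (x + y) ≤ 1 := w.map_add_le hx hy
    rw [dif_pos h, dif_pos hx, dif_pos hy]
    exact map_add (Ideal.Quotient.mk (va_I w)) ⟨x, hx⟩ ⟨y, hy⟩
  · intro x y hx hy
    have h : w (x * y) ≤ 1 := by
      rw [map_mul]
      exact mul_le_one' hx hy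
    rw [dif_pos h, dif_pos hx, dif_pos hy]
    exact map_mul (Ideal.Quotient.mk (va_I w)) ⟨x, hx⟩ ⟨y, hy⟩
  · intro x hx
    rw [dif_pos hx]
    exact Ideal.Quotient.eq_zero_iff_mem
  · intro c
    obtain ⟨x, rfl⟩ := Ideal.Quotient.mk_surjective c
    refine ⟨x, x.2, ?_⟩
    have h : w (x : E) ≤ 1 := x.2
    rw [dif_pos h]

end

section

variable {K Γ : Type} [Field K] [AddCommGroup Γ] [LinearOrder Γ] [IsOrderedAddMonoid Γ]

private theorem va_one {V : K → Γ} (hV : IsV V) : V 1 = 0 := by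
  have := hV.mul 1 1 one_ne_zero one_ne_zero
  rw [mul_one] at this
  exact left_eq_add.1 this

private theorem va_neg {V : K → Γ} (hV : IsV V) (x : K) : V (-x) = V x := by
  by_cases hx : x = 0
  · rw [hx, neg_zero]
  have h1 : V (-1) = 0 := by
    have := hV.mul (-1) (-1) (neg_ne_zero.2 one_ne_zero) (neg_ne_zero.2 one_ne_zero)
    rw [neg_mul_neg, one_mul, va_one hV] at this
    by_contra h
    rcases lt_or_gt_of_ne h with h | h
    · exact absurd this.symm (add_neg h h).ne
    · exact absurd this.symm (add_pos h h).ne'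
  have := hV.mul (-1) x (neg_ne_zero.2 one_ne_zero) hx
  rw [neg_one_mul, h1, zero_add] at this
  exact this

private theorem va_inv {V : K → Γ} (hV : IsV V) {x : K} (hx : x ≠ 0) : V x⁻¹ = - V x := by
  have := hV.mul x x⁻¹ hx (inv_ne_zero hx)
  rw [mul_inv_cancel₀ hx, va_one hV] at this
  exact (neg_eq_of_add_eq_zero_right this.symm).symm

/-- `V (1 + e) = 0` if `e = 0` or `V e > 0` -/
private theorem va_one_add {V : K → Γ} (hV : IsV V) {e : K} (he : e = 0 ∨ 0 < V e)
    (h : 1 + e ≠ 0) : V (1 + e) = 0 := by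
  rcases he with rfl | he
  · rw [add_zero, va_one hV]
  by_cases he0 : e = 0
  · rw [he0, add_zero, va_one hV]
  apply le_antisymm
  · by_contra hlt
    push Not at hlt
    have h1 := hV.add (1 + e) (-e) h (neg_ne_zero.2 he0) (by rw [add_neg_cancel_right]; exact one_ne_zero)
    rw [add_neg_cancel_right, va_one hV, va_neg hV] at h1
    exact absurd h1 (not_le.2 (lt_min hlt he))
  · have h1 := hV.add 1 e one_ne_zero he0 h
    rw [va_one hV] at h1
    exact (le_min le_rfl he.le).trans h1

end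

theorem p_va (hno : S_no) (hmo : S_mo) : S_va := by
  classical
  intro Λ K Γ Γ' E _ _ _ _ _ _ _ _ _ _ T v V γ w ρ hv hV hM hpos hD hex
  obtain ⟨κ, _, red, hred⟩ := va_res w
  obtain ⟨hm1, hm2, hm3, -⟩ := hmo Λ K Γ E T v γ w ρ hv hM
  have hval : ∀ f : K, f ≠ 0 → w (algebraMap K E f) < 1 → 0 < v f := by
    intro f hf hlt
    have h1 : 0 ≤ v f := (hm1 f).2 hlt.le
    refine lt_of_le_of_ne h1 fun h => ?_
    exact hlt.ne ((hm3 f hf).1 h.symm)
  -- lifts
  have hlift : ∀ c : κ, ∃ f : K, w (algebraMap K E f) ≤ 1 ∧ red (algebraMap K E f) = c := by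
    intro c
    obtain ⟨x, hx, rfl⟩ := hred.surj c
    obtain ⟨a, ha⟩ := hM.dense x 0
    rw [WithZero.exp_zero] at ha
    have ha1 : w (algebraMap K E a) ≤ 1 := by
      have : algebraMap K E a = x + -(x - algebraMap K E a) := by ring
      rw [this]
      exact w.map_add_le hx (by rw [Valuation.map_neg]; exact ha.le)
    refine ⟨a, ha1, ?_⟩
    have h1 : red x = red (algebraMap K E a) + red (x - algebraMap K E a) := by
      rw [← hred.add _ _ ha1 ha.le]
      congr 1
      ring
    rw [h1, (hred.zero _ ha.le).2 ha, add_zero]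
  have hl1 : ∀ f : K, w (algebraMap K E f) ≤ 1 → red (algebraMap K E f) ≠ 0 →
      f ≠ 0 ∧ v f = 0 ∧ w (algebraMap K E f) = 1 := by
    intro f hf hne
    have h1 : ¬ w (algebraMap K E f) < 1 := fun h => hne ((hred.zero _ hf).2 h)
    have h2 : w (algebraMap K E f) = 1 := le_antisymm hf (not_lt.1 h1)
    have h3 : f ≠ 0 := by
      rintro rfl
      rw [map_zero, map_zero] at h2
      exact zero_ne_one h2
    exact ⟨h3, (hm3 f h3).2 h2, h2⟩
  have hindep : ∀ f f' : K, w (algebraMap K E f) ≤ 1 → w (algebraMap K E f') ≤ 1 →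
      red (algebraMap K E f) ≠ 0 → red (algebraMap K E f) = red (algebraMap K E f') →
      V f = V f' := by
    intro f f' hf hf' hne heq
    obtain ⟨h1, h2, h3⟩ := hl1 f hf hne
    obtain ⟨h1', h2', h3'⟩ := hl1 f' hf' (heq ▸ hne)
    have hsub : w (algebraMap K E (f - f')) < 1 := by
      rw [map_sub]
      have hs : w (algebraMap K E f - algebraMap K E f') ≤ 1 := by
        rw [sub_eq_add_neg]
        exact w.map_add_le hf (by rw [Valuation.map_neg]; exact hf')
      refine (hred.zero _ hs).1 ?_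
      have := hred.add (algebraMap K E f - algebraMap K E f') (algebraMap K E f') hs hf'
      rw [sub_add_cancel, heq] at this
      exact (right_eq_add.1 this)
    have he : (f - f') / f' = 0 ∨ 0 < V ((f - f') / f') := by
      by_cases h0 : f - f' = 0
      · left
        rw [h0, zero_div]
      · right
        have h4 : (f - f') / f' ≠ 0 := div_ne_zero h0 h1'
        apply hpos _ h4
        apply hval _ h4
        rw [map_div₀, map_div₀, h3', div_one]
        exact hsub
    have h5 : 1 + (f - f') / f' = f / f' := by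
      field_simp
      ring
    have h6 := va_one_add hV he (by rw [h5]; exact div_ne_zero h1 h1')
    rw [h5] at h6
    have h7 := hV.mul f' (f / f') h1' (div_ne_zero h1 h1')
    rw [mul_div_cancel₀ _ h1', h6, add_zero] at h7
    exact h7
  choose lf hlf1 hlf2 using hlift
  let Q : κ → Γ' := fun c => if c = 0 then 0 else V (lf c)
  have hQ : ∀ f : K, w (algebraMap K E f) ≤ 1 → red (algebraMap K E f) ≠ 0 →
      Q (red (algebraMap K E f)) = V f := by
    intro f hf hne
    have : Q (red (algebraMap K E f)) = V (lf (red (algebraMap K E f))) := if_neg hne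
    rw [this]
    exact (hindep _ _ hf (hlf1 _) hne (hlf2 _).symm).symm
  have hQV : IsV Q := by
    refine ⟨if_pos rfl, ?_, ?_⟩
    · intro c d hc hd
      have e1 : red (algebraMap K E (lf c * lf d)) = c * d := by
        rw [map_mul, hred.mul _ _ (hlf1 c) (hlf1 d), hlf2, hlf2]
      have e2 : w (algebraMap K E (lf c * lf d)) ≤ 1 := by
        rw [map_mul, map_mul]
        exact mul_le_one' (hlf1 c) (hlf1 d)
      have h1 := hQ _ e2 (by rw [e1]; exact mul_ne_zero hc hd)
      rw [e1] at h1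
      have hc' := (hl1 (lf c) (hlf1 c) (by rw [hlf2]; exact hc)).1
      have hd' := (hl1 (lf d) (hlf1 d) (by rw [hlf2]; exact hd)).1
      rw [h1, hV.mul _ _ hc' hd']
      simp only [Q, if_neg hc, if_neg hd]
    · intro c d hc hd hcd
      have e1 : red (algebraMap K E (lf c + lf d)) = c + d := by
        rw [map_add, hred.add _ _ (hlf1 c) (hlf1 d), hlf2, hlf2]
      have e2 : w (algebraMap K E (lf c + lf d)) ≤ 1 := by
        rw [map_add]
        exact w.map_add_le (hlf1 c) (hlf1 d)
      have h1 := hQ _ e2 (by rw [e1]; exact hcd)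
      rw [e1] at h1
      have hc' := (hl1 (lf c) (hlf1 c) (by rw [hlf2]; exact hc)).1
      have hd' := (hl1 (lf d) (hlf1 d) (by rw [hlf2]; exact hd)).1
      have hcd' := (hl1 (lf c + lf d) e2 (by rw [e1]; exact hcd)).1
      have h2 := hV.add _ _ hc' hd' hcd'
      rw [h1]
      simpa only [Q, if_neg hc, if_neg hd] using h2
  have hQD : Disc Q := by
    obtain ⟨δ, hδ, h⟩ := hD
    refine ⟨δ, hδ, fun c hc => ?_⟩
    obtain ⟨h1, h2, -⟩ := hl1 (lf c) (hlf1 c) (by rw [hlf2]; exact hc)
    obtain ⟨n, hn⟩ := h _ h1 h2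
    exact ⟨n, by rw [← hn]; exact if_neg hc⟩
  have hred1 : ∀ f : K, f ≠ 0 → v f = 0 → w (algebraMap K E f) ≤ 1 ∧
      red (algebraMap K E f) ≠ 0 := by
    intro f hf h0
    have h1 := (hm3 f hf).1 h0
    refine ⟨h1.le, fun h => ?_⟩
    exact absurd ((hred.zero _ h1.le).1 h) (by rw [h1]; exact lt_irrefl _)
  have hneg : ∃ c, Q c < 0 := by
    obtain ⟨f, hf, hvf, hVf⟩ := hex
    rcases lt_or_gt_of_ne hVf with h | h
    · obtain ⟨h1, h2⟩ := hred1 f hf hvf
      exact ⟨_, by rw [hQ f h1 h2]; exact h⟩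
    · have hvf' : v f⁻¹ = 0 := by rw [va_inv hv hf, hvf, neg_zero]
      obtain ⟨h1, h2⟩ := hred1 f⁻¹ (inv_ne_zero hf) hvf'
      exact ⟨_, by rw [hQ _ h1 h2, va_inv hV hf]; exact neg_neg_of_pos h⟩
  obtain ⟨δ, C, hδ, hC, hCQ⟩ := hno κ Γ' Q hQV hQD hneg
  refine ⟨κ, inferInstance, red, C, δ, hred, hC, hδ, fun f hf hvf => ?_⟩
  obtain ⟨h1, h2⟩ := hred1 f hf hvf
  rw [← hQ f h1 h2]
  exact hCQ _ h2

end Pool.Agent.F2D
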