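import Pool.Agent.Lib.MP_305fdd_al.F2.D.StmB

/-!
# MP_305fdd_al, F_2 project, section D: [F2D vb] the residual representation of the stabiliser of a
vertex of the Bruhat-Tits tree
-/

set_option autoImplicit false

namespace Pool.Agent.F2D

open Pool.Agent.F2 Pool.Agent.F2Ch Pool.Agent.PSL2Z Pool.Agent.PSL2Z.BT
open scoped WithZero

/-! ## reduction -/

section red
variable {E κ : Type} [Field E] [Field κ] {w : Valuation E ℤᵐ⁰} {red : E → κ}

private theorem vb_sub (hr : IsRed w red) {x y : E} (hx : w x ≤ 1) (hy : w y ≤ 1) :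
    red (x - y) = red x - red y := by
  have h := hr.add (x - y) y (Valuation.map_sub_le w hx hy) hy
  rw [sub_add_cancel] at h
  rw [h, add_sub_cancel_right]

/-- entrywise reduction -/
private def vb_rd (red : E → κ) (A : Matrix (Fin 2) (Fin 2) E) : Matrix (Fin 2) (Fin 2) κ :=
  Matrix.of fun i j => red (A i j)

omit [Field E] [Field κ] in
private theorem vb_rd_apply (A : Matrix (Fin 2) (Fin 2) E) (i j : Fin 2) :
    vb_rd red A i j = red (A i j) := rfl

private theorem vb_rd_mul (hr : IsRed w red) {A B : Matrix (Fin 2) (Fin 2) E}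
    (hA : ∀ i j, w (A i j) ≤ 1) (hB : ∀ i j, w (B i j) ≤ 1) :
    vb_rd red (A * B) = vb_rd red A * vb_rd red B := by
  have hm : ∀ i j l m, w (A i j * B l m) ≤ 1 := fun i j l m => by
    rw [map_mul]
    exact mul_le_one' (hA i j) (hB l m)
  ext i j
  rw [vb_rd_apply, Matrix.mul_apply, Matrix.mul_apply, Fin.sum_univ_two, Fin.sum_univ_two,
    hr.add _ _ (hm _ _ _ _) (hm _ _ _ _), hr.mul _ _ (hA _ _) (hB _ _),
    hr.mul _ _ (hA _ _) (hB _ _)]
  rfl

private theorem vb_rd_trace (hr : IsRed w red) {A : Matrix (Fin 2) (Fin 2) E}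
    (hA : ∀ i j, w (A i j) ≤ 1) : (vb_rd red A).trace = red A.trace := by
  rw [Matrix.trace_fin_two, Matrix.trace_fin_two, hr.add _ _ (hA _ _) (hA _ _)]
  rfl

private theorem vb_rd_det (hr : IsRed w red) {A : Matrix (Fin 2) (Fin 2) E}
    (hA : ∀ i j, w (A i j) ≤ 1) : (vb_rd red A).det = red A.det := by
  have hm : ∀ i j l m, w (A i j * A l m) ≤ 1 := fun i j l m => by
    rw [map_mul]
    exact mul_le_one' (hA i j) (hA l m)
  rw [Matrix.det_fin_two, Matrix.det_fin_two, vb_sub hr (hm _ _ _ _) (hm _ _ _ _),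
    hr.mul _ _ (hA _ _) (hA _ _), hr.mul _ _ (hA _ _) (hA _ _)]
  rfl

end red

/-! ## frames of vertices -/

section frame
variable {E : Type} [Field E] {w : Valuation E ℤᵐ⁰}

/-- `M` is the lattice spanned by the columns of `P` -/
private def vb_Frm (P : GL (Fin 2) E) (M : Vert w) : Prop :=
  ∀ v : Fin 2 → E, v ∈ M.1 ↔ ∀ i, w ((P⁻¹).val.mulVec v i) ≤ 1

private theorem vb_inv_mulVec (P : GL (Fin 2) E) (v : Fin 2 → E) :
    (P⁻¹).val.mulVec (P.val.mulVec v) = v := by
  rw [Matrix.mulVec_mulVec, ← Units.val_mul, inv_mul_cancel]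
  simp

private theorem vb_col (A : Matrix (Fin 2) (Fin 2) E) (i j : Fin 2) :
    A.mulVec (Pi.single j 1) i = A i j := by
  simp

private theorem vb_single (i j : Fin 2) : w ((Pi.single j 1 : Fin 2 → E) i) ≤ 1 := by
  by_cases h : i = j
  · subst h
    simp
  · simp [Pi.single_eq_of_ne h]

private theorem vb_mem {P : GL (Fin 2) E} {M : Vert w} (hP : vb_Frm P M) (j : Fin 2) :
    P.val.mulVec (Pi.single j 1) ∈ M.1 := by
  rw [hP, vb_inv_mulVec]
  exact fun i => vb_single i j

/-- the stabiliser is integral in a frame -/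
private theorem vb_int {P : GL (Fin 2) E} {M : Vert w} (hP : vb_Frm P M) (g : Gw w)
    (hg : g • M = M) (i j : Fin 2) : w ((P⁻¹ * g.val * P).val i j) ≤ 1 := by
  have h1 := (mulVec_mem (g := g)).2 (vb_mem hP j)
  rw [hg, hP] at h1
  have h2 := h1 i
  rw [Matrix.mulVec_mulVec, Matrix.mulVec_mulVec, vb_col] at h2
  rw [Units.val_mul, Units.val_mul, Matrix.mul_assoc]
  rw [Matrix.mul_assoc] at h2
  exact h2

/-- the change of frames is integral -/
private theorem vb_trans {P P' : GL (Fin 2) E} {M : Vert w} (hP : vb_Frm P M)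
    (hP' : vb_Frm P' M) (i j : Fin 2) : w ((P⁻¹ * P').val i j) ≤ 1 := by
  have h1 := vb_mem hP' j
  rw [hP] at h1
  have h2 := h1 i
  rw [Matrix.mulVec_mulVec, vb_col] at h2
  exact h2

/-- diagonal matrices -/
private theorem vb_diag (x z : E) (hx : x ≠ 0) (hz : z ≠ 0) : ∃ D : GL (Fin 2) E,
    D.val = !![x, 0; 0, z] ∧ (D⁻¹).val = !![x⁻¹, 0; 0, z⁻¹] := by
  refine ⟨⟨!![x, 0; 0, z], !![x⁻¹, 0; 0, z⁻¹], ?_, ?_⟩, rfl, rfl⟩
  · ext i j
    fin_cases i <;> fin_cases j <;> simp [hx, hz]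
  · ext i j
    fin_cases i <;> fin_cases j <;> simp [hx, hz]

/-- the standard frame -/
private theorem vb_std (hw : Function.Surjective w) (k : Gw w) (h : ℤ) :
    ∃ (x z : E) (D : GL (Fin 2) E), x ≠ 0 ∧ z ≠ 0 ∧ w x = WithZero.exp ((h + 1) / 2) ∧
      w z = WithZero.exp (-(h / 2)) ∧ D.val = !![x, 0; 0, z] ∧ (D⁻¹).val = !![x⁻¹, 0; 0, z⁻¹] ∧
      vb_Frm (k.val * D) (k • mkV w h 0) := by
  obtain ⟨x, hx⟩ := hw (WithZero.exp ((h + 1) / 2))
  obtain ⟨z, hz⟩ := hw (WithZero.exp (-(h / 2)))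
  have hx0 : x ≠ 0 := by
    rintro rfl
    rw [map_zero] at hx
    exact WithZero.exp_ne_zero hx.symm
  have hz0 : z ≠ 0 := by
    rintro rfl
    rw [map_zero] at hz
    exact WithZero.exp_ne_zero hz.symm
  obtain ⟨D, hD, hD'⟩ := vb_diag x z hx0 hz0
  refine ⟨x, z, D, hx0, hz0, hx, hz, hD, hD', fun v => ?_⟩
  rw [mem_smul, mul_inv_rev, Units.val_mul, ← Matrix.mulVec_mulVec, hD', Fin.forall_fin_two]
  have e : (k⁻¹).val.val = ((k.val)⁻¹).val := rfl
  rw [← e]
  set u := (k⁻¹).val.val.mulVec v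
  change w (u 0 - 0 * u 1) ≤ _ ∧ w (u 1) ≤ _ ↔ _
  rw [zero_mul, sub_zero]
  have e0 : (!![x⁻¹, 0; 0, z⁻¹] : Matrix (Fin 2) (Fin 2) E).mulVec u 0 = x⁻¹ * u 0 := by
    simp [Matrix.mulVec, dotProduct, Fin.sum_univ_two]
  have e1 : (!![x⁻¹, 0; 0, z⁻¹] : Matrix (Fin 2) (Fin 2) E).mulVec u 1 = z⁻¹ * u 1 := by
    simp [Matrix.mulVec, dotProduct, Fin.sum_univ_two]
  rw [e0, e1, map_mul, map_mul, map_inv₀, map_inv₀, hx, hz,
    inv_mul_le_iff₀ WithZero.exp_pos, inv_mul_le_iff₀ WithZero.exp_pos, mul_one, mul_one]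

end frame

theorem p_vb (hfx : S_fx) (hda : S_da) : S_vb := by
  intro E κ _ _ w red C hw hr M
  -- the frame of `M`
  obtain ⟨k, h, hM, -⟩ := hda E w hw M (up M) (adj_up hw M)
  obtain ⟨-, -, D, -, -, -, -, -, -, hP⟩ := vb_std hw k h
  rw [← hM] at hP
  set P : GL (Fin 2) E := k.val * D with hPdef
  clear_value P
  have hdet : ∀ (R : GL (Fin 2) E) (g : Gw w), (R⁻¹ * g.val * R).val.det = g.val.val.det := by
    intro R g
    rw [Units.val_mul, Units.val_mul, Matrix.det_mul, Matrix.det_mul,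
      mul_right_comm, ← Matrix.det_mul, ← Units.val_mul, inv_mul_cancel]
    simp
  have htr : ∀ (R : GL (Fin 2) E) (g : Gw w), (R⁻¹ * g.val * R).val.trace =
      g.val.val.trace := by
    intro R g
    rw [Units.val_mul, Matrix.trace_mul_comm, ← Units.val_mul, ← mul_assoc, mul_inv_cancel,
      one_mul]
  have ex : ∀ g : Gw w, ∃ R : Gw C, g • M = M → g.val.val.det = 1 →
      R.val.val = vb_rd red (P⁻¹ * g.val * P).val := by
    intro g
    by_cases hg : g • M = M ∧ g.val.val.det = 1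
    · have hd : (vb_rd red (P⁻¹ * g.val * P).val).det = 1 := by
        rw [vb_rd_det hr (vb_int hP g hg.1), hdet, hg.2, hr.one]
      have hu : IsUnit (vb_rd red (P⁻¹ * g.val * P).val) :=
        (Matrix.isUnit_iff_isUnit_det _).2 (by rw [hd]; exact isUnit_one)
      obtain ⟨R, hR⟩ := hu
      refine ⟨⟨R, ?_⟩, fun _ _ => hR⟩
      change C R.val.det = 1
      rw [hR, hd, map_one]
    · exact ⟨1, fun h1 h2 => absurd ⟨h1, h2⟩ hg⟩
  choose r hrr using ex
  refine ⟨r, ?_, ?_, ?_⟩
  · intro g g' hg hg' hd hd'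
    have h1 : (g * g') • M = M := by rw [mul_smul, hg', hg]
    have h2 : (g * g').val.val.det = 1 := by
      change (g.val.val * g'.val.val).det = 1
      rw [Matrix.det_mul, hd, hd', mul_one]
    apply Subtype.ext
    apply Units.ext
    change (r (g * g')).val.val = (r g).val.val * (r g').val.val
    rw [hrr _ h1 h2, hrr g hg hd, hrr g' hg' hd', ← vb_rd_mul hr (vb_int hP g hg)
      (vb_int hP g' hg'), ← Units.val_mul]
    congr 2
    change P⁻¹ * (g.val * g'.val) * P = _
    group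
  · intro g hg hd
    rw [hrr g hg hd, vb_rd_trace hr (vb_int hP g hg), htr]
  · intro N hN
    obtain ⟨k', h', hM', hN'⟩ := hda E w hw M N hN
    obtain ⟨x, z, D', hx0, hz0, hx, hz, hD1, hD2, hP'⟩ := vb_std hw k' h'
    rw [← hM'] at hP'
    -- the change of frames
    set A : GL (Fin 2) E := P⁻¹ * (k'.val * D') with hA
    have hAi : ∀ i j, w (A.val i j) ≤ 1 := vb_trans hP hP'
    have hAi' : ∀ i j, w ((A⁻¹).val i j) ≤ 1 := by
      intro i j
      have := vb_trans hP' hP i j
      rwa [show (k'.val * D')⁻¹ * P = A⁻¹ by rw [hA]; group] at this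
    have hdetle : ∀ B : Matrix (Fin 2) (Fin 2) E, (∀ i j, w (B i j) ≤ 1) → w B.det ≤ 1 := by
      intro B hB
      rw [Matrix.det_fin_two]
      refine Valuation.map_sub_le w ?_ ?_ <;>
      · rw [map_mul]
        exact mul_le_one' (hB _ _) (hB _ _)
    have hAd : ¬ w A.val.det < 1 := by
      intro hlt
      have h1 : w A.val.det * w (A⁻¹).val.det = 1 := by
        rw [← map_mul, ← Matrix.det_mul, ← Units.val_mul, mul_inv_cancel]
        simp
      have h2 : w A.val.det * w (A⁻¹).val.det < 1 :=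
        (mul_le_mul' le_rfl (hdetle _ hAi')).trans_lt (by rwa [mul_one])
      exact absurd h1 h2.ne
    refine ⟨fun i => red (A.val i 0), ?_, ?_⟩
    · intro h0
      apply hAd
      have h00 : w (A.val 0 0) < 1 := (hr.zero _ (hAi _ _)).1 (congrFun h0 0)
      have h10 : w (A.val 1 0) < 1 := (hr.zero _ (hAi _ _)).1 (congrFun h0 1)
      rw [Matrix.det_fin_two]
      refine (Valuation.map_sub w _ _).trans_lt (max_lt ?_ ?_)
      · rw [map_mul]
        exact (mul_le_mul' le_rfl (hAi 1 1)).trans_lt (by rwa [mul_one])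
      · rw [map_mul]
        exact (mul_le_mul' (hAi 0 1) le_rfl).trans_lt (by rwa [one_mul])
    · intro g hg hgN hd
      set Q : Matrix (Fin 2) (Fin 2) E := ((k'.val * D')⁻¹ * g.val * (k'.val * D')).val with hQ
      have hQi : ∀ i j, w (Q i j) ≤ 1 := vb_int hP' g hg
      have hQd : Q.det = 1 := by rw [hQ, hdet, hd]
      -- the entry `(1, 0)`
      have h10 : w (Q 1 0) < 1 := by
        have h1 : (k'⁻¹ * g * k') • mkV w (h' + 1) 0 = mkV w (h' + 1) 0 := by
          rw [mul_smul, mul_smul, ← hN', hgN, hN', inv_smul_smul]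
        have h2 := ((hfx E w hw _ _).1 h1).2.2.1
        have h3 : Q 1 0 = z⁻¹ * ent (k'⁻¹ * g * k') 1 0 * x := by
          have e : (k'.val * D')⁻¹ * g.val * (k'.val * D') =
              D'⁻¹ * (k'⁻¹ * g * k').val * D' := by
            change _ = D'⁻¹ * (k'.val⁻¹ * g.val * k'.val) * D'
            group
          rw [hQ, e, Units.val_mul, Units.val_mul, hD1, hD2]
          unfold ent
          generalize (k'⁻¹ * g * k').val.val = G
          rw [Matrix.mul_apply, Fin.sum_univ_two, Matrix.mul_apply, Fin.sum_univ_two]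
          simp
        rw [h3, map_mul, map_mul, map_inv₀, hz, hx]
        calc (WithZero.exp (-(h' / 2)))⁻¹ * w (ent (k'⁻¹ * g * k') 1 0) *
              WithZero.exp ((h' + 1) / 2)
            ≤ (WithZero.exp (-(h' / 2)))⁻¹ * WithZero.exp (0 - (h' + 1)) *
              WithZero.exp ((h' + 1) / 2) := mul_le_mul' (mul_le_mul' le_rfl h2) le_rfl
          _ = WithZero.exp (-1) := by
            rw [← WithZero.exp_neg, ← WithZero.exp_add, ← WithZero.exp_add]
            congr 1
            omega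
          _ < 1 := by
            rw [← WithZero.exp_zero, WithZero.exp_lt_exp]
            omega
      have hlt : w (Q 0 1 * Q 1 0) < 1 := by
        rw [map_mul]
        exact (mul_le_mul' (hQi 0 1) le_rfl).trans_lt (by rwa [one_mul])
      have hdq : Q 0 0 * Q 1 1 = 1 + Q 0 1 * Q 1 0 := by
        rw [← hQd, Matrix.det_fin_two]
        ring
      have hprod : w (Q 0 0) * w (Q 1 1) = 1 := by
        rw [← map_mul, hdq]
        exact Valuation.map_one_add_of_lt w hlt
      have hc : w (Q 0 0) = 1 := by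
        refine le_antisymm (hQi 0 0) ?_
        calc (1 : ℤᵐ⁰) = w (Q 0 0) * w (Q 1 1) := hprod.symm
          _ ≤ w (Q 0 0) * 1 := mul_le_mul' le_rfl (hQi 1 1)
          _ = _ := mul_one _
      have hc0 : Q 0 0 ≠ 0 := by
        intro h0
        rw [h0, map_zero] at hc
        exact zero_ne_one hc
      refine ⟨Q 0 0, hc, ?_, ?_⟩
      · have e : g.val.val.trace = Q 0 0 + Q 1 1 := by
          rw [← htr (k'.val * D') g, Matrix.trace_fin_two]
        rw [e, show Q 0 0 + (Q 0 0)⁻¹ - (Q 0 0 + Q 1 1) = (Q 0 0)⁻¹ * (1 - Q 0 0 * Q 1 1) by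
          field_simp; ring, hdq, map_mul, map_inv₀, hc, inv_one, one_mul,
          show (1 : E) - (1 + Q 0 1 * Q 1 0) = -(Q 0 1 * Q 1 0) by ring, Valuation.map_neg]
        exact hlt
      · have hmul : (P⁻¹ * g.val * P).val * A.val = A.val * Q := by
          rw [hQ, ← Units.val_mul, ← Units.val_mul, hA]
          congr 1
          group
        have h1 := congrArg (vb_rd red) hmul
        rw [vb_rd_mul hr (vb_int hP g hg) hAi, vb_rd_mul hr hAi hQi, ← hrr g hg hd] at h1
        ext i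
        have h2 := congrFun (congrFun h1 i) 0
        rw [Matrix.mul_apply, Matrix.mul_apply, Fin.sum_univ_two, Fin.sum_univ_two] at h2
        have h3 : vb_rd red Q 1 0 = 0 := (hr.zero _ (hQi 1 0)).2 h10
        rw [h3, mul_zero, add_zero] at h2
        simp only [Matrix.mulVec, dotProduct, Fin.sum_univ_two, Pi.smul_apply, smul_eq_mul]
        rw [mul_comm (red (Q 0 0))]
        exact h2

end Pool.Agent.F2D
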