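import Pool.Agent.Lib.MP_305fdd_al.F2.D.StmB

set_option autoImplicit false

namespace Pool.Agent.F2D

open Pool.Agent.F2 Pool.Agent.F2Ch Pool.Agent.PSL2Z Pool.Agent.PSL2Z.BT
open scoped WithZero

theorem p_vc (hfx : S_fx) : S_vc := by
  intro κ _ C hC A ξ c hξ hc hA
  obtain ⟨k, hk⟩ := exists_mulVec (w := C) ξ hξ
  have h3 : (k⁻¹ * A * k).val.val.mulVec ![1, 0] = c • ![1, 0] := by
    have h4 : (k⁻¹ * A * k).val.val = (k⁻¹).val.val * (A.val.val * k.val.val) := by
      rw [Subgroup.coe_mul, Subgroup.coe_mul, Units.val_mul, Units.val_mul, mul_assoc]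
    rw [h4, ← Matrix.mulVec_mulVec, ← Matrix.mulVec_mulVec, hk, hA, Matrix.mulVec_smul, ← hk,
      inv_mulVec]
  obtain ⟨B, hB⟩ : ∃ B : Gw C, B = k⁻¹ * A * k := ⟨_, rfl⟩
  rw [← hB] at h3
  have h00 : ent B 0 0 = c := by
    have h5 := congrFun h3 0
    simpa [Matrix.mulVec, dotProduct, Fin.sum_univ_two, ent] using h5
  have h10 : ent B 1 0 = 0 := by
    have h5 := congrFun h3 1
    simpa [Matrix.mulVec, dotProduct, Fin.sum_univ_two, ent] using h5
  have h11 : C (ent B 1 1) = 1 := by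
    have h6 := det_Gw B
    rw [Matrix.det_fin_two] at h6
    have h7 : B.val.val 1 0 = 0 := h10
    have h8 : B.val.val 0 0 = c := h00
    rw [h7, h8, mul_zero, sub_zero, map_mul, hc, one_mul] at h6
    exact h6
  obtain ⟨h, hh⟩ : ∃ h : ℤ, C (ent B 0 1) ≤ WithZero.exp h :=
    ⟨WithZero.log (C (ent B 0 1)), WithZero.le_exp_of_log_le le_rfl⟩
  have hfix : B • mkV C h 0 = mkV C h 0 := by
    rw [hfx κ C hC B h]
    refine ⟨?_, ?_, ?_, ?_⟩
    · rw [h00, hc, WithZero.exp_zero]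
    · rw [zero_add]; exact hh
    · rw [h10, map_zero]; exact zero_le
    · rw [h11, WithZero.exp_zero]
  refine ⟨k • mkV C h 0, ?_⟩
  calc A • k • mkV C h 0 = k • (k⁻¹ * A * k) • mkV C h 0 := by
        rw [← mul_smul, ← mul_smul]
        congr 1
        group
    _ = _ := by rw [← hB, hfix]

end Pool.Agent.F2D
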