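import Pool.Agent.Lib.MP_305fdd_al.F2.D.p_de
import Pool.Agent.Lib.MP_305fdd_al.F2.D.p_t1
import Pool.Agent.Lib.MP_305fdd_al.F2.D.p_t2
import Pool.Agent.Lib.MP_305fdd_al.F2.D.p_t3
import Pool.Agent.Lib.MP_305fdd_al.F2.D.p_t4
import Pool.Agent.Lib.MP_305fdd_al.F2.D.p_e1
import Pool.Agent.Lib.MP_305fdd_al.F2.D.p_t5
import Pool.Agent.Lib.MP_305fdd_al.F2.D.p_t6
import Pool.Agent.Lib.MP_305fdd_al.F2.D.p_bu
import Pool.Agent.Lib.MP_305fdd_al.F2.D.p_li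
import Pool.Agent.Lib.MP_305fdd_al.F2.D.p_e2
import Pool.Agent.Lib.MP_305fdd_al.F2.D.p_co
import Pool.Agent.Lib.MP_305fdd_al.F2.D.p_he
import Pool.Agent.Lib.MP_305fdd_al.F2.D.p_cy
import Pool.Agent.Lib.MP_305fdd_al.F2.D.p_fx
import Pool.Agent.Lib.MP_305fdd_al.F2.D.p_da
import Pool.Agent.Lib.MP_305fdd_al.F2.D.p_ct
import Pool.Agent.Lib.MP_305fdd_al.F2.D.p_sd
import Pool.Agent.Lib.MP_305fdd_al.F2.D.p_ma
import Pool.Agent.Lib.MP_305fdd_al.F2.D.p_mi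
import Pool.Agent.Lib.MP_305fdd_al.F2.D.p_le
import Pool.Agent.Lib.MP_305fdd_al.F2.D.p_ra
import Pool.Agent.Lib.MP_305fdd_al.F2.D.p_rb
import Pool.Agent.Lib.MP_305fdd_al.F2.D.p_rc
import Pool.Agent.Lib.MP_305fdd_al.F2.D.p_cp
import Pool.Agent.Lib.MP_305fdd_al.F2.D.p_rt
import Pool.Agent.Lib.MP_305fdd_al.F2.D.p_no
import Pool.Agent.Lib.MP_305fdd_al.F2.D.p_se
import Pool.Agent.Lib.MP_305fdd_al.F2.D.p_mo
import Pool.Agent.Lib.MP_305fdd_al.F2.D.p_A0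
import Pool.Agent.Lib.MP_305fdd_al.F2.D.p_A1
import Pool.Agent.Lib.MP_305fdd_al.F2.D.p_A2
import Pool.Agent.Lib.MP_305fdd_al.F2.D.p_l1
import Pool.Agent.Lib.MP_305fdd_al.F2.D.p_l2
import Pool.Agent.Lib.MP_305fdd_al.F2.D.p_l3
import Pool.Agent.Lib.MP_305fdd_al.F2.D.p_va
import Pool.Agent.Lib.MP_305fdd_al.F2.D.p_vb
import Pool.Agent.Lib.MP_305fdd_al.F2.D.p_vc
import Pool.Agent.Lib.MP_305fdd_al.F2.D.p_A3

/-!
# MP_305fdd_al, F_2 project, section D: main theorems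

`v : K → Γ` is a discrete valuation (`IsV v`, `Disc v`), `T : Λ → K` an irreducible pseudo-character of
the group `Λ` (`PC T`, `Irr T`), `cl` a homomorphism to `ℤ × ℤ` with two independent values.  An
element `l` is `v`-elliptic if `0 ≤ v (T l)`.  No finiteness assumption on `Λ`, no assumption on
the characteristic.
-/

set_option autoImplicit false

namespace Pool.Agent.F2D

open Pool.Agent.F2Ch

/-! ## All pieces without hypotheses -/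

theorem m_e1 : S_e1 := p_e1 p_t3 p_t4
theorem m_t6 : S_t6 := p_t6 p_t1 p_t2 p_t5
theorem m_bu : S_bu := p_bu m_t6
theorem m_e2 : S_e2 := p_e2 m_e1 m_bu (p_li p_t1)
theorem m_co : S_co := p_co p_t1 p_t2
theorem m_he : S_he := p_he m_e2 m_co
theorem m_ma : S_ma := p_ma p_fx
theorem m_mi : S_mi := p_mi p_da p_ct p_sd m_ma
theorem m_le : S_le := p_le p_fx
theorem m_rc : S_rc := p_rc p_ra p_rb
theorem m_se : S_se := p_se m_rc p_cp p_rt p_no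
theorem m_A0 : S_A0 := p_A0 m_e1 m_se p_mo
theorem m_A1 : S_A1 := p_A1 m_he m_se p_mo
theorem m_A2 : S_A2 := p_A2 m_e2 m_co m_mi m_le m_se p_mo
theorem m_l3 : S_l3 := p_l3 p_l2
theorem m_va : S_va := p_va p_no p_mo
theorem m_vb : S_vb := p_vb p_fx p_da
theorem m_vc : S_vc := p_vc p_fx
theorem m_A3 : S_A3 := p_A3 m_he m_bu p_cy m_se p_mo m_va m_vb m_vc m_A1

/-! ## The main theorems with `Pool.Agent.F2.Dep` -/

section
variable {Λ K Γ : Type} [Group Λ] [Field K] [AddCommGroup Γ] [LinearOrder Γ]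
  [IsOrderedAddMonoid Γ] {T : Λ → K} {v : K → Γ} {cl : Λ →* Multiplicative (ℤ × ℤ)}

theorem rk2_of (hcl : ∃ g h, ¬ F2.Dep (cl g) (cl h)) : Rk2 cl := by
  obtain ⟨g, h, hgh⟩ := hcl
  exact ⟨g, h, fun hd => hgh ((dep_iff _ _).2 hd)⟩

/-- THEOREM D_zero: if all elliptic elements have class zero then `Λ` maps onto `F_2`. -/
theorem D_zero (hT : F2.PC T) (hI : Irr T) (hv : IsV v) (hd : Disc v)
    (hcl : ∃ g h, ¬ F2.Dep (cl g) (cl h)) (h0 : ∀ l, 0 ≤ v (T l) → cl l = 1) : OntoF2 Λ :=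
  m_A0 Λ K Γ T v cl hT hI hv hd (rk2_of hcl) h0

/-- THEOREM D_heis: if all elliptic elements of class zero die in a quotient in which commuting
elements have dependent classes then `Λ` maps onto `F_2`. -/
theorem D_heis {M : Type} [Group M] (hT : F2.PC T) (hI : Irr T) (hv : IsV v) (hd : Disc v)
    (hcl : ∃ g h, ¬ F2.Dep (cl g) (cl h)) (π : Λ →* M)
    (hπ : ∀ g h, Commute (π g) (π h) → F2.Dep (cl g) (cl h))
    (h0 : ∀ l, 0 ≤ v (T l) → cl l = 1 → π l = 1) : OntoF2 Λ :=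
  m_A1 Λ K Γ M T v cl π hT hI hv hd (rk2_of hcl) (fun g h hc => (dep_iff _ _).1 (hπ g h hc)) h0

/-- THEOREM D_edge: if the classes of elliptic elements are pairwise dependent then `Λ` maps onto
`F_2` or there is an edge element `z` of nonzero class on the axis of some `g`. -/
theorem D_edge (hT : F2.PC T) (hI : Irr T) (hv : IsV v) (hd : Disc v)
    (hcl : ∃ g h, ¬ F2.Dep (cl g) (cl h))
    (h1 : ∀ l l', 0 ≤ v (T l) → 0 ≤ v (T l') → F2.Dep (cl l) (cl l')) :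
    OntoF2 Λ ∨ ∃ (z g : Λ) (ψ : K), 0 ≤ v (T z) ∧ cl z ≠ 1 ∧ EdgeElt v T z g ψ :=
  m_A2 Λ K Γ T v cl hT hI hv hd (rk2_of hcl) fun l l' hl hl' => (dep_iff _ _).1 (h1 l l' hl hl')

/-- The residual eigenvalue is a root of `X ^ 2 - T z X + 1`. -/
theorem EdgeElt.root {z g : Λ} {ψ : K} (h : EdgeElt v T z g ψ) (hT : F2.PC T) (hv : IsV v) :
    Gt v 0 (T z - (ψ + ψ⁻¹)) :=
  p_l1 Λ K Γ T v z g ψ hT hv h

/-- Lemma 2: the values of a finer valuation. -/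
theorem EdgeElt.finer {Γ' : Type} [AddCommGroup Γ'] [LinearOrder Γ'] [IsOrderedAddMonoid Γ']
    {V : K → Γ'} {z g : Λ} {ψ : K} (h : EdgeElt v T z g ψ) (hv : IsV v) (hV : IsV V)
    (hvV : ∀ f, f ≠ 0 → 0 < v f → 0 < V f) (m : ℤ) :
    T (g * z ^ m) ≠ 0 ∧ V (T (g * z ^ m)) = m • V ψ + V (T g) :=
  p_l2 Λ K Γ Γ' T v V z g ψ hv hV hvV h m

/-- THEOREM D_blow (for Lemma S). -/
theorem D_blow {Γ' M : Type} [AddCommGroup Γ'] [LinearOrder Γ'] [IsOrderedAddMonoid Γ'] [Group M]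
    {V : K → Γ'} (hT : F2.PC T) (hI : Irr T) (hv : IsV v) (hV : IsV V) (hd : Disc v)
    (hcl : ∃ g h, ¬ F2.Dep (cl g) (cl h)) (hvV : ∀ f, f ≠ 0 → 0 < v f → 0 < V f)
    (hd' : Disc' v V) (π : Λ →* M)
    (hπ : ∀ g h, Commute (π g) (π h) → F2.Dep (cl g) (cl h))
    (h1 : ∀ l l', 0 ≤ v (T l) → 0 ≤ v (T l') → F2.Dep (cl l) (cl l'))
    (h2 : ∀ l ψ, 0 ≤ v (T l) → ψ ≠ 0 → v ψ = 0 → Gt v 0 (ψ + ψ⁻¹ - T l) → V ψ = 0)
    (h3 : ∀ l, 0 ≤ V (T l) → 0 ≤ v (T l) → cl l = 1 → π l = 1 ∧ ∀ h, T (l * h) = T h) :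
    OntoF2 Λ :=
  m_A3 Λ K Γ Γ' M T v V cl π hT hI hv hV hd (rk2_of hcl) hvV hd'
    (fun g h hc => (dep_iff _ _).1 (hπ g h hc))
    (fun l l' hl hl' => (dep_iff _ _).1 (h1 l l' hl hl')) h2 h3

end

/-- Lemma 2 for a flag with values in `ℝ ×ₗ ℝ` (pole type). -/
theorem EdgeElt.pole {Λ K : Type} [Group Λ] [Field K] {T : Λ → K} {V : K → ℝ ×ₗ ℝ} {z g : Λ}
    {ψ : K} (hV : IsV V) (hv : IsV (fun f => (ofLex (V f)).1))
    (h : EdgeElt (fun f => (ofLex (V f)).1) T z g ψ)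
    (hp : ∃ α β : ℝ, 0 < β ∧ ∀ l, α * (ofLex (V (T l))).1 + β * (ofLex (V (T l))).2 ≤ 0) :
    V ψ = 0 :=
  m_l3 Λ K T V z g ψ hV hv h hp

end Pool.Agent.F2D
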