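import Pool.Agent.Lib.MP_305fdd_al.F2.GDefs
import Pool.Agent.Lib.MP_305fdd_al.F2.ChDefs
import Pool.Agent.Lib.MP_305fdd_al.PSL.Lattice

/-!
# MP_305fdd_al, F_2 project, section D (trees of discrete valuations): definitions
-/

set_option autoImplicit false

namespace Pool.Agent.F2D

open Pool.Agent.F2 Pool.Agent.F2Ch Pool.Agent.PSL2Z Pool.Agent.PSL2Z.BT
open scoped WithZero

/-- `Λ` has the free group of rank two as a quotient -/
def OntoF2 (Λ : Type) [Group Λ] : Prop := ∃ f : Λ →* FreeGroup (Fin 2), Function.Surjective f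

/-- linearly dependent classes -/
def Dpd (a b : Multiplicative (ℤ × ℤ)) : Prop :=
  a.toAdd.1 * b.toAdd.2 = a.toAdd.2 * b.toAdd.1

/-- `cl` has rank two -/
def Rk2 {Λ : Type} [Group Λ] (cl : Λ →* Multiplicative (ℤ × ℤ)) : Prop :=
  ∃ g h, ¬ Dpd (cl g) (cl h)

/-! ## Trees -/

/-- the group acts on the graph `X` -/
def Acts (Λ : Type) {V : Type} [Group Λ] [MulAction Λ V] (X : SimpleGraph V) : Prop :=
  ∀ (g : Λ) (u v : V), X.Adj u v → X.Adj (g • u) (g • v)

/-- `S` is one side of the edge from `u` (outside `S`) to `v` (inside `S`) -/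
def Cut {V : Type} (X : SimpleGraph V) (S : Set V) (u v : V) : Prop :=
  u ∉ S ∧ v ∈ S ∧ ∀ a b, X.Adj a b → a ∉ S → b ∈ S → a = u ∧ b = v

/-- The blown up graph with vertices `V × P`: every vertex `v` of `X` is replaced by a copy of `Y`,
and the edge of `X` from `u` to `v` is attached at `(u, a u v)` and `(v, a v u)`. -/
def blow {V P : Type} (X : SimpleGraph V) (Y : SimpleGraph P) (a : V → V → P) :
    SimpleGraph (V × P) where
  Adj s t := (s.1 = t.1 ∧ Y.Adj s.2 t.2) ∨
    (X.Adj s.1 t.1 ∧ s.2 = a s.1 t.1 ∧ t.2 = a t.1 s.1)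
  symm := ⟨fun _ _ h => h.elim (fun h => Or.inl ⟨h.1.symm, h.2.symm⟩)
    fun h => Or.inr ⟨h.1.symm, h.2.2, h.2.1⟩⟩
  loopless := ⟨fun _ h => h.elim (fun h => Y.loopless.irrefl _ h.2)
    fun h => X.loopless.irrefl _ h.1⟩

/-- the line, on which `Multiplicative ℤ` acts by multiplication -/
def line : SimpleGraph (Multiplicative ℤ) where
  Adj m n := n.toAdd = m.toAdd + 1 ∨ m.toAdd = n.toAdd + 1
  symm := ⟨fun _ _ h => h.symm⟩
  loopless := ⟨fun _ h => by rcases h with h | h <;> omega⟩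

/-! ## The Bruhat-Tits tree -/

/-- the entries of an element of `Gw w` -/
def ent {E : Type} [Field E] {w : Valuation E ℤᵐ⁰} (B : Gw w) (i j : Fin 2) : E := B.val.val i j

/-- `B` maps the lattice of `mkV w h 0` into `π ^ (-N)` times itself -/
def Bd {E : Type} [Field E] (w : Valuation E ℤᵐ⁰) (B : Gw w) (h N : ℤ) : Prop :=
  w (ent B 0 0) ≤ WithZero.exp N ∧ w (ent B 0 1) ≤ WithZero.exp (N + h) ∧
    w (ent B 1 0) ≤ WithZero.exp (N - h) ∧ w (ent B 1 1) ≤ WithZero.exp N

/-- The edge from `mkV w h 0` to `mkV w (h + 1) 0` is on the axis of `B`, whose translation length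
is `2 * n`, and `B` moves in this direction. -/
def Cross {E : Type} [Field E] (w : Valuation E ℤᵐ⁰) (B : Gw w) (h n : ℤ) : Prop :=
  w (ent B 0 0) = WithZero.exp n ∧ w (ent B 0 1) ≤ WithZero.exp (n + h) ∧
    w (ent B 1 0) < WithZero.exp (n - h) ∧ w (ent B 1 1) < WithZero.exp n

/-! ## Discrete valuations -/

section
variable {K Γ : Type} [Field K] [AddCommGroup Γ] [LinearOrder Γ] [IsOrderedAddMonoid Γ]

/-- all values are integer multiples of one positive element -/
def Disc (v : K → Γ) : Prop := ∃ γ : Γ, 0 < γ ∧ ∀ f, f ≠ 0 → ∃ n : ℤ, v f = n • γ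

/-- the values of the elements with `v f = 0` under the finer valuation `V` are integer multiples
of one positive element -/
def Disc' {Γ' : Type} [AddCommGroup Γ'] [LinearOrder Γ'] (v : K → Γ) (V : K → Γ') : Prop :=
  ∃ δ : Γ', 0 < δ ∧ ∀ f, f ≠ 0 → v f = 0 → ∃ n : ℤ, V f = n • δ

/-- `z` is in the stabiliser of an edge on the axis of `g`, with residual eigenvalue `ψ` -/
structure EdgeElt {Λ : Type} [Group Λ] (v : K → Γ) (T : Λ → K) (z g : Λ) (ψ : K) : Prop where
  ne : ψ ≠ 0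
  val : v ψ = 0
  hyp : v (T g) < 0
  lead : ∀ m : ℤ, Gt v (v (T g)) (T (g * z ^ m) - ψ ^ m * T g)

/-- the group acts irreducibly: some commutator has trace different from `2` -/
def Irr {Λ : Type} [Group Λ] (T : Λ → K) : Prop := ∃ g h, T (g * h * g⁻¹ * h⁻¹) ≠ 2

/-- A model: `w` extends `v` to `E`, `K` is dense in `E`, and `ρ` is a representation over `E` with
determinant one and traces `T`, whose values span the matrix algebra. -/
structure Model {Λ : Type} [Group Λ] (T : Λ → K) (v : K → Γ) (γ : Γ) {E : Type} [Field E]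
    [Algebra K E] (w : Valuation E ℤᵐ⁰) (ρ : Λ →* Gw w) : Prop where
  surj : Function.Surjective w
  det : ∀ l, (ρ l).val.val.det = 1
  tr : ∀ l, (ρ l).val.val.trace = algebraMap K E (T l)
  span : ∀ A : Matrix (Fin 2) (Fin 2) E, (∀ l, (A * (ρ l).val.val).trace = 0) → A = 0
  pos : 0 < γ
  val : ∀ f : K, f ≠ 0 → v f = (-(WithZero.log (w (algebraMap K E f)))) • γ
  dense : ∀ (x : E) (n : ℤ), ∃ a : K, w (x - algebraMap K E a) < WithZero.exp n

end

/-- The algebra `𝒜` of a pseudo-character `T : Λ → E`: `j` is the map from the group, `t` the trace. -/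
structure PAlg {Λ E : Type} [Group Λ] [Field E] (T : Λ → E) {𝒜 : Type} [Ring 𝒜] [Algebra E 𝒜]
    (j : Λ →* 𝒜) (t : 𝒜 →ₗ[E] E) : Prop where
  tj : ∀ g, t (j g) = T g
  comm : ∀ a b, t (a * b) = t (b * a)
  nd : ∀ a, (∀ b, t (a * b) = 0) → a = 0
  pch : ∀ a b, a * b + b * a = t a • b + t b • a + (t (a * b) - t a * t b) • (1 : 𝒜)
  span : Submodule.span E (Set.range j) = ⊤

/-- `red` is a reduction map modulo the maximal ideal of `w` onto the field `κ` (only its values
on `{x | w x ≤ 1}` are relevant). -/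
structure IsRed {E κ : Type} [Field E] [Field κ] (w : Valuation E ℤᵐ⁰) (red : E → κ) : Prop where
  one : red 1 = 1
  add : ∀ x y, w x ≤ 1 → w y ≤ 1 → red (x + y) = red x + red y
  mul : ∀ x y, w x ≤ 1 → w y ≤ 1 → red (x * y) = red x * red y
  zero : ∀ x, w x ≤ 1 → (red x = 0 ↔ w x < 1)
  surj : ∀ c : κ, ∃ x, w x ≤ 1 ∧ red x = c

end Pool.Agent.F2D
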