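import Pool.Agent.Lib.MP_305fdd_al.F2.D.Defs

/-!
# MP_305fdd_al, F_2 project, section D: pieces about trees [F2D T ..]

Every `def S_xx : Prop` is one independent piece; its docstring contains the complete proof.
The other statements may be taken as hypotheses.  Groups are not assumed finitely generated and
edges may be inverted.
-/

set_option autoImplicit false

namespace Pool.Agent.F2D

open Pool.Agent.F2 Pool.Agent.F2Ch Pool.Agent.PSL2Z Pool.Agent.PSL2Z.BT
open scoped WithZero

/-- [F2D t1] (about 40 lines) A connected graph in which every edge is separated by a cut is a tree.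
Proof. `SimpleGraph.isAcyclic_iff_forall_adj_isBridge` and `isBridge_iff`: let `X.Adj u v`, `S` a cut for `(u, v)`.  In the graph
`X \ fromEdgeSet {s(u, v)}` there is no edge between `S` and its complement (such an edge `b ∈ S`, `a ∉ S` is an edge of `X`, so
`a = u`, `b = v`, but `s(u, v)` was removed).  So everything reachable from `v ∈ S` is in `S` (induction on walks) and `u` is not. -/
def S_t1 : Prop :=
  ∀ (V : Type) (X : SimpleGraph V), X.Connected →
    (∀ u v, X.Adj u v → ∃ S : Set V, Cut X S u v) → X.IsTree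

/-- [F2D t2] (about 30 lines) Edges of trees are separated by cuts.
Proof. `S = {x | (X \ fromEdgeSet {s(u, v)}).Reachable v x}`.  `v ∈ S`, `u ∉ S` since the edge is a bridge.  If `X.Adj a b`, `a ∉ S`, `b ∈ S`
then `s(a, b) = s(u, v)` (otherwise `a` is reachable through `b`), so `a = u ∧ b = v` or `a = v ∧ b = u`; in the second case
`a = v ∈ S`. -/
def S_t2 : Prop :=
  ∀ (V : Type) (X : SimpleGraph V), X.IsTree → ∀ u v, X.Adj u v → ∃ S : Set V, Cut X S u v

/-- [F2D t3] (about 60 lines) Potentials on trees with values in a group.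
Proof. Let `v0` be a vertex.  For `v` let `p v` be the unique path from `v0` to `v` (`IsTree.existsUnique_path`) and `P v` the product of
the `c a b` over the successive darts of `p v`, in order (define `wp : X.Walk u v → F` by recursion on the walk: `wp nil = 1`,
`wp (cons (h : X.Adj a b) q) = c a b * wp q`; `wp (q.append r) = wp q * wp r`).  Let `X.Adj u v`.  If `v` is not in the support of `p u` then
`(p u).concat h` is a path to `v`, so it is `p v` and `P v = P u * c u v`.  If `v` is in the support of `p u`, then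
`(p u).takeUntil v` is the path `p v`, and `(p u).dropUntil v` is the path from `v` to `u`, that is the single edge; so `P u = P v * c v u`,
`P v = P u * (c v u)⁻¹ = P u * c u v`. -/
def S_t3 : Prop :=
  ∀ (V F : Type) [Group F] (X : SimpleGraph V), X.IsTree → ∀ c : V → V → F,
    (∀ u v, X.Adj u v → c v u = (c u v)⁻¹) → ∃ P : V → F, ∀ u v, X.Adj u v → P v = P u * c u v

/-- [F2D t4] (about 80 lines) A group with a homomorphism to a free group whose image is not cyclic maps onto `F_2`.
Proof. Let `H = φ.range`, a free group (`subgroupIsFreeOfIsFree`, Nielsen-Schreier), `e : H ≃* FreeGroup ι`.  If `ι` is a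
subsingleton then `FreeGroup ι` is cyclic (every element is a power of `of i`, or `ι` is empty and the group trivial), so `φ g1 = x ^ a`,
`φ g2 = x ^ b` for some `x` (integers `a, b`) and `χ (φ g1) = (χ x) ^ a`, `χ (φ g2) = (χ x) ^ b` are dependent: contradiction.
So there are `s ≠ t` in `ι`; the homomorphism `FreeGroup ι →* FreeGroup (Fin 2)` with `of s ↦ of 0`, `of t ↦ of 1`,
`of i ↦ 1` otherwise is surjective (its range contains the generators).  Compose `Λ → H ≃ FreeGroup ι → FreeGroup (Fin 2)`.
(`χ` is only needed on the range of `φ`.) -/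
def S_t4 : Prop :=
  ∀ (Λ S : Type) [Group Λ] (φ : Λ →* FreeGroup S) (χ : FreeGroup S →* Multiplicative (ℤ × ℤ))
    (g1 g2 : Λ), ¬ Dpd (χ (φ g1)) (χ (φ g2)) → OntoF2 Λ

/-- [F2D e1] (about 130 lines) Uses t3, t4. LEMMA E1: a group acting on a tree such that all vertex stabilisers
have class zero maps onto `F_2`.
Proof. (1) An equivariant function `f : V → Multiplicative (ℤ × ℤ)`, `f (g • v) = cl g * f v`: for every `v` let `r v` be the chosen representative of
its orbit (`Quotient.out` of the class in `MulAction.orbitRel.Quotient Λ V`) and `s v : Λ` with `s v • r v = v`; `f v = cl (s v)`.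
`(s (g • v))⁻¹ * g * s v` fixes `r v`, so its class is `1`.
(2) Let `O = MulAction.orbitRel.Quotient Λ (V × V)` (diagonal action), `F = FreeGroup O`, `o u v : O` the orbit of `(u, v)`,
`c u v = of (o u v) * (of (o v u))⁻¹`.  Then `c v u = (c u v)⁻¹` and `c (g • u) (g • v) = c u v`.  Let `P` be a potential (t3):
`P v = P u * c u v` for adjacent `u, v`.  For `g : Λ` and adjacent `u, v`: `P (g • v) * (P v)⁻¹ = P (g • u) * c u v * (c u v)⁻¹ * (P u)⁻¹ = P (g • u) * (P u)⁻¹`
(`Acts`), so by connectedness `φ g := P (g • v) * (P v)⁻¹` does not depend on `v`, and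
`φ (g * h) = P (g • h • v) (P (h • v))⁻¹ P (h • v) (P v)⁻¹ = φ g * φ h`.
(3) `χ : F →* Multiplicative (ℤ × ℤ)`, `χ (of (o u v)) = f v / f u` (well defined: `f (g • v) / f (g • u) = f v / f u`).
`χ (c u v) = (f v / f u) ^ 2`, so `χ (P v) / (f v) ^ 2` is the same for adjacent vertices, hence constant, and
`χ (φ g) = χ (P (g • v)) / χ (P v) = (f (g • v) / f v) ^ 2 = (cl g) ^ 2`.  If `cl g1`, `cl g2` are independent then so are their squares; t4. -/
def S_e1 : Prop :=
  ∀ (Λ V : Type) [Group Λ] [MulAction Λ V] (X : SimpleGraph V), X.IsTree → Acts Λ X →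
    ∀ cl : Λ →* Multiplicative (ℤ × ℤ), Rk2 cl → (∀ (g : Λ) (v : V), g • v = v → cl g = 1) →
    OntoF2 Λ

/-- [F2D t5] (about 90 lines) The direction from `v` to `u` in a tree.
Proof. For `u ≠ v` let `n u` be the second vertex of the unique path from `v` to `u` (and `n v = v`).  If `X.Adj v u` the path is the
single edge and `n u = u`.  Let `X.Adj u u'`, `u, u' ≠ v`, and `p` the path from `v` to `u`.  If `u'` is not in the support of `p` then `p.concat` is the
path to `u'`; otherwise `p.takeUntil u'` is the path to `u'`; in both cases (the paths have length at least one) the second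
vertex is the same. -/
def S_t5 : Prop :=
  ∀ (V : Type) (X : SimpleGraph V), X.IsTree → ∀ v : V, ∃ n : V → V,
    (∀ u, X.Adj v u → n u = u) ∧ ∀ u u', X.Adj u u' → u ≠ v → u' ≠ v → n u = n u'

/-- [F2D t6] (about 120 lines) Uses t1, t2, t5. The blown up graph is a tree.
Proof. Connected: `(v, x)` and `(v, y)` are joined inside the fibre (`Y` connected: map the walk by `x ↦ (v, x)`); for `X.Adj u v` the
vertices `(u, a u v)` and `(v, a v u)` are adjacent; induct on a walk in `X`.
Cuts (t1).  (a) Edge from `(u, a u v)` to `(v, a v u)`, `X.Adj u v`, `S` a cut of `X` for `(u, v)` (t2): take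
`{s | s.1 ∈ S}`.  A crossing edge from `s` (outside) to `t` (inside) has `s.1 ≠ t.1`, so `X.Adj s.1 t.1`, `s.1 = u`, `t.1 = v` and so
`s = (u, a u v)`, `t = (v, a v u)`.
(b) Edge from `(v, x)` to `(v, y)`, `Y.Adj x y`, `S` a cut of `Y` for `(x, y)`.  Let `n` be as in t5 for `v`;
`ret (v, z) = z`, `ret (u, z) = a v (n u)` for `u ≠ v`.  Take `{s | ret s ∈ S}`.  For adjacent `s, t`: if `s.1 = t.1 = v` it is an edge of the fibre and the cut
property of `S` applies; if `s.1 = t.1 ≠ v` or `X.Adj s.1 t.1` with both different from `v` then `ret s = ret t`; if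
`s.1 = v`, `X.Adj v t.1` then `ret s = s.2 = a v t.1` and `ret t = a v (n t.1) = a v t.1`: equal; the same with `s, t` exchanged. -/
def S_t6 : Prop :=
  ∀ (V P : Type) (X : SimpleGraph V) (Y : SimpleGraph P) (a : V → V → P), X.IsTree → Y.IsTree →
    (blow X Y a).IsTree

/-- [F2D bu] (about 200 lines) Uses t6. THE BLOW-UP LEMMA, equivariant form.  `r v : Λ → G` is a homomorphism on the
stabiliser of `v`, through which the stabiliser acts on the tree `Y`; the stabiliser of every edge at `v` must have a fixed point.
Proof. Let `rep v` be the chosen representative of the orbit of `v` (`rep (g • v) = rep v`), `s v • rep v = v`, `c g v = (s (g • v))⁻¹ * g * s v`: it fixes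
`rep v` and `c (g * h) v = c g (h • v) * c h v`.  `Λ` acts on `W = V × P` by `g • (v, x) = (g • v, r (rep v) (c g v) • x)`
(`r v 1 = 1` and multiplicativity on the stabiliser; it may be convenient to define `W` as a structure or a type synonym, so that the
product action on `V × P` does not interfere).
Attaching points.  For `d ∈ V × V` (diagonal action) let `d0` be the representative of the orbit of `d` and `t d • d0 = d`.  For an
adjacent pair `d0 = (u0, v0)`: `(rep u0, (s u0)⁻¹ • v0)` is an adjacent pair; by hypothesis there is `x0 : P` fixed by all `r (rep u0) l`, `l` in the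
stabiliser of `rep u0` and of `(s u0)⁻¹ • v0`.  So `(u0, x0) ∈ W` is fixed by every `k ∈ Λ` which fixes `u0` and `v0`
(`c k u0 = (s u0)⁻¹ * k * s u0`).  `a u v` = second component of `t d • (u0, x0)` for `d = (u, v)` (arbitrary if `u, v` are not adjacent).
Equivariance: `g • (u, a u v) = (g • u, a (g • u) (g • v))`: `(t (g • d))⁻¹ * g * t d` fixes `d0`, so it fixes `(u0, x0)`.
`Z = blow X Y a` is a tree by t6 and `Acts Λ Z`: fibre edges go to fibre edges (`Acts G Y`), the others by equivariance.
If `g • (v, x) = (v, x)` then `g • v = v`, and `l = c g v = (s v)⁻¹ * g * s v` fixes `rep v` and `r (rep v) l • x = x`. -/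
def S_bu : Prop :=
  ∀ (Λ V G P : Type) [Group Λ] [MulAction Λ V] [Group G] [MulAction G P] (X : SimpleGraph V)
    (Y : SimpleGraph P), X.IsTree → Acts Λ X → Y.IsTree → Acts G Y → ∀ r : V → Λ → G,
    (∀ v g h, g • v = v → h • v = v → r v (g * h) = r v g * r v h) →
    (∀ u v, X.Adj u v → ∃ x : P, ∀ g : Λ, g • u = u → g • v = v → r u g • x = x) →
    ∃ (W : Type) (_ : MulAction Λ W) (Z : SimpleGraph W), Z.IsTree ∧ Acts Λ Z ∧
      ∀ (z : W) (g : Λ), g • z = z → ∃ (v : V) (l s : Λ) (x : P), l • v = v ∧ r v l • x = x ∧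
        l = s * g * s⁻¹

/-- [F2D li] (about 50 lines) Uses t1. The line is a tree.
Proof. Connected: induction in both directions from `1`.  Cuts: for the edge from `m` to `m + 1` take `{x | m < x.toAdd}`, for the edge from
`m` to `m - 1` take `{x | x.toAdd < m}`.  The action of `Multiplicative ℤ` on itself is the multiplication. -/
def S_li : Prop := line.IsTree ∧ Acts (Multiplicative ℤ) line

/-- [F2D e2] (about 120 lines) Uses e1, bu, li. LEMMA E2: all edge stabilisers have class zero and the classes of each vertex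
stabiliser are pairwise dependent.
Proof. For a vertex `v`: if all elements of its stabiliser have class `1` let `α v = 0`; otherwise choose `g0` with `g0 • v = v`,
`cl g0 = (p, q) ≠ 0` and let `α v (x, y) = p * x + q * y : ℤ`.  Then for `l` in the stabiliser of `v`: `α v (cl l) = 0` implies `cl l = 0` (`cl l = (x, y)`
with `p * y = q * x` and `p * x + q * y = 0`, so `(p ^ 2 + q ^ 2) * x = 0`, the same for `y`).  Apply `bu` with
`G = P = Multiplicative ℤ`, `Y = line`, `r v g = ofAdd (α v (cl g))` (an additive function of `cl g`): elements of edge stabilisers have class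
zero, so `r u g = 1` fixes every point.  In the new tree an element `g` fixing a vertex is conjugate to `l` with `l • v = v` and
`r v l • x = x`, so `α v (cl l) = 0`, `cl l = 1` and `cl g = cl l = 1` (the target is commutative).  Now e1. -/
def S_e2 : Prop :=
  ∀ (Λ V : Type) [Group Λ] [MulAction Λ V] (X : SimpleGraph V), X.IsTree → Acts Λ X →
    ∀ cl : Λ →* Multiplicative (ℤ × ℤ), Rk2 cl →
    (∀ u v, X.Adj u v → ∀ g : Λ, g • u = u → g • v = v → cl g = 1) →
    (∀ (v : V) (g h : Λ), g • v = v → h • v = v → Dpd (cl g) (cl h)) → OntoF2 Λ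

/-- [F2D co] (about 180 lines) Uses t1, t2. THE COLLAPSE LEMMA: collapse the edges in the invariant symmetric set `D`.
Proof. `W` = quotient of `V` by `Relation.ReflTransGen D` (an equivalence relation, `D` is symmetric), `q` the projection; `Λ` acts on `W`.
(a) If `X.Adj u v`, `¬ D u v` and `S` is a cut for `(u, v)` (t2), then no `D`-edge crosses `S` (a crossing edge is `(u, v)` or `(v, u)`), so `S` is saturated: `D a b`
implies `a ∈ S ↔ b ∈ S`, so `q a = q b` implies `a ∈ S ↔ b ∈ S`.  In particular `q u ≠ q v`.
(b) `Z.Adj a b` iff there are `u, v` with `X.Adj u v`, `¬ D u v`, `q u = a`, `q v = b`: symmetric, irreflexive by (a).  Connected: every edge of `X` is a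
`D`-edge (same class) or maps to an edge of `Z`.  Cut for `(a, b)`: `{x | ∃ y ∈ S, q y = x}`; a crossing edge comes from an edge `(u', v')` of `X` with
`u' ∉ S`, `v' ∈ S` (saturation), so `u' = u`, `v' = v`.  So `Z` is a tree by t1.
(c) If `g • a = a`, `g • b = b`: `X.Adj (g • u) (g • v)`, `q (g • u) = a = q u`, `q (g • v) = q v`, so `g • u ∉ S`, `g • v ∈ S` and
`g • u = u`, `g • v = v`. -/
def S_co : Prop :=
  ∀ (Λ V : Type) [Group Λ] [MulAction Λ V] (X : SimpleGraph V), X.IsTree → Acts Λ X →
    ∀ D : V → V → Prop, (∀ u v, D u v → X.Adj u v) → (∀ u v, D u v → D v u) →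
    (∀ (g : Λ) (u v : V), D u v → D (g • u) (g • v)) →
    ∃ (W : Type) (_ : MulAction Λ W) (Z : SimpleGraph W) (q : V → W), Z.IsTree ∧ Acts Λ Z ∧
      Function.Surjective q ∧ (∀ (g : Λ) (v : V), q (g • v) = g • q v) ∧
      (∀ u v, q u = q v ↔ Relation.ReflTransGen D u v) ∧
      ∀ a b, Z.Adj a b → ∃ u v, X.Adj u v ∧ ¬ D u v ∧ q u = a ∧ q v = b ∧
        ∀ g : Λ, g • a = a → g • b = b → g • u = u ∧ g • v = v

/-- [F2D he] (about 200 lines) Uses e2, co. THE HEISENBERG LEMMA.
Proof. (0) If `π k = 1` then `cl k = 1`: `π k` commutes with every `π h`, so `cl k` is dependent with every class; if `cl k ≠ 0` all classes would be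
pairwise dependent, against `Rk2`.  (Dependence is transitive through a nonzero class.)
(1) If `g • v = v`, `h • v = v` then `Dpd (cl g) (cl h)`: the commutator fixes `v` and has class `1`, so `π` of it is `1` and `π g`, `π h` commute.
(2) `D u v` iff `X.Adj u v` and some `g` fixes `u` and `v` and has `cl g ≠ 1`; symmetric and invariant (conjugate).  Let `W, Z, q` be as in co.
Edge stabilisers of `Z` have class zero: an element `g` fixing `a, b` fixes `u, v` with `X.Adj u v`, `¬ D u v`.
(3) Let `g, h` fix the vertex `a = q v` of `Z`.  Claim `Dpd (cl g) (cl h)`.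
If there is no `u` with `D v u` then `ReflTransGen D v y` implies `y = v`, and `q (g • v) = g • a = a = q v` gives `g • v = v`, also `h • v = v`: (1).
Otherwise let `D v u`, `x0` fix `v, u`, `cl x0 ≠ 1`.  It is enough that every `g` with `g • a = a` has `Dpd (cl x0) (cl g)`.
Write `x ~ y` if there are integers `m, n ≠ 0` with `π x ^ m = π y ^ n`; transitive.  If `x, y` fix the same vertex and `cl x, cl y ≠ 1` then `x ~ y`: by (1)
the nonzero classes are dependent, so `m cl x = n cl y` with `m, n ≠ 0` (for `cl x = (a, b)`, `cl y = (c, d)`, `a d = b c`: take `(m, n) = (c, a)` if `a ≠ 0`,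
then `c ≠ 0`; otherwise `(d, b)`), and `x ^ m * y ^ (-n)` fixes the vertex and has class zero, so it dies under `π`.
By induction along `ReflTransGen D v y`: every `x` fixing `y` with `cl x ≠ 1` has `x0 ~ x` (step from `y` to `y'`, `D y y'`: some `z` fixes both, `cl z ≠ 1`,
`x0 ~ z ~ x`).  Apply this to `y = g • v`, `x = g * x0 * g⁻¹`: `π x0 ^ m = π (g * x0 ^ n * g⁻¹)`, `m, n ≠ 0`.
By (0) the classes agree: `m cl x0 = n cl x0`, so `m = n`, and `π x0 ^ m` commutes with `π g`: `Dpd (m cl x0) (cl g)`, so `Dpd (cl x0) (cl g)`.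
(4) Apply e2 to `Z`. -/
def S_he : Prop :=
  ∀ (Λ V M : Type) [Group Λ] [MulAction Λ V] [Group M] (X : SimpleGraph V), X.IsTree → Acts Λ X →
    ∀ cl : Λ →* Multiplicative (ℤ × ℤ), Rk2 cl → ∀ π : Λ →* M,
    (∀ g h, Commute (π g) (π h) → Dpd (cl g) (cl h)) →
    (∀ (v : V) (g : Λ), g • v = v → cl g = 1 → π g = 1) → OntoF2 Λ

/-- [F2D cy] (about 70 lines) A subgroup of `ℤ × ℤ` with pairwise dependent elements is cyclic.
Proof. If all elements are `0`: take `z = 1`.  Otherwise choose `h0 = (p, q) ≠ 0` in `H` and let `β (x, y) = p * x + q * y`; `β` is additive and injective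
on `H` (elements of `H` are dependent with `h0`, see e2).  `β (H)` is a subgroup of `ℤ`, so generated by some `β z`, `z ∈ H`
(`Int.subgroup_cyclic` or `AddSubgroup.exists...`, `isPrincipal`); for `x ∈ H` there is `n` with `β x = n β z`, so `x = n z`. -/
def S_cy : Prop :=
  ∀ H : Subgroup (Multiplicative (ℤ × ℤ)), (∀ a ∈ H, ∀ b ∈ H, Dpd a b) →
    ∃ z ∈ H, ∀ x ∈ H, ∃ n : ℤ, x = z ^ n

end Pool.Agent.F2D
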