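import Pool.Agent.Lib.MP_305fdd_al.F2.D.StmB

/-!
# MP_305fdd_al, F_2 project, section D: theorem D_zero
-/

set_option autoImplicit false

namespace Pool.Agent.F2D

open Pool.Agent.F2 Pool.Agent.F2Ch Pool.Agent.PSL2Z Pool.Agent.PSL2Z.BT
open scoped WithZero

/-- [F2D A0] THEOREM D_zero. -/
theorem p_A0 (he1 : S_e1) (hse : S_se) (hmo : S_mo) : S_A0 := by
  intro Λ K Γ _ _ _ _ _ T v cl hPC hIrr hV hD hRk hell
  have hg0 : ∃ g0, v (T g0) < 0 := by
    by_contra hcon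
    push Not at hcon
    obtain ⟨g, h, hgh⟩ := hRk
    apply hgh
    rw [hell g (hcon g)]
    simp [Dpd]
  obtain ⟨E, _, _, w, γ, ρ, hM⟩ := hse Λ K Γ T v hPC hIrr hV hD hg0
  let _ : MulAction Λ (Vert w) := MulAction.compHom (Vert w) ρ
  have hmo' := hmo Λ K Γ E T v γ w ρ hV hM
  refine he1 Λ (Vert w) (tree w) (isTree hM.surj) ?_ cl hRk ?_
  · intro g u u' huv
    exact adj_smul hM.surj (ρ g) u u' huv
  · intro g M hgM
    exact hell g (hmo'.2.2.2 g M hgM)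

end Pool.Agent.F2D
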