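import Pool.Agent.Lib.MP_305fdd_al.F2.D.Defs

/-!
# MP_305fdd_al, F_2 project, section D: the two notions of dependence agree
-/

set_option autoImplicit false

namespace Pool.Agent.F2D

open Pool.Agent.F2 Pool.Agent.F2Ch

theorem de_eq_one (a b : Multiplicative (ℤ × ℤ)) (m n : ℤ) :
    a ^ m * b ^ n = 1 ↔ m * a.toAdd.1 + n * b.toAdd.1 = 0 ∧ m * a.toAdd.2 + n * b.toAdd.2 = 0 := by
  have h : (a ^ m * b ^ n).toAdd = m • a.toAdd + n • b.toAdd := rfl
  rw [← toAdd_eq_zero, h, Prod.ext_iff]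
  simp

theorem dep_iff (a b : Multiplicative (ℤ × ℤ)) : Pool.Agent.F2.Dep a b ↔ Dpd a b := by
  unfold Pool.Agent.F2.Dep Dpd
  constructor
  · rintro ⟨m, n, hmn, h⟩
    rw [de_eq_one] at h
    obtain ⟨h1, h2⟩ := h
    rcases hmn with hm | hn
    · apply mul_left_cancel₀ hm
      linear_combination b.toAdd.2 * h1 - b.toAdd.1 * h2
    · apply mul_left_cancel₀ hn
      linear_combination a.toAdd.1 * h2 - a.toAdd.2 * h1
  · intro h
    by_cases ha : a.toAdd.1 = 0
    · by_cases hb : a.toAdd.2 = 0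
      · refine ⟨1, 0, Or.inl one_ne_zero, ?_⟩
        rw [de_eq_one, ha, hb]
        simp
      · refine ⟨b.toAdd.2, -a.toAdd.2, Or.inr (neg_ne_zero.2 hb), ?_⟩
        rw [de_eq_one]
        constructor
        · linear_combination h
        · ring
    · refine ⟨b.toAdd.1, -a.toAdd.1, Or.inr (neg_ne_zero.2 ha), ?_⟩
      rw [de_eq_one]
      constructor
      · ring
      · linear_combination -h

end Pool.Agent.F2D
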