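import Pool.Agent.Lib.MP_305fdd_al.F2.D.StmT

set_option autoImplicit false

namespace Pool.Agent.F2D

open Pool.Agent.F2 Pool.Agent.F2Ch Pool.Agent.PSL2Z Pool.Agent.PSL2Z.BT
open scoped WithZero

theorem li_reach (n : ℤ) : line.Reachable (1 : Multiplicative ℤ) (Multiplicative.ofAdd n) := by
  induction n using Int.induction_on with
  | zero => exact SimpleGraph.Reachable.refl _
  | succ n ih =>
    refine ih.trans (SimpleGraph.Adj.reachable ?_)
    exact Or.inl rfl
  | pred n ih =>
    refine ih.trans (SimpleGraph.Adj.reachable ?_)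
    refine Or.inr ?_
    rw [toAdd_ofAdd, toAdd_ofAdd]
    omega

theorem li_conn : line.Connected := by
  refine { preconnected := fun x y => ?_, nonempty := ⟨1⟩ }
  have hx := li_reach x.toAdd
  have hy := li_reach y.toAdd
  rw [ofAdd_toAdd] at hx hy
  exact hx.symm.trans hy

theorem li_adj {a b : Multiplicative ℤ} (h : line.Adj a b) :
    b.toAdd = a.toAdd + 1 ∨ a.toAdd = b.toAdd + 1 := h

theorem p_li (ht1 : S_t1) : S_li := by
  refine ⟨ht1 _ line li_conn ?_, ?_⟩
  · intro u v huv
    rcases li_adj huv with h | h
    · refine ⟨{x | u.toAdd < x.toAdd}, ?_, ?_, ?_⟩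
      · intro hu
        exact lt_irrefl u.toAdd hu
      · show u.toAdd < v.toAdd
        omega
      · intro a b hab ha hb
        have ha' : ¬ u.toAdd < a.toAdd := ha
        have hb' : u.toAdd < b.toAdd := hb
        rcases li_adj hab with h1 | h1
        · refine ⟨Multiplicative.toAdd.injective ?_, Multiplicative.toAdd.injective ?_⟩ <;> omega
        · omega
    · refine ⟨{x | x.toAdd < u.toAdd}, ?_, ?_, ?_⟩
      · intro hu
        exact lt_irrefl u.toAdd hu
      · show v.toAdd < u.toAdd
        omega
      · intro a b hab ha hb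
        have ha' : ¬ a.toAdd < u.toAdd := ha
        have hb' : b.toAdd < u.toAdd := hb
        rcases li_adj hab with h1 | h1
        · omega
        · refine ⟨Multiplicative.toAdd.injective ?_, Multiplicative.toAdd.injective ?_⟩ <;> omega
  · intro g u v huv
    show (g * v).toAdd = (g * u).toAdd + 1 ∨ (g * u).toAdd = (g * v).toAdd + 1
    rw [toAdd_mul, toAdd_mul]
    rcases li_adj huv with h | h
    · left; omega
    · right; omega

end Pool.Agent.F2D

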