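import Pool.Agent.Lib.MP_305fdd_al.F2.D.StmB

/-!
# MP_305fdd_al, F_2 project, section D: piece [F2D mi]
-/

set_option autoImplicit false

namespace Pool.Agent.F2D

open Pool.Agent.F2 Pool.Agent.F2Ch Pool.Agent.PSL2Z Pool.Agent.PSL2Z.BT
open scoped WithZero

private theorem mi_lt {E : Type} [Field E] (w : Valuation E ℤᵐ⁰) (x : E) (m : ℤ) :
    w x < WithZero.exp m ↔ w x ≤ WithZero.exp (m - 1) := by
  by_cases hx : w x = 0
  · rw [hx]
    exact ⟨fun _ => zero_le, fun _ => WithZero.exp_pos⟩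
  · rw [← WithZero.exp_log hx, WithZero.exp_lt_exp, WithZero.exp_le_exp]
    omega

private theorem mi_ex {E : Type} [Field E] (w : Valuation E ℤᵐ⁰) (x : E) :
    ∃ m : ℤ, w x ≤ WithZero.exp m := by
  by_cases hx : w x = 0
  · exact ⟨0, by rw [hx]; exact zero_le⟩
  · exact ⟨WithZero.log (w x), by rw [WithZero.exp_log hx]⟩

private theorem mi_step {V : Type} {R : V → V → Prop} {P : V → Prop} {a b : V}
    (h : Relation.ReflTransGen R a b) (ha : ¬ P a) (hb : P b) :
    ∃ x y, Relation.ReflTransGen R a x ∧ R x y ∧ ¬ P x ∧ P y := by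
  induction h with
  | refl => exact absurd hb ha
  | tail h1 h2 ih =>
    rename_i x y
    by_cases hx : P x
    · exact ih hx
    · exact ⟨x, y, h1, h2, hx, hb⟩

theorem p_mi (hda : S_da) (hct : S_ct) (hsd : S_sd) (hma : S_ma) : S_mi := by
  intro E _ w hw g n hdet hn htr R hRA hRs hRg M0 hM0
  -- the component
  have hCg : ∀ M, Relation.ReflTransGen R M0 M → Relation.ReflTransGen R M0 (g • M) := by
    intro M hM
    refine hM0.trans ?_
    induction hM with
    | refl => exact Relation.ReflTransGen.refl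
    | tail h1 h2 ih => exact ih.tail (hRg _ _ h2)
  have hsym : ∀ M N, Relation.ReflTransGen R M N → Relation.ReflTransGen R N M := by
    intro M N h
    induction h with
    | refl => exact Relation.ReflTransGen.refl
    | tail h1 h2 ih => exact Relation.ReflTransGen.head (hRs _ _ h2) ih
  have hval : ∀ k : Gw w, (k⁻¹ * g * k).val.val = (k⁻¹).val.val * g.val.val * k.val.val := by
    intro k
    rw [Subgroup.coe_mul, Units.val_mul, Subgroup.coe_mul, Units.val_mul]
  have hkk : ∀ k : Gw w, k.val.val * (k⁻¹).val.val = 1 := by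
    intro k
    rw [← Units.val_mul, ← Subgroup.coe_mul, mul_inv_cancel]
    rfl
  have htrB : ∀ k : Gw w, w (ent (k⁻¹ * g * k) 0 0 + ent (k⁻¹ * g * k) 1 1) = WithZero.exp n := by
    intro k
    have h1 : ent (k⁻¹ * g * k) 0 0 + ent (k⁻¹ * g * k) 1 1 = (k⁻¹ * g * k).val.val.trace :=
      (Matrix.trace_fin_two _).symm
    rw [h1, hval, Matrix.trace_mul_comm, ← Matrix.mul_assoc, hkk, Matrix.one_mul, htr]
  have hdetB : ∀ k : Gw w, (k⁻¹ * g * k).val.val.det = 1 := by
    intro k
    rw [hval, Matrix.det_mul, Matrix.det_mul, hdet, mul_one, mul_comm, ← Matrix.det_mul, hkk,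
      Matrix.det_one]
  -- the minimal triple
  have hbound : ∀ (k : Gw w) (h N : ℤ), Bd w (k⁻¹ * g * k) h N → n ≤ N := by
    intro k h N hB
    have h1 := Valuation.map_add_le w hB.1 hB.2.2.2
    rw [htrB] at h1
    exact WithZero.exp_le_exp.1 h1
  obtain ⟨N, ⟨k, h, hC, hB⟩, hmin⟩ : ∃ N : ℤ, (∃ (k : Gw w) (h : ℤ),
      Relation.ReflTransGen R M0 (k • mkV w h 0) ∧ Bd w (k⁻¹ * g * k) h N) ∧
      ∀ N', (∃ (k : Gw w) (h : ℤ), Relation.ReflTransGen R M0 (k • mkV w h 0) ∧
        Bd w (k⁻¹ * g * k) h N') → N ≤ N' := by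
    refine Int.exists_least_of_bdd ⟨n, ?_⟩ ?_
    · rintro N ⟨k, h, -, hB⟩
      exact hbound k h N hB
    · obtain ⟨k, h, hk, -⟩ := hda E w hw M0 (up M0) (adj_up hw M0)
      obtain ⟨m0, h0⟩ := mi_ex w (ent (k⁻¹ * g * k) 0 0)
      obtain ⟨m1, h1⟩ := mi_ex w (ent (k⁻¹ * g * k) 0 1)
      obtain ⟨m2, h2⟩ := mi_ex w (ent (k⁻¹ * g * k) 1 0)
      obtain ⟨m3, h3⟩ := mi_ex w (ent (k⁻¹ * g * k) 1 1)
      refine ⟨|m0| + |m1| + |m2| + |m3| + |h|, k, h, ?_, ?_, ?_, ?_, ?_⟩
      · rw [← hk]
      · exact h0.trans (WithZero.exp_le_exp.2 (by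
          have := le_abs_self m0; have := abs_nonneg m1; have := abs_nonneg m2
          have := abs_nonneg m3; have := abs_nonneg h; omega))
      · exact h1.trans (WithZero.exp_le_exp.2 (by
          have := abs_nonneg m0; have := le_abs_self m1; have := abs_nonneg m2
          have := abs_nonneg m3; have := neg_abs_le h; omega))
      · exact h2.trans (WithZero.exp_le_exp.2 (by
          have := abs_nonneg m0; have := abs_nonneg m1; have := le_abs_self m2
          have := abs_nonneg m3; have := le_abs_self h; omega))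
      · exact h3.trans (WithZero.exp_le_exp.2 (by
          have := abs_nonneg m0; have := abs_nonneg m1; have := abs_nonneg m2
          have := le_abs_self m3; have := abs_nonneg h; omega))
  have hnN := hbound k h N hB
  obtain ⟨r, hr, hB', hB10, hB11⟩ := hma E w hw (k⁻¹ * g * k) h N (hn.trans hnN) (hdetB k) hB
  have hconj : r⁻¹ * (k⁻¹ * g * k) * r = (k * r)⁻¹ * g * (k * r) := by group
  rw [hconj] at hB' hB10 hB11
  have hC' : Relation.ReflTransGen R M0 ((k * r) • mkV w h 0) := by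
    rw [mul_smul, hr]
    exact hC
  clear hB hC hconj hr
  generalize k * r = k' at hB' hB10 hB11 hC'
  clear k r
  obtain ⟨b00, b01, b10, b11⟩ := hB'
  have hfirst : w (ent (k'⁻¹ * g * k') 0 0) = WithZero.exp N ∨
      w (ent (k'⁻¹ * g * k') 0 1) = WithZero.exp (N + h) := by
    by_contra hcon
    push Not at hcon
    have h0 := lt_of_le_of_ne b00 hcon.1
    have h1 := lt_of_le_of_ne b01 hcon.2
    have h2 := hmin (N - 1) ⟨k', h, hC', (mi_lt w _ _).1 h0, by
      have := (mi_lt w _ _).1 h1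
      rwa [show N + h - 1 = N - 1 + h by ring] at this, by
      have := (mi_lt w _ _).1 hB10
      rwa [show N - h - 1 = N - 1 - h by ring] at this, (mi_lt w _ _).1 hB11⟩
    omega
  have hout := hsd E w hw (k'⁻¹ * g * k') h N (hn.trans hnN) hfirst hB10 hB11
  obtain ⟨hu, hv, hcut⟩ := hct E w hw h
  -- the chain
  have hchain : Relation.ReflTransGen R (k' • mkV w h 0) (g • k' • mkV w h 0) :=
    (hsym _ _ hC').trans (hCg _ hC')
  obtain ⟨a, b, hab, hR, ha, hb⟩ := mi_step
    (P := fun M => k'⁻¹ • M ∈ {M : Vert w | ¬ ∃ n : ℕ, up^[n] M = mkV w h 0}) hchain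
    (by
      rw [inv_smul_smul]
      exact hu)
    (by
      have e : k'⁻¹ • g • k' • mkV w h 0 = (k'⁻¹ * g * k') • mkV w h 0 := by
        rw [mul_smul, mul_smul]
      rw [e]
      exact hout)
  have hadj := adj_smul hw k'⁻¹ a b (hRA a b hR)
  obtain ⟨ha2, hb2⟩ := hcut _ _ hadj ha hb
  have ha3 : a = k' • mkV w h 0 := by rw [← ha2, smul_inv_smul]
  have hb3 : b = k' • mkV w (h + 1) 0 := by rw [← hb2, smul_inv_smul]
  have hCb : Relation.ReflTransGen R M0 (k' • mkV w (h + 1) 0) := by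
    rw [← hb3]
    exact (hC'.trans hab).tail hR
  rw [ha3, hb3] at hR
  have htr' := htrB k'
  have hdet' := hdetB k'
  rw [Matrix.det_fin_two] at hdet'
  have hdet2 : ent (k'⁻¹ * g * k') 0 0 * ent (k'⁻¹ * g * k') 1 1 -
      ent (k'⁻¹ * g * k') 0 1 * ent (k'⁻¹ * g * k') 1 0 = 1 := hdet'
  have hNn : N = n := by
    by_contra hne
    have hlt : n < N := lt_of_le_of_ne hnN (fun h => hne h.symm)
    have h00 : w (ent (k'⁻¹ * g * k') 0 0) < WithZero.exp N := by
      have e : ent (k'⁻¹ * g * k') 0 0 =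
          (ent (k'⁻¹ * g * k') 0 0 + ent (k'⁻¹ * g * k') 1 1) - ent (k'⁻¹ * g * k') 1 1 := by
        ring
      rw [e]
      refine lt_of_le_of_lt (Valuation.map_sub w _ _) (max_lt ?_ hB11)
      rw [htr']
      exact WithZero.exp_lt_exp.2 hlt
    have h01 : w (ent (k'⁻¹ * g * k') 0 1) = WithZero.exp (N + h) :=
      hfirst.resolve_left h00.ne
    have h00' := (mi_lt w _ _).1 h00
    have h11' := (mi_lt w _ _).1 hB11
    have h10 : w (ent (k'⁻¹ * g * k') 1 0) ≤ WithZero.exp (N - 2 - h) := by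
      have e : ent (k'⁻¹ * g * k') 0 1 * ent (k'⁻¹ * g * k') 1 0 =
          ent (k'⁻¹ * g * k') 0 0 * ent (k'⁻¹ * g * k') 1 1 - 1 := by
        linear_combination -hdet2
      have h2 : w (ent (k'⁻¹ * g * k') 0 1 * ent (k'⁻¹ * g * k') 1 0) ≤
          WithZero.exp (2 * N - 2) := by
        rw [e]
        refine (Valuation.map_sub w _ _).trans (max_le ?_ ?_)
        · rw [map_mul]
          refine (mul_le_mul' h00' h11').trans ?_
          rw [← WithZero.exp_add]
          exact WithZero.exp_le_exp.2 (by omega)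
        · rw [map_one, ← WithZero.exp_zero]
          exact WithZero.exp_le_exp.2 (by omega)
      rw [map_mul, h01, mul_comm] at h2
      have h3 : WithZero.exp (2 * N - 2) = WithZero.exp (N - 2 - h) * WithZero.exp (N + h) := by
        rw [← WithZero.exp_add]
        congr 1
        ring
      rw [h3] at h2
      exact le_of_mul_le_mul_right h2 WithZero.exp_pos
    have h2 := hmin (N - 1) ⟨k', h + 1, hCb, h00', by
      rw [h01]
      exact WithZero.exp_le_exp.2 (by omega), by
      rwa [show N - 2 - h = N - 1 - (h + 1) by ring] at h10, h11'⟩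
    omega
  subst hNn
  refine ⟨k', h, hR, ?_, b01, hB10, hB11⟩
  by_contra hne
  have h1 := lt_of_le_of_ne b00 hne
  have h2 := Valuation.map_add_lt w h1 hB11
  rw [htr'] at h2
  exact lt_irrefl _ h2

end Pool.Agent.F2D
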